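import Pool.Agent.EL.FDefs

set_option autoImplicit false

/-!
# EL/Amal: amalgamation of conditions

Let `G` be the set `p.1.1 ∪ q.1.1 ∪ range (fun j => cut Af j t)`, with top `t`.
Write `tp, tq` for the tops, `s|j` for `cut Af j s`.
* finite: `range (cut Af · t)` is a set of subsets of `t`.  `G ⊆ 𝒦` by `hf.cut`.
* top: `tp ∈ p.1.1` etc.; `t` itself: `t|j = t` for some `j`: every `z ∈ t` is in some
  `Af i` (`hf.cov`, `t ∈ 𝒦` so `t ⊆ A`), finitely many, `mono`.
* `G` is closed under `∩`: for `s ∈ Gp`, `s' ∈ Gq`: `s' ⊆ tq ⊆ Af i`, so `s ∩ s' = (s|i) ∩ s'`,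
  and `s|i ∈ Gp` is a subset of `Af i`, hence in `Gq` by `heq`.  For `s ∈ Gp` (or `Gq`):
  `s ∩ t|j = s|j ∈ Gp` as `s ⊆ tp ⊆ t`.  `t|j ∩ t|j' = t|min j j'`.
* closed under cuts: clear (`(t|j)|j' = t|min j j'`).
* `G ≤ p`: let `s ∈ G`, `s ⊆ tp`.  If `s ∈ Gq` then `s ⊆ Af i`, so `s ⊆ tp|i` and
  `s ∈ Gp` by `heq` (`s ⊆ cut Af i tp`, `s ∈ Gq`).  If `s = t|j ⊆ tp` then `s = tp|j ∈ Gp`.
* `G ≤ q`: let `s ∈ G`, `s ⊆ tq`.  If `s ∈ Gp` then `s ⊆ tq ⊆ Af i`, so `s ∈ Gq` by `heq`.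
  If `s = t|j ⊆ tq` then `s = tq|j ∈ Gq`.
* `Two G`: let `s ∈ G`.  If `s ∈ Gp`, all elements of `G` which are `⊆ s` are in `Gp`, so the lower
  covers of `s` in `G` are lower covers in `Gp`.  Same for `Gq`.  Let `s = t|j`, not in `Gp ∪ Gq`.
  Each `u ∈ G` with `u ⊂ s` is contained in one of the sets (all in `G`, all `⊂ s`, the first two
  since `s ∉ Gp ∪ Gq`)
  `a = tp|j` (if `u ∈ Gp`), `b = tq|j` (if `u ∈ Gq`), `d` = the largest set of the form `t|j'`
  which is `⊂ s` (if `u` is of this form; the sets `t|j'` form a finite chain, and such a set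
  exists if `s ≠ ∅`; note `∅ ∈ G`); so a lower cover is `a`, `b` or `d`.
  Two of them suffice: if `j ≤ i` then `a = (tp|i)|j ⊆ tq|j = b` since `tp|i ∈ Gq` is `⊆ tq`; so a
  lower cover equal to `a` is equal to `b`.  If `i < j` and `t|i = t|j`, replace `j` by `i`.
  If `i < j` and `t|i ≠ s`: `b = tq|j ⊆ tq ⊆ t|i ⊆ d`, so a lower cover equal to `b` is equal
  to `d`.

`cnd_dense`: apply `amal` with `q = ({∅}, ∅)` and `i` the least element of `ω₁`
(`Af i = ∅`), `t ∈ 𝒦` containing `tp ∪ {a}`.  (`∅ ∈ Gp` because `∅ = tp|i`.)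
-/

namespace Pool.Agent.EL

open Cardinal Set

variable {Z : Type} [DecidableEq Z]

theorem Amal_cov {A : Set Z} {𝒦 : Set (Finset Z)} {Af : W1 → Set Z} (hf : Filt A 𝒦 Af)
    (u : Finset Z) : (u : Set Z) ⊆ A → ∃ j, (u : Set Z) ⊆ Af j := by
  induction u using Finset.induction_on with
  | empty =>
    intro _
    exact ⟨Classical.arbitrary W1, by simp⟩
  | insert a u _ ih =>
    intro hu
    rw [Finset.coe_insert, Set.insert_subset_iff] at hu
    obtain ⟨j, hj⟩ := ih hu.2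
    obtain ⟨k, hk⟩ := hf.cov a hu.1
    refine ⟨max j k, ?_⟩
    rw [Finset.coe_insert, Set.insert_subset_iff]
    exact ⟨hf.mono (le_max_right j k) hk, hj.trans (hf.mono (le_max_left j k))⟩

private theorem Amal_cut_cut {A : Set Z} {𝒦 : Set (Finset Z)} {Af : W1 → Set Z}
    (hf : Filt A 𝒦 Af) (j k : W1) (s : Finset Z) :
    cut Af j (cut Af k s) = cut Af (min j k) s := by
  ext z
  simp only [mem_cut]
  constructor
  · rintro ⟨⟨h1, h2⟩, h3⟩
    refine ⟨h1, ?_⟩
    rcases le_total j k with h | h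
    · rwa [min_eq_left h]
    · rwa [min_eq_right h]
  · rintro ⟨h1, h2⟩
    exact ⟨⟨h1, hf.mono (min_le_right j k) h2⟩, hf.mono (min_le_left j k) h2⟩

private theorem Amal_inter_cut {Af : W1 → Set Z} {s t : Finset Z} (hst : s ⊆ t) (j : W1) :
    s ∩ cut Af j t = cut Af j s := by
  ext z
  simp only [Finset.mem_inter, mem_cut]
  constructor
  · rintro ⟨h1, _, h3⟩
    exact ⟨h1, h3⟩
  · rintro ⟨h1, h3⟩
    exact ⟨h1, hst h1, h3⟩

private theorem Amal_cut_mono {Af : W1 → Set Z} {s t : Finset Z} (hst : s ⊆ t) (j : W1) :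
    cut Af j s ⊆ cut Af j t := by
  intro z hz
  rw [mem_cut] at hz ⊢
  exact ⟨hst hz.1, hz.2⟩

/-- a cut of `t` which is contained in `s ⊆ t` is the cut of `s` -/
private theorem Amal_cut_eq {Af : W1 → Set Z} {s t : Finset Z} (hst : s ⊆ t) (j : W1)
    (h : cut Af j t ⊆ s) : cut Af j t = cut Af j s := by
  apply Finset.Subset.antisymm
  · intro z hz
    rw [mem_cut]
    exact ⟨h hz, (mem_cut.mp hz).2⟩
  · exact Amal_cut_mono hst j

theorem amal {A : Set Z} {𝒦 : Set (Finset Z)} {Af : W1 → Set Z} (h : Cofam A 𝒦)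
    (hf : Filt A 𝒦 Af) (p q : Cnd 𝒦 Af) (i : W1) (hq : (q.1.2 : Set Z) ⊆ Af i)
    (heq : ∀ s : Finset Z, (s ∈ p.1.1 ∧ (s : Set Z) ⊆ Af i) ↔ (s ∈ q.1.1 ∧ s ⊆ cut Af i p.1.2))
    {t : Finset Z} (ht : t ∈ 𝒦) (hpt : p.1.2 ⊆ t) (hqt : q.1.2 ⊆ t) :
    ∃ r : Cnd 𝒦 Af, r ≤ p ∧ r ≤ q ∧ r.1.2 = t := by
  obtain ⟨⟨Gp, tp⟩, hp⟩ := p
  obtain ⟨⟨Gq, tq⟩, hqc⟩ := q
  simp only at hq heq hpt hqt hp hqc
  set G : Set (Finset Z) := (Gp ∪ Gq) ∪ range (fun j => cut Af j t) with hG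
  have hcutG : ∀ j, cut Af j t ∈ G := fun j => Or.inr ⟨j, rfl⟩
  have hqi : ∀ s ∈ Gq, (s : Set Z) ⊆ Af i := fun s hs =>
    (Finset.coe_subset.mpr (hqc.le s hs)).trans hq
  have F1 : ∀ s ∈ Gp, (s : Set Z) ⊆ Af i → s ∈ Gq := fun s hs hsi => ((heq s).mp ⟨hs, hsi⟩).1
  have F2 : ∀ s ∈ Gq, s ⊆ tp → s ∈ Gp := fun s hs hst =>
    ((heq s).mpr ⟨hs, fun z hz => mem_cut.mpr ⟨hst hz, hqi s hs hz⟩⟩).1
  have hGp : ∀ s ∈ G, s ⊆ tp → s ∈ Gp := by
    rintro s ((hs | hs) | ⟨j, rfl⟩) hst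
    · exact hs
    · exact F2 s hs hst
    · show cut Af j t ∈ Gp
      rw [Amal_cut_eq hpt j hst]
      exact hp.cut tp hp.top j
  have hGq : ∀ s ∈ G, s ⊆ tq → s ∈ Gq := by
    rintro s ((hs | hs) | ⟨j, rfl⟩) hst
    · exact F1 s hs ((Finset.coe_subset.mpr hst).trans hq)
    · exact hs
    · show cut Af j t ∈ Gq
      rw [Amal_cut_eq hqt j hst]
      exact hqc.cut tq hqc.top j
  have hle : ∀ s ∈ G, s ⊆ t := by
    rintro s ((hs | hs) | ⟨j, rfl⟩)
    · exact (hp.le s hs).trans hpt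
    · exact (hqc.le s hs).trans hqt
    · exact cut_sub Af j t
  have hfin : G.Finite := by
    refine (hp.fin.union hqc.fin).union ?_
    apply (Finset.finite_toSet t.powerset).subset
    rintro s ⟨j, rfl⟩
    exact Finset.mem_coe.mpr (Finset.mem_powerset.mpr (cut_sub Af j t))
  have hsub : G ⊆ 𝒦 := by
    rintro s ((hs | hs) | ⟨j, rfl⟩)
    · exact hp.sub hs
    · exact hqc.sub hs
    · exact hf.cut j t ht
  have htop : t ∈ G := by
    obtain ⟨j, hj⟩ := Amal_cov hf t (h.sub t ht)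
    have : cut Af j t = t := by
      apply Finset.Subset.antisymm (cut_sub Af j t)
      intro z hz
      exact mem_cut.mpr ⟨hz, hj hz⟩
    rw [← this]
    exact hcutG j
  have hpq : ∀ s ∈ Gp, ∀ s' ∈ Gq, s ∩ s' ∈ Gq := by
    intro s hs s' hs'
    have e : s ∩ s' = cut Af i s ∩ s' := by
      ext z
      simp only [Finset.mem_inter, mem_cut]
      constructor
      · rintro ⟨h1, h2⟩
        exact ⟨⟨h1, hqi s' hs' h2⟩, h2⟩
      · rintro ⟨⟨h1, _⟩, h2⟩
        exact ⟨h1, h2⟩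
    rw [e]
    apply hqc.inter _ _ _ hs'
    apply F1 _ (hp.cut s hs i)
    intro z hz
    exact (mem_cut.mp hz).2
  have hinter : ∀ a ∈ G, ∀ b ∈ G, a ∩ b ∈ G := by
    rintro a ((ha | ha) | ⟨j, rfl⟩) b ((hb | hb) | ⟨k, rfl⟩)
    · exact Or.inl (Or.inl (hp.inter a ha b hb))
    · exact Or.inl (Or.inr (hpq a ha b hb))
    · show a ∩ cut Af k t ∈ G
      rw [Amal_inter_cut ((hp.le a ha).trans hpt) k]
      exact Or.inl (Or.inl (hp.cut a ha k))
    · rw [Finset.inter_comm]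
      exact Or.inl (Or.inr (hpq b hb a ha))
    · exact Or.inl (Or.inr (hqc.inter a ha b hb))
    · show a ∩ cut Af k t ∈ G
      rw [Amal_inter_cut ((hqc.le a ha).trans hqt) k]
      exact Or.inl (Or.inr (hqc.cut a ha k))
    · show cut Af j t ∩ b ∈ G
      rw [Finset.inter_comm, Amal_inter_cut ((hp.le b hb).trans hpt) j]
      exact Or.inl (Or.inl (hp.cut b hb j))
    · show cut Af j t ∩ b ∈ G
      rw [Finset.inter_comm, Amal_inter_cut ((hqc.le b hb).trans hqt) j]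
      exact Or.inl (Or.inr (hqc.cut b hb j))
    · show cut Af j t ∩ cut Af k t ∈ G
      rw [Amal_inter_cut (cut_sub Af j t) k, Amal_cut_cut hf]
      exact hcutG _
  have hcut : ∀ s ∈ G, ∀ j, cut Af j s ∈ G := by
    rintro s ((hs | hs) | ⟨k, rfl⟩) j
    · exact Or.inl (Or.inl (hp.cut s hs j))
    · exact Or.inl (Or.inr (hqc.cut s hs j))
    · show cut Af j (cut Af k t) ∈ G
      rw [Amal_cut_cut hf]
      exact hcutG _
  have hchain : ∀ j k, cut Af j t ⊆ cut Af k t ∨ cut Af k t ⊆ cut Af j t := by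
    intro j k
    rcases le_total j k with hjk | hjk
    · left
      intro z hz
      rw [mem_cut] at hz ⊢
      exact ⟨hz.1, hf.mono hjk hz.2⟩
    · right
      intro z hz
      rw [mem_cut] at hz ⊢
      exact ⟨hz.1, hf.mono hjk hz.2⟩
  -- a lower cover contained in a set of `G` below `s` is equal to it
  have hcov : ∀ s u v, LowCov G s u → v ∈ G → u ⊆ v → v ⊂ s → u = v := by
    intro s u v hu hv huv hvs
    by_contra hne
    exact hu.2.2 v hv (lt_of_le_of_ne huv hne) hvs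
  -- sets `cut Af j t` outside `Gp`, `Gq`
  have key : ∀ j, cut Af j t ∉ Gp → cut Af j t ∉ Gq →
      (∃ a b, ∀ u, LowCov G (cut Af j t) u → u = a ∨ u = b) := by
    -- the three types
    have base : ∀ j, cut Af j t ∉ Gp → cut Af j t ∉ Gq →
        ∃ d, (∀ k, LowCov G (cut Af j t) (cut Af k t) → cut Af k t = d) ∧
          ∀ u, LowCov G (cut Af j t) u → u = cut Af j tp ∨ u = cut Af j tq ∨ u = d := by
      intro j hj1 hj2
      have ha : cut Af j tp ⊂ cut Af j t :=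
        lt_of_le_of_ne (Amal_cut_mono hpt j) (fun e => hj1 (e ▸ hp.cut tp hp.top j))
      have hb : cut Af j tq ⊂ cut Af j t :=
        lt_of_le_of_ne (Amal_cut_mono hqt j) (fun e => hj2 (e ▸ hqc.cut tq hqc.top j))
      have hd : ∃ d, ∀ k, LowCov G (cut Af j t) (cut Af k t) → cut Af k t = d := by
        by_cases hex : ∃ k, LowCov G (cut Af j t) (cut Af k t)
        · obtain ⟨k, hk⟩ := hex
          refine ⟨cut Af k t, fun k' hk' => ?_⟩
          rcases hchain k' k with hh | hh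
          · exact hcov _ _ _ hk' (hcutG k) hh hk.2.1
          · exact (hcov _ _ _ hk (hcutG k') hh hk'.2.1).symm
        · exact ⟨∅, fun k hk => absurd ⟨k, hk⟩ hex⟩
      obtain ⟨d, hd⟩ := hd
      refine ⟨d, hd, fun u hu => ?_⟩
      have hus : u ⊆ cut Af j t := hu.2.1.subset
      rcases hu.1 with (hup | huq) | ⟨k, rfl⟩
      · left
        apply hcov _ _ _ hu (Or.inl (Or.inl (hp.cut tp hp.top j))) _ ha
        intro z hz
        exact mem_cut.mpr ⟨hp.le u hup hz, (mem_cut.mp (hus hz)).2⟩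
      · right; left
        apply hcov _ _ _ hu (Or.inl (Or.inr (hqc.cut tq hqc.top j))) _ hb
        intro z hz
        exact mem_cut.mpr ⟨hqc.le u huq hz, (mem_cut.mp (hus hz)).2⟩
      · right; right
        exact hd k hu
    -- the case `j ≤ i`
    have low : ∀ j ≤ i, cut Af j t ∉ Gp → cut Af j t ∉ Gq →
        (∃ a b, ∀ u, LowCov G (cut Af j t) u → u = a ∨ u = b) := by
      intro j hji hj1 hj2
      obtain ⟨d, _, hd⟩ := base j hj1 hj2
      have hb : cut Af j tq ⊂ cut Af j t :=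
        lt_of_le_of_ne (Amal_cut_mono hqt j) (fun e => hj2 (e ▸ hqc.cut tq hqc.top j))
      have hab : cut Af j tp ⊆ cut Af j tq := by
        have h1 : cut Af j tp ∈ Gq := by
          apply F1 _ (hp.cut tp hp.top j)
          intro z hz
          exact hf.mono hji (mem_cut.mp hz).2
        intro z hz
        exact mem_cut.mpr ⟨hqc.le _ h1 hz, (mem_cut.mp hz).2⟩
      refine ⟨cut Af j tq, d, fun u hu => ?_⟩
      rcases hd u hu with e | e | e
      · left
        rw [e] at hu ⊢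
        exact hcov _ _ _ hu (Or.inl (Or.inr (hqc.cut tq hqc.top j))) hab hb
      · exact Or.inl e
      · exact Or.inr e
    intro j hj1 hj2
    rcases le_or_gt j i with hji | hji
    · exact low j hji hj1 hj2
    · by_cases hts : cut Af i t = cut Af j t
      · rw [← hts] at hj1 hj2 ⊢
        exact low i le_rfl hj1 hj2
      · obtain ⟨d, hd1, hd⟩ := base j hj1 hj2
        have hlt : cut Af i t ⊂ cut Af j t := by
          refine lt_of_le_of_ne ?_ hts
          intro z hz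
          rw [mem_cut] at hz ⊢
          exact ⟨hz.1, hf.mono hji.le hz.2⟩
        refine ⟨cut Af j tp, d, fun u hu => ?_⟩
        rcases hd u hu with e | e | e
        · exact Or.inl e
        · right
          have h1 : u = cut Af i t := by
            apply hcov _ _ _ hu (hcutG i) _ hlt
            rw [e]
            intro z hz
            have hz' := (mem_cut.mp hz).1
            exact mem_cut.mpr ⟨hqt hz', hq hz'⟩
          rw [h1] at hu ⊢
          exact hd1 i hu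
        · exact Or.inr e
  have htwo : Two G := by
    intro s hs
    by_cases hs1 : s ∈ Gp
    · obtain ⟨a, b, hab⟩ := hp.two s hs1
      refine ⟨a, b, fun u hu => hab u ⟨?_, hu.2.1, fun v hv => hu.2.2 v (Or.inl (Or.inl hv))⟩⟩
      exact hGp u hu.1 (hu.2.1.subset.trans (hp.le s hs1))
    by_cases hs2 : s ∈ Gq
    · obtain ⟨a, b, hab⟩ := hqc.two s hs2
      refine ⟨a, b, fun u hu => hab u ⟨?_, hu.2.1, fun v hv => hu.2.2 v (Or.inl (Or.inr hv))⟩⟩
      exact hGq u hu.1 (hu.2.1.subset.trans (hqc.le s hs2))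
    rcases hs with (hs | hs) | ⟨j, rfl⟩
    · exact absurd hs hs1
    · exact absurd hs hs2
    · exact key j hs1 hs2
  exact ⟨⟨(G, t), ⟨hfin, hsub, htop, hle, hinter, hcut, htwo⟩⟩,
    ⟨fun s hs => Or.inl (Or.inl hs), hGp⟩, ⟨fun s hs => Or.inl (Or.inr hs), hGq⟩, rfl⟩

theorem nonempty_cnd {A : Set Z} {𝒦 : Set (Finset Z)} {Af : W1 → Set Z} (h : Cofam A 𝒦) :
    ∃ q : Cnd 𝒦 Af, q.1.1 = {∅} ∧ q.1.2 = ∅ := by
  refine ⟨⟨({∅}, ∅), ⟨Set.finite_singleton _, ?_, rfl, ?_, ?_, ?_, ?_⟩⟩, rfl, rfl⟩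
  · rintro s rfl
    exact h.emp
  · rintro s rfl
    exact Finset.Subset.refl _
  · rintro a rfl b rfl
    exact Finset.inter_self _
  · rintro s rfl i
    exact Finset.subset_empty.mp (cut_sub Af i ∅)
  · rintro s rfl
    refine ⟨∅, ∅, fun u hu => Or.inl ?_⟩
    exact hu.1

theorem cnd_dense {A : Set Z} {𝒦 : Set (Finset Z)} {Af : W1 → Set Z} (h : Cofam A 𝒦)
    (hf : Filt A 𝒦 Af) (p : Cnd 𝒦 Af) {a : Z} (ha : a ∈ A) :
    ∃ r : Cnd 𝒦 Af, r ≤ p ∧ a ∈ r.1.2 := by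
  obtain ⟨q, hq1, hq2⟩ := nonempty_cnd (Af := Af) h
  obtain ⟨o, ho⟩ := exists_bot1
  have hAo : Af o = ∅ := hf.bot o ho
  have hcut0 : ∀ s, cut Af o s = ∅ := by
    intro s
    apply Finset.eq_empty_of_forall_notMem
    intro z hz
    have := (mem_cut.mp hz).2
    rw [hAo] at this
    exact this
  have hpA : (p.1.2 : Set Z) ⊆ A := h.sub _ (p.2.sub p.2.top)
  obtain ⟨t, ht, hpt⟩ := h.cof (insert a p.1.2) (by
    rw [Finset.coe_insert, Set.insert_subset_iff]
    exact ⟨ha, hpA⟩)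
  have hemp : (∅ : Finset Z) ∈ p.1.1 := by
    have := p.2.cut p.1.2 p.2.top o
    rwa [hcut0] at this
  obtain ⟨r, hr1, _, hr3⟩ := amal h hf p q o (by rw [hq2]; simp) (by
    intro s
    rw [hq1, hAo, hcut0]
    constructor
    · rintro ⟨_, h2⟩
      have : s = ∅ := by
        rw [← Finset.coe_eq_empty]
        exact Set.subset_empty_iff.mp h2
      subst this
      exact ⟨rfl, Finset.Subset.refl _⟩
    · rintro ⟨h1, _⟩
      rw [Set.mem_singleton_iff] at h1
      subst h1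
      exact ⟨hemp, by simp⟩) ht
    ((Finset.subset_insert _ _).trans hpt) (by rw [hq2]; exact Finset.empty_subset _)
  exact ⟨r, hr1, by rw [hr3]; exact hpt (Finset.mem_insert_self _ _)⟩

end Pool.Agent.EL
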