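import Pool.Agent.EL.Defs

set_option autoImplicit false

/-!
# Basic facts on `ω₁`, `ω₂` and closures
-/

namespace Pool.Agent.EL

open Cardinal Set

/-! ### The wellorder `W1` -/

lemma exists_bound_of_reg {c : Cardinal.{0}} (hc : c.IsRegular) {s : Set c.ord.ToType}
    (hs : #s < c) : ∃ b, ∀ a ∈ s, a < b := by
  by_contra hcon
  push Not at hcon
  have h1 : IsCofinal s := fun b => by
    obtain ⟨a, ha, hab⟩ := hcon b
    exact ⟨a, ha, hab⟩
  have h2 := Order.cof_le h1
  rw [Ordinal.cof_toType, hc.cof_ord] at h2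
  exact absurd hs (not_lt.mpr h2)

lemma isRegular_one : (ℵ_ 1 : Cardinal.{0}).IsRegular := isRegular_aleph_one

lemma isRegular_two : (ℵ_ 2 : Cardinal.{0}).IsRegular := by
  have h := isRegular_aleph_add_one (1 : Ordinal.{0})
  rwa [one_add_one_eq_two] at h

lemma aleph_two_eq : (ℵ_ 2 : Cardinal.{0}) = Order.succ (ℵ_ 1) := by
  rw [succ_aleph, one_add_one_eq_two]

lemma lt_aleph_two {c : Cardinal.{0}} : c < ℵ_ 2 ↔ c ≤ ℵ_ 1 := by
  rw [aleph_two_eq, Order.lt_succ_iff]

lemma mk_W1 : #W1 = ℵ_ 1 := by simp [W1]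

lemma mk_W2 : #W2 = ℵ_ 2 := by simp [W2]

lemma countable_Iio (i : W1) : (Iio i).Countable := by
  have h : #(Iio i) < ℵ_ 1 := by simpa using mk_Iio_lt i
  rw [← le_aleph0_iff_set_countable]
  rwa [lt_aleph_one_iff] at h

lemma countable_Iic (i : W1) : (Iic i).Countable := by
  rw [← Iio_insert]
  exact (countable_Iio i).insert i

/-- Countable subsets of `ω₁` are strictly bounded. -/
lemma bound1 {s : Set W1} (hs : s.Countable) : ∃ b, ∀ a ∈ s, a < b := by
  apply exists_bound_of_reg isRegular_one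
  rw [lt_aleph_one_iff]
  exact le_aleph0_iff_set_countable.mpr hs

lemma not_countable_W1 : ¬ (univ : Set W1).Countable := by
  intro h
  obtain ⟨b, hb⟩ := bound1 h
  exact lt_irrefl b (hb b trivial)

instance : Nonempty W1 := by
  obtain ⟨b, _⟩ := bound1 countable_empty
  exact ⟨b⟩

lemma exists_gt1 (α : W1) : ∃ β, α < β := by
  obtain ⟨b, hb⟩ := bound1 (countable_singleton α)
  exact ⟨b, hb α rfl⟩

/-- Countable subsets of `ω₁` have a least upper bound. -/
lemma lub1 {s : Set W1} (hs : s.Countable) :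
    ∃ i, (∀ a ∈ s, a ≤ i) ∧ ∀ j < i, ∃ a ∈ s, j < a := by
  obtain ⟨b, hb⟩ := bound1 hs
  let U : Set W1 := {i | ∀ a ∈ s, a ≤ i}
  have hU : U.Nonempty := ⟨b, fun a ha => (hb a ha).le⟩
  refine ⟨wellFounded_lt.min U hU, wellFounded_lt.min_mem U hU, fun j hj => ?_⟩
  by_contra hcon
  push Not at hcon
  exact wellFounded_lt.not_lt_min U hcon hj

/-- Every element of `ω₁` has an immediate successor. -/
lemma succ1 (α : W1) : ∃ β, α < β ∧ ∀ γ, α < γ → β ≤ γ := by
  have hne : (Ioi α).Nonempty := exists_gt1 α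
  exact ⟨wellFounded_lt.min _ hne, wellFounded_lt.min_mem _ hne, fun γ hγ => by
    by_contra h
    exact wellFounded_lt.not_lt_min _ hγ (not_le.mp h)⟩

/-- The least element of `ω₁`. -/
lemma exists_bot1 : ∃ o : W1, ∀ i, o ≤ i :=
  ⟨wellFounded_lt.min univ ⟨Classical.arbitrary W1, trivial⟩, fun i => by
    by_contra h
    exact wellFounded_lt.not_lt_min univ (mem_univ i) (not_le.mp h)⟩

/-- An initial segment which is countable is `Iio` of some point. -/
lemma seg1 {s : Set W1} (hs : s.Countable) (h : ∀ α ∈ s, ∀ β < α, β ∈ s) :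
    ∃ δ, ∀ α, α ∈ s ↔ α < δ := by
  obtain ⟨b, hb⟩ := bound1 hs
  have hne : (sᶜ).Nonempty := ⟨b, fun hb' => lt_irrefl b (hb b hb')⟩
  refine ⟨wellFounded_lt.min sᶜ hne, fun α => ⟨fun hα => ?_, fun hα => ?_⟩⟩
  · by_contra h1
    push Not at h1
    have h2 := wellFounded_lt.min_mem sᶜ hne
    rcases h1.eq_or_lt with h3 | h3
    · exact h2 (h3 ▸ hα)
    · exact h2 (h α hα _ h3)
  · by_contra h1
    exact wellFounded_lt.not_lt_min sᶜ h1 hα

/-- Closure points of `h : ω₁ → ω₁` are unbounded. -/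
lemma exists_clP (h : W1 → W1) (α : W1) : ∃ i, α < i ∧ ClP h i := by
  have hb : ∀ i : W1, ∃ b, i < b ∧ ∀ ξ ≤ i, h ξ < b := by
    intro i
    obtain ⟨b, hb⟩ := bound1 (s := insert i (h '' Iic i)) (((countable_Iic i).image h).insert i)
    exact ⟨b, hb i (mem_insert _ _), fun ξ hξ => hb _ (mem_insert_of_mem _ ⟨ξ, hξ, rfl⟩)⟩
  choose b hb1 hb2 using hb
  let s : ℕ → W1 := fun n => b^[n] (b α)
  have hs : ∀ n, s n < s (n + 1) := fun n => by
    have : s (n + 1) = b (s n) := Function.iterate_succ_apply' b n (b α)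
    rw [this]
    exact hb1 _
  obtain ⟨i, hi1, hi2⟩ := lub1 (countable_range s)
  have hsi : ∀ n, s n < i := fun n => lt_of_lt_of_le (hs n) (hi1 _ ⟨n + 1, rfl⟩)
  refine ⟨i, (hb1 α).trans (hsi 0), ⟨_, hsi 0⟩, fun ξ hξ => ?_⟩
  obtain ⟨_, ⟨n, rfl⟩, hn⟩ := hi2 ξ hξ
  have h1 : h ξ < b (s n) := hb2 _ _ hn.le
  have h2 : b (s n) = s (n + 1) := (Function.iterate_succ_apply' b n (b α)).symm
  rw [h2] at h1
  exact h1.trans (hsi _)

/-- The set of closure points is closed unbounded. -/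
lemma isClub_clP (h : W1 → W1) : IsClub {i | ClP h i} := by
  refine ⟨fun i => ?_, fun i hi hk => ⟨hi, fun ξ hξ => ?_⟩⟩
  · obtain ⟨j, h1, h2⟩ := exists_clP h i
    exact ⟨j, h2, h1⟩
  · obtain ⟨k, hk1, hk2, hk3⟩ := hk ξ hξ
    exact (hk1.2 ξ hk2).trans hk3

/-- A set is stationary iff it meets the closure points of each function. -/
lemma stationary_iff {T : Set W1} : Stationary T ↔ ∀ h : W1 → W1, ∃ i ∈ T, ClP h i := by
  constructor
  · intro hT h
    obtain ⟨i, hi1, hi2⟩ := hT _ (isClub_clP h)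
    exact ⟨i, hi1, hi2⟩
  · intro hT C hC
    choose h h1 h2 using hC.1
    obtain ⟨i, hi1, hi2, hi3⟩ := hT h
    exact ⟨i, hi1, hC.2 i hi2 fun j hj => ⟨h j, h1 j, h2 j, hi3 j hj⟩⟩

/-- End segments are stationary. -/
lemma stationary_Ici (j : W1) : Stationary {i | j ≤ i} := by
  rw [stationary_iff]
  intro h
  obtain ⟨i, hi, hi'⟩ := exists_clP h j
  exact ⟨i, hi.le, hi'⟩

/-- Pointwise upper bound for countably many functions. -/
lemma exists_sup_fun (h : ℕ → W1 → W1) : ∃ g : W1 → W1, ∀ n i, h n i < g i := by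
  have : ∀ i, ∃ b, ∀ n, h n i < b := by
    intro i
    obtain ⟨b, hb⟩ := bound1 (countable_range fun n => h n i)
    exact ⟨b, fun n => hb _ ⟨n, rfl⟩⟩
  choose g hg using this
  exact ⟨g, fun n i => hg i n⟩

lemma ClP.mono {h g : W1 → W1} (hgh : ∀ i, g i ≤ h i) {i : W1} (hi : ClP h i) : ClP g i :=
  ⟨hi.1, fun ξ hξ => (hgh ξ).trans_lt (hi.2 ξ hξ)⟩

/-! ### Sets of size at most `ℵ₁` -/

/-- A nonempty set of size `≤ ℵ₁` is the range of a function on `ω₁`. -/
lemma exists_enum1 {Z : Type} {s : Set Z} (hs : #s ≤ ℵ_ 1) (hne : s.Nonempty) :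
    ∃ φ : W1 → Z, range φ = s := by
  have h1 : #s ≤ #W1 := by rw [mk_W1]; exact hs
  obtain ⟨f⟩ := h1
  have : Nonempty s := hne.to_subtype
  refine ⟨fun i => (Function.invFun f i : s).1, ?_⟩
  ext z
  constructor
  · rintro ⟨i, rfl⟩
    exact (Function.invFun f i).2
  · intro hz
    refine ⟨f ⟨z, hz⟩, ?_⟩
    show (Function.invFun f (f ⟨z, hz⟩) : s).1 = z
    rw [Function.leftInverse_invFun f.injective]

lemma mk_range_le1 {Z : Type} (φ : W1 → Z) : #(range φ) ≤ ℵ_ 1 := by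
  rw [← mk_W1]; exact mk_range_le

lemma mk_countable_le1 {Z : Type} {s : Set Z} (hs : s.Countable) : #s ≤ ℵ_ 1 :=
  (le_aleph0_iff_set_countable.mpr hs).trans (aleph0_le_aleph 1)

lemma mk_iUnion_le1 {Z ι : Type} (hι : #ι ≤ ℵ_ 1) (s : ι → Set Z) (hs : ∀ i, #(s i) ≤ ℵ_ 1) :
    #(⋃ i, s i) ≤ ℵ_ 1 := by
  refine (mk_iUnion_le s).trans ?_
  calc #ι * ⨆ i, #(s i) ≤ ℵ_ 1 * ℵ_ 1 := mul_le_mul' hι (ciSup_le' hs)
    _ = ℵ_ 1 := mul_eq_self (aleph0_le_aleph 1)

lemma mk_union_le1 {Z : Type} {s t : Set Z} (hs : #s ≤ ℵ_ 1) (ht : #t ≤ ℵ_ 1) :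
    #(s ∪ t : Set Z) ≤ ℵ_ 1 :=
  (mk_union_le s t).trans ((add_le_add hs ht).trans (add_eq_self (aleph0_le_aleph 1)).le)

lemma mk_finset_le1 {Z : Type} (hZ : #Z ≤ ℵ_ 1) : #(Finset Z) ≤ ℵ_ 1 := by
  rcases finite_or_infinite Z with h | h
  · exact (mk_le_aleph0 (α := Finset Z)).trans (aleph0_le_aleph 1)
  · rw [mk_finset_of_infinite]; exact hZ

lemma mk_list_le1 {Z : Type} (hZ : #Z ≤ ℵ_ 1) : #(List Z) ≤ ℵ_ 1 :=
  (mk_list_le_max Z).trans (max_le (aleph0_le_aleph 1) hZ)

/-- The set of lists with entries in a set of size `≤ ℵ₁`. -/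
lemma mk_lists_le1 {Z : Type} {s : Set Z} (hs : #s ≤ ℵ_ 1) :
    #{l : List Z | ∀ y ∈ l, y ∈ s} ≤ ℵ_ 1 := by
  have h1 : {l : List Z | ∀ y ∈ l, y ∈ s} ⊆ range (List.map (Subtype.val : s → Z)) := by
    intro l hl
    refine ⟨l.attach.map fun y => ⟨y.1, hl y.1 y.2⟩, ?_⟩
    simp
  exact (mk_le_mk_of_subset h1).trans (mk_range_le.trans (mk_list_le1 hs))

lemma countable_lists {Z : Type} {s : Set Z} (hs : s.Countable) :
    {l : List Z | ∀ y ∈ l, y ∈ s}.Countable := by
  have h1 : {l : List Z | ∀ y ∈ l, y ∈ s} ⊆ range (List.map (Subtype.val : s → Z)) := by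
    intro l hl
    refine ⟨l.attach.map fun y => ⟨y.1, hl y.1 y.2⟩, ?_⟩
    simp
  have : Countable s := hs.to_subtype
  exact (countable_range _).mono h1

/-! ### Closures -/

section closure

variable {X : Type} {F : ℕ → List X → X}

lemma clo_cl (s : Set X) : Clo F {y | Cl F s y} := fun n l hl => Cl.app n l hl

lemma subset_cl (s : Set X) : s ⊆ {y | Cl F s y} := fun _ hy => Cl.base hy

lemma cl_le {s x : Set X} (hx : Clo F x) (hs : s ⊆ x) {y : X} (hy : Cl F s y) : y ∈ x := by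
  induction hy with
  | base h => exact hs h
  | app n l _ ih => exact hx n l ih

lemma cl_mono {s t : Set X} (hst : s ⊆ t) {y : X} (hy : Cl F s y) : Cl F t y :=
  cl_le (clo_cl t) (hst.trans (subset_cl t)) hy

/-- Continuity of the closure along a nonempty linearly ordered increasing family. -/
lemma cl_iUnion {ι : Type} [LinearOrder ι] [Nonempty ι] {s : ι → Set X} (hs : Monotone s) {y : X}
    (hy : Cl F (⋃ i, s i) y) : ∃ i, Cl F (s i) y := by
  induction hy with
  | base h =>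
    obtain ⟨i, hi⟩ := mem_iUnion.mp h
    exact ⟨i, Cl.base hi⟩
  | app n l _ ih =>
    have h1 : ∃ i, ∀ y ∈ l, Cl F (s i) y := by
      clear n
      induction l with
      | nil => exact ⟨Classical.arbitrary ι, by simp⟩
      | cons a l ihl =>
        rename_i hall
        obtain ⟨i, hi⟩ := ih a (List.mem_cons_self)
        obtain ⟨j, hj⟩ := ihl (fun y hy => hall y (List.mem_cons_of_mem _ hy))
          (fun y hy => ih y (List.mem_cons_of_mem _ hy))
        refine ⟨max i j, fun y hy => ?_⟩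
        rcases List.mem_cons.mp hy with rfl | hy
        · exact cl_mono (hs (le_max_left i j)) hi
        · exact cl_mono (hs (le_max_right i j)) (hj y hy)
    obtain ⟨i, hi⟩ := h1
    exact ⟨i, Cl.app n l hi⟩

/-- The closure of a countable set is countable. -/
lemma countable_cl {s : Set X} (hs : s.Countable) : {y | Cl F s y}.Countable := by
  classical
  let st : Set X → Set X := fun t => t ∪ ⋃ n : ℕ, (F n) '' {l | ∀ y ∈ l, y ∈ t}
  let x : ℕ → Set X := fun n => st^[n] s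
  have hx : ∀ n, x (n + 1) = st (x n) := fun n => Function.iterate_succ_apply' st n s
  have hmono : Monotone x := monotone_nat_of_le_succ fun n => by
    rw [hx]; exact subset_union_left
  have hcnt : ∀ n, (x n).Countable := by
    intro n
    induction n with
    | zero => exact hs
    | succ n ih =>
      rw [hx]
      exact ih.union (countable_iUnion fun m => (countable_lists ih).image _)
  have hclo : Clo F (⋃ n, x n) := by
    intro m l hl
    have h1 : ∃ n, ∀ y ∈ l, y ∈ x n := by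
      induction l with
      | nil => exact ⟨0, by simp⟩
      | cons a l ihl =>
        obtain ⟨i, hi⟩ := mem_iUnion.mp (hl a (List.mem_cons_self))
        obtain ⟨j, hj⟩ := ihl (fun y hy => hl y (List.mem_cons_of_mem _ hy))
        refine ⟨max i j, fun y hy => ?_⟩
        rcases List.mem_cons.mp hy with rfl | hy
        · exact hmono (le_max_left i j) hi
        · exact hmono (le_max_right i j) (hj y hy)
    obtain ⟨n, hn⟩ := h1
    refine mem_iUnion.mpr ⟨n + 1, ?_⟩
    rw [hx]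
    exact Or.inr (mem_iUnion.mpr ⟨m, l, hn, rfl⟩)
  refine (countable_iUnion hcnt).mono fun y hy => ?_
  exact cl_le hclo (subset_iUnion x 0) hy

end closure

end Pool.Agent.EL
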