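import Pool.Agent.EL.Basic

set_option autoImplicit false

/-!
# EL/Branch: a generic branch of a countable tree
-/

namespace Pool.Agent.EL

open Cardinal Set

private lemma exists_surj_nat : ∃ f : W1 → ℕ, Function.Surjective f := by
  have h1 : #ℕ ≤ #W1 := by
    rw [mk_W1, mk_nat]; exact aleph0_le_aleph 1
  obtain ⟨g⟩ := h1
  exact ⟨Function.invFun g, Function.invFun_surjective g.injective⟩

private abbrev BP {L : Type} (Y : Set (List L)) : Type := {s : List L // s ∈ Y}

/-- The order of the tree, end extensions are smaller. -/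
private abbrev bpo {L : Type} (Y : Set (List L)) : Preorder (BP Y) where
  le t s := s.1 <+: t.1
  le_refl s := List.prefix_refl _
  le_trans _ _ _ h1 h2 := h2.trans h1

theorem exists_branch (hMA : MA1) {L : Type} (Y : Set (List L)) (hY : Y.Countable)
    (h0 : [] ∈ Y) (hpre : ∀ s w, s ++ [w] ∈ Y → s ∈ Y) (Q : W1 → L → Prop)
    (hQ : ∀ s ∈ Y, ∀ j, ∃ w, s ++ [w] ∈ Y ∧ Q j w) :
    ∃ f : ℕ → L, (∀ n, (List.range n).map f ∈ Y) ∧ ∀ j, ∃ n, Q j (f n) := by
  classical
  obtain ⟨len, hlen⟩ := exists_surj_nat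
  have hne : Nonempty (BP Y) := ⟨⟨[], h0⟩⟩
  have hcount : Countable (BP Y) := hY.to_subtype
  letI : Preorder (BP Y) := bpo Y
  have hccc : CCC (BP Y) := fun A _ => A.to_countable
  -- prefixes of elements of `Y`
  have hpre' : ∀ t s : List L, s ++ t ∈ Y → s ∈ Y := by
    intro t
    induction t using List.reverseRecOn with
    | nil => intro s hs; simpa using hs
    | append_singleton t a ih =>
      intro s hs
      rw [← List.append_assoc] at hs
      exact ih s (hpre _ _ hs)
  -- long extensions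
  have hlong : ∀ (n : ℕ) (s : BP Y), ∃ t : BP Y, s.1 <+: t.1 ∧ n ≤ t.1.length := by
    intro n
    induction n with
    | zero => exact fun s => ⟨s, List.prefix_refl _, Nat.zero_le _⟩
    | succ n ih =>
      intro s
      obtain ⟨t, ht1, ht2⟩ := ih s
      obtain ⟨w, hw, -⟩ := hQ t.1 t.2 (Classical.arbitrary W1)
      refine ⟨⟨t.1 ++ [w], hw⟩, ?_, ?_⟩
      · exact ht1.trans (List.prefix_append _ _)
      · simp only [List.length_append, List.length_singleton]; omega
  obtain ⟨G, hG⟩ := hMA (BP Y) hccc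
    (fun j => {s | (∃ w ∈ s.1, Q j w) ∧ len j ≤ s.1.length}) (by
      intro j s
      obtain ⟨w, hw, hQw⟩ := hQ s.1 s.2 j
      obtain ⟨t, ht1, ht2⟩ := hlong (len j) ⟨s.1 ++ [w], hw⟩
      refine ⟨t, ⟨⟨w, ?_, hQw⟩, ht2⟩, ?_⟩
      · exact ht1.subset (by simp)
      · exact (List.prefix_append s.1 [w]).trans ht1)
  have hdir : ∀ s ∈ G, ∀ t ∈ G, ∃ r ∈ G, s.1 <+: r.1 ∧ t.1 <+: r.1 := by
    intro s hs t ht
    obtain ⟨r, hr, h1, h2⟩ := G.directed s hs t ht
    exact ⟨r, hr, h1, h2⟩
  have hlen' : ∀ n, ∃ s ∈ G, n < s.1.length := by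
    intro n
    obtain ⟨j, hj⟩ := hlen (n + 1)
    obtain ⟨s, hs, -, hs2⟩ := hG j
    exact ⟨s, hs, by omega⟩
  choose sq hsq hsq2 using hlen'
  let f : ℕ → L := fun n => (sq n).1[n]'(hsq2 n)
  have hf : ∀ s ∈ G, ∀ n (hn : n < s.1.length), s.1[n] = f n := by
    intro s hs n hn
    obtain ⟨r, -, h1, h2⟩ := hdir s hs (sq n) (hsq n)
    have e1 : s.1[n] = r.1[n]'(hn.trans_le h1.length_le) := h1.getElem hn
    have e2 : (sq n).1[n]'(hsq2 n) = r.1[n]'((hsq2 n).trans_le h2.length_le) :=
      h2.getElem (hsq2 n)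
    rw [e1]; exact e2.symm
  refine ⟨f, fun n => ?_, fun j => ?_⟩
  · have h1 : (List.range n).map f = (sq n).1.take n := by
      apply List.ext_getElem
      · simp only [List.length_map, List.length_range, List.length_take]
        have := hsq2 n
        omega
      · intro i hi1 hi2
        simp only [List.getElem_map, List.getElem_range, List.getElem_take]
        exact (hf (sq n) (hsq n) i _).symm
    rw [h1]
    apply hpre' ((sq n).1.drop n)
    rw [List.take_append_drop]
    exact (sq n).2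
  · obtain ⟨s, hs, ⟨w, hw, hQw⟩, -⟩ := hG j
    obtain ⟨n, hn, hnw⟩ := List.mem_iff_getElem.mp hw
    refine ⟨n, ?_⟩
    rw [← hf s hs n hn, hnw]
    exact hQw

end Pool.Agent.EL
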