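import Pool.Agent.EL.Amal

set_option autoImplicit false

/-!
# EL/CCnd: the poset of conditions is ccc

Let `𝒜` be an uncountable set of conditions (suppose it is pairwise incompatible).
For a finite family `R` of finite sets and a finite set `n` call `q ∈ 𝒜` a witness for `(R, n)` if
`∀ s, s ∈ R ↔ s ∈ q.1.1 ∧ s ⊆ n`.  For each `(R, n)` having a witness choose one, `wit R n`, and
let `j R n` be such that the top of the witness is contained in `Af (j R n)` (a finite subset of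
`A`).  For `ξ : W1` the set of pairs `(R, n)` of a finite family `R` of finite subsets of `Af ξ` and
a finite `n ⊆ Af ξ` is countable; let `g ξ` be a strict upper bound of all `j R n` for these pairs.
Let `i` be nonminimal and closed under `g` and a limit (`exists_clP` for `max g (successor)`,
or a function `≥ g` and `> id`).  If `(R, n)` has a witness and all sets of `R` and `n` are
`⊆ Af i`, then by continuity and finiteness they are `⊆ Af ξ` for some `ξ < i`, so the top of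
`wit R n` is contained in `Af (j R n) ⊆ Af i`.
The set of conditions with top `⊆ Af i` is countable (finite families of finite subsets of the
countable set `Af i`), so there is `p ∈ 𝒜` whose top is not `⊆ Af i`.  Let `n = cut Af i p.1.2` and
`R = {s ∈ p.1.1 | s ⊆ n}` (finite).  `p` is a witness for `(R, n)`, so `q = wit R n` exists,
`q ∈ 𝒜`, the top of `q` is `⊆ Af i`, so `q ≠ p`.  `amal` applies:
`s ∈ p.1.1 ∧ s ⊆ Af i ↔ s ∈ p.1.1 ∧ s ⊆ n ↔ s ∈ R ↔ s ∈ q.1.1 ∧ s ⊆ n`; `t ∈ 𝒦` with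
`p.1.2 ∪ q.1.2 ⊆ t` by `h.cof`.  So `p` and `q` are compatible.
-/

namespace Pool.Agent.EL

open Cardinal Set

variable {Z : Type} [DecidableEq Z]

omit [DecidableEq Z] in
private theorem CCnd_fin {B : Set Z} (hB : B.Countable) :
    {s : Finset Z | (s : Set Z) ⊆ B}.Countable := by
  have h1 := Set.countable_ofPred_finite_subset hB
  have h2 := h1.preimage (f := fun s : Finset Z => (s : Set Z)) Finset.coe_injective
  refine h2.mono fun s hs => ?_
  exact ⟨s.finite_toSet, hs⟩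

private theorem CCnd_lim {A : Set Z} {𝒦 : Set (Finset Z)} {Af : W1 → Set Z}
    (hf : Filt A 𝒦 Af) {i : W1} (hi : IsLim i) (u : Finset Z) :
    (u : Set Z) ⊆ Af i → ∃ j < i, (u : Set Z) ⊆ Af j := by
  induction u using Finset.induction_on with
  | empty =>
    intro _
    obtain ⟨j, hj⟩ := hi.1
    exact ⟨j, hj, by simp⟩
  | insert a u _ ih =>
    intro hu
    rw [Finset.coe_insert, Set.insert_subset_iff] at hu
    obtain ⟨j, hji, hj⟩ := ih hu.2
    have ha := hf.cont i hi hu.1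
    rw [Set.mem_iUnion₂] at ha
    obtain ⟨k, hk, hak⟩ := ha
    refine ⟨max j k, max_lt hji hk, ?_⟩
    rw [Finset.coe_insert, Set.insert_subset_iff]
    exact ⟨hf.mono (le_max_right j k) hak, hj.trans (hf.mono (le_max_left j k))⟩

theorem cnd_ccc {A : Set Z} {𝒦 : Set (Finset Z)} {Af : W1 → Set Z} (h : Cofam A 𝒦)
    (hf : Filt A 𝒦 Af) : CCC (Cnd 𝒦 Af) := by
  intro 𝒜 h𝒜
  by_contra hunc
  have hne : 𝒜.Nonempty := by
    rw [Set.nonempty_iff_ne_empty]
    rintro rfl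
    exact hunc Set.countable_empty
  obtain ⟨q0, hq0⟩ := hne
  have hJ : ∀ q : Cnd 𝒦 Af, ∃ j, (q.1.2 : Set Z) ⊆ Af j := fun q =>
    Amal_cov hf _ (h.sub _ (q.2.sub q.2.top))
  choose J hJ using hJ
  have hW : ∀ (R : Set (Finset Z)) (n : Finset Z), ∃ w : Cnd 𝒦 Af, w ∈ 𝒜 ∧
      ((∃ q ∈ 𝒜, ∀ s, s ∈ R ↔ s ∈ q.1.1 ∧ s ⊆ n) → ∀ s, s ∈ R ↔ s ∈ w.1.1 ∧ s ⊆ n) := by
    intro R n
    by_cases hex : ∃ q ∈ 𝒜, ∀ s, s ∈ R ↔ s ∈ q.1.1 ∧ s ⊆ n
    · obtain ⟨q, hq, hq'⟩ := hex
      exact ⟨q, hq, fun _ => hq'⟩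
    · exact ⟨q0, hq0, fun h' => absurd h' hex⟩
  choose W hW1 hW2 using hW
  have hg : ∀ ξ : W1, ∃ b : W1, ξ < b ∧ ∀ (R : Set (Finset Z)) (n : Finset Z), R.Finite →
      (∀ s ∈ R, (s : Set Z) ⊆ Af ξ) → (n : Set Z) ⊆ Af ξ → J (W R n) < b := by
    intro ξ
    have hF := CCnd_fin (hf.cnt ξ)
    have hP := (Set.countable_ofPred_finite_subset hF).prod hF
    have hI := (hP.image (fun x => J (W x.1 x.2))).insert ξ
    obtain ⟨b, hb⟩ := bound1 hI
    refine ⟨b, hb ξ (Set.mem_insert _ _), fun R n hR hRs hn => ?_⟩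
    apply hb
    apply Set.mem_insert_of_mem
    exact ⟨(R, n), ⟨⟨hR, fun s hs => hRs s hs⟩, hn⟩, rfl⟩
  choose g hg1 hg2 using hg
  obtain ⟨i, _, hi⟩ := exists_clP g (Classical.arbitrary W1)
  have hlim : IsLim i := ⟨hi.1, fun j hj => ⟨g j, hg1 j, hi.2 j hj⟩⟩
  -- a condition with top not contained in `Af i`
  have hp : ∃ p ∈ 𝒜, ¬ (p.1.2 : Set Z) ⊆ Af i := by
    by_contra hcon
    push Not at hcon
    apply hunc
    have hF := CCnd_fin (hf.cnt i)
    have hP := (Set.countable_ofPred_finite_subset hF).prod hF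
    have hP' := hP.preimage (f := fun q : Cnd 𝒦 Af => q.1) Subtype.val_injective
    refine hP'.mono fun q hq => ?_
    refine ⟨⟨q.2.fin, fun s hs => ?_⟩, hcon q hq⟩
    exact (Finset.coe_subset.mpr (q.2.le s hs)).trans (hcon q hq)
  obtain ⟨p, hp, hpi⟩ := hp
  set n : Finset Z := cut Af i p.1.2 with hn
  set R : Set (Finset Z) := {s | s ∈ p.1.1 ∧ s ⊆ n} with hR
  have hwq := hW2 R n ⟨p, hp, fun s => Iff.rfl⟩
  have hqA := hW1 R n
  have hni : (n : Set Z) ⊆ Af i := fun z hz => (mem_cut.mp hz).2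
  obtain ⟨ξ, hξ, hnξ⟩ := CCnd_lim hf hlim n hni
  have hJq : J (W R n) < g ξ := by
    apply hg2 ξ R n
    · exact p.2.fin.subset fun s hs => hs.1
    · intro s hs
      exact (Finset.coe_subset.mpr hs.2).trans hnξ
    · exact hnξ
  have hqi : ((W R n).1.2 : Set Z) ⊆ Af i :=
    (hJ _).trans (hf.mono (hJq.trans (hi.2 ξ hξ)).le)
  have hpq : p ≠ W R n := by
    intro e
    rw [← e] at hqi
    exact hpi hqi
  obtain ⟨t, ht, hsub⟩ := h.cof (p.1.2 ∪ (W R n).1.2) (by
    rw [Finset.coe_union]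
    exact Set.union_subset (h.sub _ (p.2.sub p.2.top)) (h.sub _ ((W R n).2.sub (W R n).2.top)))
  obtain ⟨r, hr1, hr2, _⟩ := amal h hf p (W R n) i hqi (by
    intro s
    rw [← hn, ← hwq s]
    constructor
    · rintro ⟨h1, h2⟩
      exact ⟨h1, fun z hz => mem_cut.mpr ⟨p.2.le s h1 hz, h2 hz⟩⟩
    · rintro ⟨h1, h2⟩
      exact ⟨h1, (Finset.coe_subset.mpr h2).trans hni⟩) ht
    (Finset.subset_union_left.trans hsub) (Finset.subset_union_right.trans hsub)
  exact h𝒜 p hp _ hqA hpq ⟨r, hr1, hr2⟩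

end Pool.Agent.EL
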