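import Pool.Agent.EL.Basic

set_option autoImplicit false

/-!
# EL/CccStat: ccc posets preserve stationary sets, so MM implies `MA(ℵ₁)`

Proof of `statPreserving_of_ccc`.  Let `T` be stationary, `R` a name, `p : P`.  For each `ξ` let
`A ξ` be a maximal pairwise incompatible subset of `E ξ = {s | ∃ η, R ξ s η}` (Zorn:
e.g. `zorn_subset` for subsets of `E ξ` which are pairwise incompatible).  `A ξ` is countable by
ccc; choose `η ξ s` with `R ξ s (η ξ s)` for `s ∈ A ξ`, and `h ξ` a strict upper bound of the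
countable set of all `η ξ s`, `s ∈ A ξ` (`bound1`).  By `stationary_iff` there is `i ∈ T` with
`ClP h i`.  Take `q = p`.  Given `ξ < i`, `r ≤ p`: by density there are `r' ≤ r` and `η'` with
`R ξ r' η'`; by maximality `r'` is compatible with some `a ∈ A ξ` (or is equal to one), say
`s ≤ r', a`.  Then `R ξ s (η ξ a)` by `mono` and `η ξ a < h ξ < i`.
-/

namespace Pool.Agent.EL

open Cardinal Set

/-- Pairwise incompatible sets. -/
private def CccStat_Inc {P : Type} [Preorder P] (A : Set P) : Prop :=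
  ∀ p ∈ A, ∀ q ∈ A, p ≠ q → ¬ ∃ r, r ≤ p ∧ r ≤ q

private lemma CccStat_max {P : Type} [Preorder P] (E : Set P) :
    ∃ A : Set P, A ⊆ E ∧ CccStat_Inc A ∧ ∀ r ∈ E, ∃ a ∈ A, ∃ s, s ≤ r ∧ s ≤ a := by
  obtain ⟨A, hA⟩ := zorn_subset {A : Set P | A ⊆ E ∧ CccStat_Inc A} (by
    intro c hc hchain
    refine ⟨⋃₀ c, ⟨fun x hx => ?_, fun p hp q hq hpq => ?_⟩, fun s hs => subset_sUnion_of_mem hs⟩
    · obtain ⟨t, ht, hxt⟩ := hx
      exact (hc ht).1 hxt
    · obtain ⟨t, ht, hpt⟩ := hp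
      obtain ⟨u, hu, hqu⟩ := hq
      rcases hchain.total ht hu with h | h
      · exact (hc hu).2 p (h hpt) q hqu hpq
      · exact (hc ht).2 p hpt q (h hqu) hpq)
  refine ⟨A, hA.prop.1, hA.prop.2, fun r hr => ?_⟩
  by_contra hcon
  push Not at hcon
  have hrA : r ∉ A := fun h => hcon r h r le_rfl le_rfl
  have hins : insert r A ∈ {A : Set P | A ⊆ E ∧ CccStat_Inc A} := by
    refine ⟨insert_subset hr hA.prop.1, fun p hp q hq hpq => ?_⟩
    rintro ⟨s, hsp, hsq⟩
    rcases hp with rfl | hp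
    · rcases hq with rfl | hq
      · exact hpq rfl
      · exact hcon q hq s hsp hsq
    · rcases hq with rfl | hq
      · exact hcon p hp s hsq hsp
      · exact hA.prop.2 p hp q hq hpq ⟨s, hsp, hsq⟩
  have h1 := hA.le_of_ge hins (subset_insert r A)
  exact hrA (h1 (mem_insert r A))

theorem statPreserving_of_ccc {P : Type} [Preorder P] (hP : CCC P) : StatPreserving P := by
  classical
  intro T hT R hR p
  have key : ∀ ξ : W1, ∃ b : W1, ∀ r : P, ∃ s ≤ r, ∃ η < b, R ξ s η := by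
    intro ξ
    obtain ⟨A, hAE, hinc, hmax⟩ := CccStat_max {s : P | ∃ η, R ξ s η}
    have hcnt : A.Countable := hP A hinc
    have hch : ∀ s : P, ∃ η, s ∈ A → R ξ s η := by
      intro s
      by_cases hs : s ∈ A
      · obtain ⟨η, hη⟩ := hAE hs
        exact ⟨η, fun _ => hη⟩
      · exact ⟨Classical.arbitrary W1, fun h => absurd h hs⟩
    choose η hη using hch
    obtain ⟨b, hb⟩ := bound1 (hcnt.image η)
    refine ⟨b, fun r => ?_⟩
    obtain ⟨r', hr', η', hη'⟩ := hR.dense ξ r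
    obtain ⟨a, ha, s, hs1, hs2⟩ := hmax r' ⟨η', hη'⟩
    exact ⟨s, hs1.trans hr', η a, hb _ (mem_image_of_mem η ha), hR.mono ξ a s (η a) hs2 (hη a ha)⟩
  choose h hh using key
  obtain ⟨i, hi, hcl⟩ := stationary_iff.mp hT h
  refine ⟨p, le_rfl, i, hi, hcl.1, fun ξ hξ r _ => ?_⟩
  obtain ⟨s, hs, η, hη, hR'⟩ := hh ξ r
  exact ⟨s, hs, η, hη.trans (hcl.2 ξ hξ), hR'⟩

theorem ma1_of_mm (h : MartinsMaximum) : MA1 :=
  fun P _ _ hP D hD => h P (statPreserving_of_ccc hP) D hD

end Pool.Agent.EL
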