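import Mathlib

set_option autoImplicit false

/-!
# Ladders and Martin's Maximum: definitions

Problem MP_8c47b5_lc.  Everything lives in `Type` (universe 0).
-/

namespace Pool.Agent.EL

open Cardinal Set

/-- The wellordered set of order type `ω₁`. -/
abbrev W1 : Type := (ℵ_ 1 : Cardinal.{0}).ord.ToType

/-- The wellordered set of order type `ω₂`. -/
abbrev W2 : Type := (ℵ_ 2 : Cardinal.{0}).ord.ToType

/-! ### Ladders -/

/-- A join-semilattice is `J₃`-free if there is no join-embedding of `J₃`, that is, there are no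
pairwise different `x 0, x 1, x 2` and a further element `t` with `x i ⊔ x j = t` for `i ≠ j`. -/
def J3Free (L : Type) [SemilatticeSup L] : Prop :=
  ¬ ∃ (x : Fin 3 → L) (t : L), Function.Injective x ∧ (∀ i, x i ≠ t) ∧ ∀ i j, i ≠ j → x i ⊔ x j = t

/-- Statement `A`: there is a `(2, ℵ₁)`-ladder of cardinality `ℵ₂`: a lattice which is `J₃`-free
and all of whose principal ideals are of cardinality `< ℵ₁`. -/
def LadderA : Prop :=
  ∃ (L : Type) (_ : Lattice L), #L = ℵ_ 2 ∧ J3Free L ∧ ∀ p : L, #(Iic p) < ℵ_ 1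

/-- Statement `B`: there is a `3`-ladder of cardinality `ℵ₂`: a lattice in which every principal
ideal is finite and every element has at most three lower covers. -/
def LadderB : Prop :=
  ∃ (L : Type) (_ : Lattice L), #L = ℵ_ 2 ∧ (∀ p : L, (Iic p).Finite) ∧
    ∀ p : L, {q : L | q ⋖ p}.encard ≤ 3

/-! ### Closed unbounded and stationary subsets of `ω₁` -/

/-- `C` is closed and unbounded in `ω₁`. -/
def IsClub (C : Set W1) : Prop :=
  (∀ i, ∃ j ∈ C, i < j) ∧
    ∀ i, (∃ j, j < i) → (∀ j < i, ∃ k ∈ C, j < k ∧ k < i) → i ∈ C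

/-- `T` is a stationary subset of `ω₁`: it meets all closed unbounded sets. -/
def Stationary (T : Set W1) : Prop := ∀ C, IsClub C → (T ∩ C).Nonempty

/-- `i` is a nonzero ordinal closed under `h : ω₁ → ω₁`. -/
def ClP (h : W1 → W1) (i : W1) : Prop := (∃ j, j < i) ∧ ∀ ξ < i, h ξ < i

/-! ### Forcing -/

/-- `R ξ p η` (read: `p` forces `ḣ(ξ) = η`) is a name for a function `ḣ : ω₁ → ω₁` in the forcing
extension by `P` (stronger conditions are smaller). -/
structure IsName (P : Type) [Preorder P] (R : W1 → P → W1 → Prop) : Prop where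
  mono : ∀ ξ p q η, q ≤ p → R ξ p η → R ξ q η
  dense : ∀ ξ p, ∃ q ≤ p, ∃ η, R ξ q η
  unique : ∀ ξ p η η', R ξ p η → R ξ p η' → η = η'

/-- `P` preserves stationary subsets of `ω₁`: for every stationary `T ⊆ ω₁` and every name `ḣ` of a
function `ω₁ → ω₁`, the set of conditions which force some nonzero `i ∈ T` to be closed under `ḣ`
is dense.  (The nonzero ordinals closed under a function form a closed unbounded set, and every
closed unbounded set contains such a set.) -/
def StatPreserving (P : Type) [Preorder P] : Prop :=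
  ∀ T : Set W1, Stationary T → ∀ R : W1 → P → W1 → Prop, IsName P R →
    ∀ p : P, ∃ q ≤ p, ∃ i ∈ T, (∃ j, j < i) ∧ ∀ ξ < i, ∀ r ≤ q, ∃ s ≤ r, ∃ η < i, R ξ s η

/-- Martin's Maximum: for every nonempty poset which preserves stationary subsets of `ω₁` and every
family of `ℵ₁` dense sets there is a filter meeting all of them. -/
def MartinsMaximum : Prop :=
  ∀ (P : Type) [Preorder P] [Nonempty P], StatPreserving P →
    ∀ D : W1 → Set P, (∀ i p, ∃ q ∈ D i, q ≤ p) →
      ∃ G : Order.PFilter P, ∀ i, ∃ p ∈ G, p ∈ D i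

/-! ### Auxiliary notions for the proof -/

/-- The countable chain condition. -/
def CCC (P : Type) [Preorder P] : Prop :=
  ∀ 𝒜 : Set P, (∀ p ∈ 𝒜, ∀ q ∈ 𝒜, p ≠ q → ¬ ∃ r, r ≤ p ∧ r ≤ q) → 𝒜.Countable

/-- Martin's axiom for `ℵ₁` dense sets. -/
def MA1 : Prop :=
  ∀ (P : Type) [Preorder P] [Nonempty P], CCC P →
    ∀ D : W1 → Set P, (∀ i p, ∃ q ∈ D i, q ≤ p) →
      ∃ G : Order.PFilter P, ∀ i, ∃ p ∈ G, p ∈ D i

/-- `i` is a limit point of `ω₁`. -/
def IsLim (i : W1) : Prop := (∃ j, j < i) ∧ ∀ j < i, ∃ k, j < k ∧ k < i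

/-- `x` is closed under the countably many finitary functions `F n`. -/
def Clo {X : Type} (F : ℕ → List X → X) (x : Set X) : Prop := ∀ n l, (∀ y ∈ l, y ∈ x) → F n l ∈ x

/-- The closure of `s` under the functions `F n`. -/
inductive Cl {X : Type} (F : ℕ → List X → X) (s : Set X) : X → Prop
  | base {y : X} : y ∈ s → Cl F s y
  | app (n : ℕ) (l : List X) : (∀ y ∈ l, Cl F s y) → Cl F s (F n l)

/-- The trace of `x` on the sequence `c` is the initial segment `i`. -/
def Trace {X : Type} (c : W1 → X) (x : Set X) (i : W1) : Prop := ∀ ξ, c ξ ∈ x ↔ ξ < i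

/-- `S` is a projectively stationary set of countable subsets of `X` (`c` gives a copy of `ω₁`
in `X`). -/
def ProjStat {X : Type} (c : W1 → X) (S : Set (Set X)) : Prop :=
  ∀ T, Stationary T → ∀ F : ℕ → List X → X, ∃ x ∈ S, x.Countable ∧ Clo F x ∧ ∃ i ∈ T, Trace c x i

/-- The strong reflection principle for `S`: there is a continuous chain of length `ω₁` of
elements of `S` whose union contains the range of `c`. -/
def Reflects {X : Type} (c : W1 → X) (S : Set (Set X)) : Prop :=
  ∃ x : W1 → Set X, Monotone x ∧ (∀ i, x i ∈ S) ∧ (∀ i, IsLim i → x i ⊆ ⋃ j ∈ Iio i, x j) ∧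
    ∀ ξ, ∃ i, c ξ ∈ x i

end Pool.Agent.EL
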