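import Pool.Agent.EL.Basic

set_option autoImplicit false

/-!
# EL/FDefs: families of finite sets with few lower covers
-/

namespace Pool.Agent.EL

open Cardinal Set

variable {Z : Type} [DecidableEq Z]

/-- `t` is a lower cover of `s` in the family `F` (ordered by inclusion). -/
def LowCov (F : Set (Finset Z)) (s t : Finset Z) : Prop :=
  t ∈ F ∧ t ⊂ s ∧ ∀ u ∈ F, t ⊂ u → ¬ u ⊂ s

/-- Every element of `F` has at most two lower covers in `F`. -/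
def Two (F : Set (Finset Z)) : Prop := ∀ s ∈ F, ∃ a b, ∀ t, LowCov F s t → t = a ∨ t = b

/-- `𝒦` is an intersection-closed family of finite subsets of `A`, containing `∅`, and cofinal in
the family of all finite subsets of `A`. -/
structure Cofam (A : Set Z) (𝒦 : Set (Finset Z)) : Prop where
  sub : ∀ c ∈ 𝒦, (c : Set Z) ⊆ A
  emp : ∅ ∈ 𝒦
  inter : ∀ a ∈ 𝒦, ∀ b ∈ 𝒦, a ∩ b ∈ 𝒦
  cof : ∀ u : Finset Z, (u : Set Z) ⊆ A → ∃ c ∈ 𝒦, u ⊆ c

open Classical in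
/-- `s ∩ A i`. -/
noncomputable def cut (A : W1 → Set Z) (i : W1) (s : Finset Z) : Finset Z :=
  s.filter fun z => z ∈ A i

lemma mem_cut {A : W1 → Set Z} {i : W1} {s : Finset Z} {z : Z} :
    z ∈ cut A i s ↔ z ∈ s ∧ z ∈ A i := by
  simp [cut]

lemma cut_sub (A : W1 → Set Z) (i : W1) (s : Finset Z) : cut A i s ⊆ s := by
  intro z hz
  exact (mem_cut.mp hz).1

/-- A filtration of `A` by countable sets compatible with `𝒦`. -/
structure Filt (A : Set Z) (𝒦 : Set (Finset Z)) (Af : W1 → Set Z) : Prop where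
  bot : ∀ i, (∀ j, i ≤ j) → Af i = ∅
  mono : Monotone Af
  cnt : ∀ i, (Af i).Countable
  sub : ∀ i, Af i ⊆ A
  cov : ∀ z ∈ A, ∃ i, z ∈ Af i
  cont : ∀ i, IsLim i → Af i ⊆ ⋃ j ∈ Iio i, Af j
  cut : ∀ i, ∀ c ∈ 𝒦, cut Af i c ∈ 𝒦

/-- Conditions: finite intersection-closed families `G ⊆ 𝒦` with a largest element `t`, closed
under `s ↦ s ∩ Af i`, in which every element has at most two lower covers. -/
structure IsCond (𝒦 : Set (Finset Z)) (Af : W1 → Set Z) (G : Set (Finset Z)) (t : Finset Z) :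
    Prop where
  fin : G.Finite
  sub : G ⊆ 𝒦
  top : t ∈ G
  le : ∀ s ∈ G, s ⊆ t
  inter : ∀ a ∈ G, ∀ b ∈ G, a ∩ b ∈ G
  cut : ∀ s ∈ G, ∀ i, cut Af i s ∈ G
  two : Two G

/-- The poset of conditions. -/
def Cnd (𝒦 : Set (Finset Z)) (Af : W1 → Set Z) : Type :=
  {p : Set (Finset Z) × Finset Z // IsCond 𝒦 Af p.1 p.2}

instance (𝒦 : Set (Finset Z)) (Af : W1 → Set Z) : Preorder (Cnd 𝒦 Af) where
  le q p := p.1.1 ⊆ q.1.1 ∧ ∀ s ∈ q.1.1, s ⊆ p.1.2 → s ∈ p.1.1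
  le_refl p := ⟨subset_rfl, fun _ hs _ => hs⟩
  le_trans r q p hrq hqp := ⟨hqp.1.trans hrq.1, fun s hs hsp => hqp.2 s
    (hrq.2 s hs (hsp.trans (q.2.le _ (hqp.1 p.2.top)))) hsp⟩

lemma cnd_le {𝒦 : Set (Finset Z)} {Af : W1 → Set Z} {q p : Cnd 𝒦 Af} :
    q ≤ p ↔ p.1.1 ⊆ q.1.1 ∧ ∀ s ∈ q.1.1, s ⊆ p.1.2 → s ∈ p.1.1 := Iff.rfl

end Pool.Agent.EL
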