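import Pool.Agent.EL.FDefs

set_option autoImplicit false

/-!
# EL/Filtr: the hull operator of a cofinal family and the filtration

`exists_hull`: for finite `u ⊆ A` choose `c ∈ 𝒦`, `u ⊆ c`, with `c.card` minimal; for `c' ∈ 𝒦`
with `u ⊆ c'` the set `c ∩ c' ∈ 𝒦` contains `u`, so by minimality `c ∩ c' = c`, `c ⊆ c'`.

`exists_filt`: if `A = ∅` take `Af i = ∅` (then `cut Af i c = ∅`).  Otherwise let `φ : W1 → Z`
have range `A` (`exists_enum1`), let `cl u` be the hull of `u` for finite `u ⊆ A`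
(choice; `cl` is monotone, `u ⊆ cl u`, `cl ∅ = ∅` by `emp`, `cl u ∈ 𝒦`), and put
`Af i = {z | ∃ u : Finset W1, (∀ j ∈ u, j < i) ∧ z ∈ cl (u.image φ)}`.
* `bot`: only `u = ∅`.  `mono`: clear.  `cnt`: a countable union (finite subsets of the countable set
  `Iio i`) of finite sets.  `sub`: `cl u ∈ 𝒦`.  `cov`: `z = φ j ∈ cl {φ j}`, `j < i` for some `i`.
* `cont`: a finite `u ⊆ Iio i`, `i` a limit, is contained in `Iio j` for some `j < i`.
* `cut`: let `c ∈ 𝒦` and `v = cut Af i c`, a finite subset of `Af i`: for `z ∈ v` choose a finite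
  `u z ⊆ Iio i` with `z ∈ cl ((u z).image φ)`; let `u` be the union of the `u z` and
  `C = cl (u.image φ) ∈ 𝒦`.  Then `v ⊆ C` (`cl` is monotone), `C ⊆ Af i` (all its elements),
  so `v = C ∩ c ∈ 𝒦`.
-/

namespace Pool.Agent.EL

open Cardinal Set

variable {Z : Type} [DecidableEq Z]

theorem exists_hull {A : Set Z} {𝒦 : Set (Finset Z)} (h : Cofam A 𝒦) (u : Finset Z)
    (hu : (u : Set Z) ⊆ A) : ∃ c ∈ 𝒦, u ⊆ c ∧ ∀ c' ∈ 𝒦, u ⊆ c' → c ⊆ c' := by
  obtain ⟨c0, hc0, huc0⟩ := h.cof u hu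
  have hne : {c : Finset Z | c ∈ 𝒦 ∧ u ⊆ c}.Nonempty := ⟨c0, hc0, huc0⟩
  obtain ⟨c, hc, hmin⟩ := WellFounded.has_min (measure (Finset.card (α := Z))).wf _ hne
  refine ⟨c, hc.1, hc.2, fun c' hc' huc' => ?_⟩
  have h1 : c ∩ c' ∈ {c : Finset Z | c ∈ 𝒦 ∧ u ⊆ c} :=
    ⟨h.inter c hc.1 c' hc', Finset.subset_inter hc.2 huc'⟩
  have h2 : ¬ (c ∩ c').card < c.card := hmin _ h1
  have h3 : c ∩ c' = c := Finset.eq_of_subset_of_card_le Finset.inter_subset_left (not_lt.mp h2)
  rw [← h3]
  exact Finset.inter_subset_right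

private lemma filtr_bound {i : W1} (hi : IsLim i) (u : Finset W1) (hu : ∀ j ∈ u, j < i) :
    ∃ j < i, ∀ k ∈ u, k < j := by
  classical
  induction u using Finset.induction_on with
  | empty =>
    obtain ⟨j, hj⟩ := hi.1
    exact ⟨j, hj, fun k hk => absurd hk (Finset.notMem_empty k)⟩
  | insert a s _ ih =>
    obtain ⟨j, hj, hjs⟩ := ih fun k hk => hu k (Finset.mem_insert_of_mem hk)
    have ha : a < i := hu a (Finset.mem_insert_self a s)
    obtain ⟨k, hk1, hk2⟩ := hi.2 (max a j) (max_lt ha hj)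
    refine ⟨k, hk2, fun b hb => ?_⟩
    rcases Finset.mem_insert.mp hb with rfl | hb
    · exact (le_max_left _ _).trans_lt hk1
    · exact (hjs b hb).trans ((le_max_right _ _).trans_lt hk1)

theorem exists_filt {A : Set Z} (hA : #A ≤ ℵ_ 1) {𝒦 : Set (Finset Z)} (h : Cofam A 𝒦) :
    ∃ Af : W1 → Set Z, Filt A 𝒦 Af := by
  classical
  rcases A.eq_empty_or_nonempty with rfl | hne
  · refine ⟨fun _ => ∅, ⟨fun _ _ => rfl, fun _ _ _ => subset_rfl, fun _ => countable_empty,
      fun _ => empty_subset _, fun z hz => absurd hz (notMem_empty z), fun _ _ => empty_subset _,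
      fun i c _ => ?_⟩⟩
    have h1 : cut (fun _ : W1 => (∅ : Set Z)) i c = ∅ := by
      rw [Finset.eq_empty_iff_forall_notMem]
      intro z hz
      exact (mem_cut.mp hz).2
    rw [h1]
    exact h.emp
  · obtain ⟨φ, hφ⟩ := exists_enum1 hA hne
    choose! cl hcl using exists_hull h
    have him : ∀ u : Finset W1, ((u.image φ : Finset Z) : Set Z) ⊆ A := by
      intro u z hz
      rw [Finset.mem_coe, Finset.mem_image] at hz
      obtain ⟨j, _, rfl⟩ := hz
      rw [← hφ]
      exact mem_range_self j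
    have hH1 : ∀ u : Finset W1, cl (u.image φ) ∈ 𝒦 := fun u => (hcl _ (him u)).1
    have hH2 : ∀ u : Finset W1, u.image φ ⊆ cl (u.image φ) := fun u => (hcl _ (him u)).2.1
    have hH3 : ∀ u v : Finset W1, u ⊆ v → cl (u.image φ) ⊆ cl (v.image φ) := fun u v huv =>
      (hcl _ (him u)).2.2 _ (hH1 v) ((Finset.image_subset_image huv).trans (hH2 v))
    have hH0 : cl ((∅ : Finset W1).image φ) = ∅ := by
      rw [← Finset.subset_empty]
      exact (hcl _ (him ∅)).2.2 ∅ h.emp (by simp)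
    refine ⟨fun i => {z | ∃ u : Finset W1, (∀ j ∈ u, j < i) ∧ z ∈ cl (u.image φ)}, ?_⟩
    constructor
    · intro i hi
      rw [eq_empty_iff_forall_notMem]
      rintro z ⟨u, hu, hz⟩
      have h1 : u = ∅ := by
        rw [Finset.eq_empty_iff_forall_notMem]
        intro j hj
        exact absurd (hu j hj) (not_lt.mpr (hi j))
      rw [h1, hH0] at hz
      exact Finset.notMem_empty z hz
    · rintro i i' hii z ⟨u, hu, hz⟩
      exact ⟨u, fun j hj => (hu j hj).trans_le hii, hz⟩
    · intro i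
      have : Countable (Iio i) := (countable_Iio i).to_subtype
      refine (countable_iUnion (t := fun v : Finset (Iio i) =>
        ((cl ((v.map (Function.Embedding.subtype _)).image φ) : Finset Z) : Set Z))
        (fun v => Finset.countable_toSet _)).mono ?_
      rintro z ⟨u, hu, hz⟩
      rw [mem_iUnion]
      refine ⟨u.subtype (fun j => j ∈ Iio i), ?_⟩
      have h1 : (u.subtype (fun j => j ∈ Iio i)).map (Function.Embedding.subtype _) = u :=
        Finset.subtype_map_of_mem (p := fun j => j ∈ Iio i) fun j hj => hu j hj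
      rw [h1]
      exact hz
    · rintro i z ⟨u, _, hz⟩
      exact h.sub _ (hH1 u) hz
    · intro z hz
      rw [← hφ] at hz
      obtain ⟨j, rfl⟩ := hz
      obtain ⟨i, hi⟩ := exists_gt1 j
      refine ⟨i, {j}, fun k hk => ?_, hH2 _ ?_⟩
      · rw [Finset.mem_singleton] at hk
        rw [hk]
        exact hi
      · simp
    · rintro i hi z ⟨u, hu, hz⟩
      obtain ⟨j, hj, hju⟩ := filtr_bound hi u hu
      rw [mem_iUnion₂]
      exact ⟨j, hj, u, hju, hz⟩
    · intro i c hc
      have h1 : ∀ z, z ∈ cut (fun i => {z | ∃ u : Finset W1, (∀ j ∈ u, j < i) ∧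
          z ∈ cl (u.image φ)}) i c → ∃ u : Finset W1, (∀ j ∈ u, j < i) ∧ z ∈ cl (u.image φ) :=
        fun z hz => (mem_cut.mp hz).2
      choose! u hu1 hu2 using h1
      set v := cut (fun i => {z | ∃ u : Finset W1, (∀ j ∈ u, j < i) ∧
          z ∈ cl (u.image φ)}) i c with hv
      have h2 : v = cl ((v.biUnion u).image φ) ∩ c := by
        ext z
        rw [Finset.mem_inter]
        constructor
        · intro hz
          exact ⟨hH3 _ _ (Finset.subset_biUnion_of_mem u hz) (hu2 z hz), (mem_cut.mp hz).1⟩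
        · rintro ⟨hz1, hz2⟩
          rw [hv]
          refine mem_cut.mpr ⟨hz2, v.biUnion u, fun j hj => ?_, hz1⟩
          rw [Finset.mem_biUnion] at hj
          obtain ⟨a, ha, hja⟩ := hj
          exact hu1 a ha j hja
      rw [h2]
      exact h.inter _ (hH1 _) c hc

end Pool.Agent.EL
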