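import Pool.Agent.EL.CCnd
import Pool.Agent.EL.Filtr

set_option autoImplicit false

/-!
# EL/Fam: a cofinal subfamily with at most two lower covers

If `A = ∅` take `F = {∅}`.  Otherwise enumerate `A = {φ j | j : W1}` (`exists_enum1`), take a
filtration (`exists_filt`), and a filter `G` on `Cnd 𝒦 Af` (nonempty by `nonempty_cnd`, ccc by
`cnd_ccc`) meeting the dense sets `D j = {p | φ j ∈ p.1.2}` (`cnd_dense`).
`F = ⋃ p ∈ G, p.1.1`.
* `F ⊆ 𝒦`; `∩`-closed: for `s ∈ p.1.1`, `s' ∈ q.1.1` take `r ∈ G` below `p` and `q`.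
* `Two F`: let `s ∈ p.1.1`, `p ∈ G`; all `u ∈ F` with `u ⊆ s` are in `p.1.1` (`u ∈ q.1.1`, `r ∈ G`
  below `p, q`, `u ∈ r.1.1`, `u ⊆ s ⊆ p.1.2`, so `u ∈ p.1.1`); so lower covers of `s` in `F` are lower
  covers in `p.1.1`.
* cofinal: for a finite `u ⊆ A` there is `p ∈ G` with `u ⊆ p.1.2 ∈ F`: induction on `u`, `G` is
  directed and tops increase.
-/

namespace Pool.Agent.EL

open Cardinal Set

variable {Z : Type} [DecidableEq Z]

theorem exists_fam (hMA : MA1) {A : Set Z} (hA : #A ≤ ℵ_ 1) {𝒦 : Set (Finset Z)}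
    (h : Cofam A 𝒦) : ∃ F ⊆ 𝒦, (∀ a ∈ F, ∀ b ∈ F, a ∩ b ∈ F) ∧
      (∀ u : Finset Z, (u : Set Z) ⊆ A → ∃ c ∈ F, u ⊆ c) ∧ Two F := by
  rcases A.eq_empty_or_nonempty with hAe | hAne
  · refine ⟨{∅}, ?_, ?_, ?_, ?_⟩
    · intro c hc
      rw [mem_singleton_iff] at hc
      subst hc
      exact h.emp
    · intro a ha b hb
      rw [mem_singleton_iff] at ha hb ⊢
      subst ha
      simp
    · intro u hu
      rw [hAe, subset_empty_iff, Finset.coe_eq_empty] at hu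
      exact ⟨∅, rfl, by rw [hu]⟩
    · intro s hs
      refine ⟨∅, ∅, fun t ht => ?_⟩
      left
      exact ht.1
  · obtain ⟨φ, hφ⟩ := exists_enum1 hA hAne
    obtain ⟨Af, hf⟩ := exists_filt hA h
    obtain ⟨q0, -, -⟩ := nonempty_cnd (Af := Af) h
    haveI : Nonempty (Cnd 𝒦 Af) := ⟨q0⟩
    obtain ⟨G, hG⟩ := hMA (Cnd 𝒦 Af) (cnd_ccc h hf) (fun j => {p | φ j ∈ p.1.2})
      (fun j p => by
        obtain ⟨r, hr, hr2⟩ := cnd_dense h hf p (a := φ j) (hφ ▸ mem_range_self j)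
        exact ⟨r, hr2, hr⟩)
    have hdir : ∀ p ∈ G, ∀ q ∈ G, ∃ r ∈ G, r ≤ p ∧ r ≤ q := by
      intro p hp q hq
      obtain ⟨r, hr, h1, h2⟩ := G.directed p hp q hq
      exact ⟨r, hr, h1, h2⟩
    have hkey : ∀ p ∈ G, ∀ s ∈ p.1.1, ∀ u, (∃ q ∈ G, u ∈ q.1.1) → u ⊆ s → u ∈ p.1.1 := by
      rintro p hp s hs u ⟨q, hq, hu⟩ hus
      obtain ⟨r, _, hrp, hrq⟩ := hdir p hp q hq
      exact (cnd_le.mp hrp).2 u ((cnd_le.mp hrq).1 hu) (hus.trans (p.2.le s hs))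
    refine ⟨{s | ∃ p ∈ G, s ∈ p.1.1}, ?_, ?_, ?_, ?_⟩
    · rintro s ⟨p, _, hs⟩
      exact p.2.sub hs
    · rintro a ⟨p, hp, ha⟩ b ⟨q, hq, hb⟩
      obtain ⟨r, hr, hrp, hrq⟩ := hdir p hp q hq
      exact ⟨r, hr, r.2.inter a ((cnd_le.mp hrp).1 ha) b ((cnd_le.mp hrq).1 hb)⟩
    · intro u hu
      have hex : ∃ p ∈ G, u ⊆ p.1.2 := by
        induction u using Finset.induction_on with
        | empty =>
          obtain ⟨p, hp⟩ := G.nonempty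
          exact ⟨p, hp, Finset.empty_subset _⟩
        | insert z u hz ih =>
          rw [Finset.coe_insert, insert_subset_iff] at hu
          obtain ⟨p2, hp2, hu2⟩ := ih hu.2
          have hzA : z ∈ range φ := by rw [hφ]; exact hu.1
          obtain ⟨j, rfl⟩ := hzA
          obtain ⟨p1, hp1, hz1⟩ := hG j
          obtain ⟨r, hr, hr1, hr2⟩ := hdir p1 hp1 p2 hp2
          have e1 : p1.1.2 ⊆ r.1.2 := r.2.le _ ((cnd_le.mp hr1).1 p1.2.top)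
          have e2 : p2.1.2 ⊆ r.1.2 := r.2.le _ ((cnd_le.mp hr2).1 p2.2.top)
          exact ⟨r, hr, Finset.insert_subset (e1 hz1) (hu2.trans e2)⟩
      obtain ⟨p, hp, hup⟩ := hex
      exact ⟨p.1.2, ⟨p, hp, p.2.top⟩, hup⟩
    · rintro s ⟨p, hp, hs⟩
      obtain ⟨a, b, hab⟩ := p.2.two s hs
      refine ⟨a, b, fun t ht => hab t ⟨?_, ht.2.1, ?_⟩⟩
      · exact hkey p hp s hs t ht.1 ht.2.1.subset
      · intro u hu htu
        exact ht.2.2 u ⟨p, hp, hu⟩ htu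

end Pool.Agent.EL
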