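import Pool.Agent.EL.Lat

set_option autoImplicit false

/-!
# EL/Gam: the sequence `Γ n` of small ideals
-/

namespace Pool.Agent.EL

open Cardinal Set

variable {L : Type} [Lattice L]

private lemma gam_step (h : LadCtx L) {c : W1 → L} (F : ℕ → List L → L)
    (Good : Set (List L))
    (hg : ∀ s ∈ Good, ∀ I, Small c I → ∃ ζ, ζ ∉ I ∧ s ++ [ζ] ∈ Good) {I : Set L}
    (hI : Small c I) :
    ∃ I' : Set L, Small c I' ∧ I ⊆ I' ∧ (∀ m l, (∀ y ∈ l, y ∈ I) → F m l ∈ I') ∧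
      ∀ s ∈ Good, (∀ y ∈ s, y ∈ I) →
        ¬ {ζ | s ++ [ζ] ∈ Good ∧ ζ ∈ I' ∧ ζ ∉ I}.Countable := by
  classical
  have hR : ∀ s : List L, ∃ R : Set L, #R ≤ ℵ_ 1 ∧ (s ∈ Good → (∀ y ∈ s, y ∈ I) →
      ¬ R.Countable ∧ ∀ ζ ∈ R, s ++ [ζ] ∈ Good ∧ ζ ∉ I) := by
    intro s
    by_cases hs : s ∈ Good ∧ ∀ y ∈ s, y ∈ I
    · have hunc : ¬ {ζ | s ++ [ζ] ∈ Good ∧ ζ ∉ I}.Countable := by
        intro hcount
        obtain ⟨J, hJ, hJsub⟩ := small_S3 h c (s := I ∪ {ζ | s ++ [ζ] ∈ Good ∧ ζ ∉ I})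
          (mk_union_le1 hI.2.2 (mk_countable_le1 hcount))
        obtain ⟨ζ, hζ1, hζ2⟩ := hg s hs.1 J hJ
        by_cases hζI : ζ ∈ I
        · exact hζ1 (hJsub (Or.inl hζI))
        · exact hζ1 (hJsub (Or.inr ⟨hζ2, hζI⟩))
      have hle : ℵ_ 1 ≤ #{ζ | s ++ [ζ] ∈ Good ∧ ζ ∉ I} := by
        by_contra hcon
        rw [not_le, lt_aleph_one_iff] at hcon
        exact hunc (le_aleph0_iff_set_countable.mp hcon)
      obtain ⟨R, hR1, hR2⟩ := le_mk_iff_exists_subset.mp hle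
      refine ⟨R, hR2.le, fun _ _ => ⟨fun hcount => ?_, fun ζ hζ => hR1 hζ⟩⟩
      have h1 := le_aleph0_iff_set_countable.mpr hcount
      rw [hR2] at h1
      exact absurd (aleph0_lt_aleph_one) (not_lt.mpr h1)
    · exact ⟨∅, by simp, fun h1 h2 => absurd ⟨h1, h2⟩ hs⟩
  choose R hR1 hR2 using hR
  let Ls : Set (List L) := {l | ∀ y ∈ l, y ∈ I}
  have hLs : #Ls ≤ ℵ_ 1 := mk_lists_le1 hI.2.2
  let A : Set L := ⋃ l : Ls, (R l.1 ∪ range fun m => F m l.1)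
  have hA : #A ≤ ℵ_ 1 := mk_iUnion_le1 hLs _ fun l =>
    mk_union_le1 (hR1 _) (mk_countable_le1 (countable_range _))
  obtain ⟨I', hI', hsub⟩ := small_S3 h c (s := I ∪ A) (mk_union_le1 hI.2.2 hA)
  refine ⟨I', hI', subset_union_left.trans hsub, fun m l hl => ?_, fun s hs hsI hcount => ?_⟩
  · exact hsub (Or.inr (mem_iUnion.mpr ⟨⟨l, hl⟩, Or.inr ⟨m, rfl⟩⟩))
  · refine (hR2 s hs hsI).1 (hcount.mono fun ζ hζ => ?_)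
    exact ⟨((hR2 s hs hsI).2 ζ hζ).1,
      hsub (Or.inr (mem_iUnion.mpr ⟨⟨s, hsI⟩, Or.inl hζ⟩)), ((hR2 s hs hsI).2 ζ hζ).2⟩

theorem exists_Gamma (h : LadCtx L) {c : W1 → L} (hc : StrictMono c) (F : ℕ → List L → L)
    (Good : Set (List L))
    (hg : ∀ s ∈ Good, ∀ I, Small c I → ∃ ζ, ζ ∉ I ∧ s ++ [ζ] ∈ Good) :
    ∃ Γ : ℕ → Set L, (∀ n, Small c (Γ n)) ∧ (∀ n, Γ n ⊆ Γ (n + 1)) ∧
      (∀ n m l, (∀ y ∈ l, y ∈ Γ n) → F m l ∈ Γ (n + 1)) ∧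
      ∀ n, ∀ s ∈ Good, (∀ y ∈ s, y ∈ Γ n) →
        ¬ {ζ | s ++ [ζ] ∈ Good ∧ ζ ∈ Γ (n + 1) ∧ ζ ∉ Γ n}.Countable := by
  classical
  let T := {I : Set L // Small c I}
  have hstep : ∀ I : T, ∃ I' : T, I.1 ⊆ I'.1 ∧
      (∀ m l, (∀ y ∈ l, y ∈ I.1) → F m l ∈ I'.1) ∧
      ∀ s ∈ Good, (∀ y ∈ s, y ∈ I.1) →
        ¬ {ζ | s ++ [ζ] ∈ Good ∧ ζ ∈ I'.1 ∧ ζ ∉ I.1}.Countable := by
    intro I
    obtain ⟨I', h1, h2, h3, h4⟩ := gam_step h F Good hg I.2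
    exact ⟨⟨I', h1⟩, h2, h3, h4⟩
  choose st h1 h2 h3 using hstep
  obtain ⟨I0, hI0, -⟩ := small_S3 h c (s := ∅) (by simp)
  let G : ℕ → T := fun n => st^[n] ⟨I0, hI0⟩
  have hG : ∀ n, G (n + 1) = st (G n) := fun n => Function.iterate_succ_apply' st n _
  refine ⟨fun n => (G n).1, fun n => (G n).2, fun n => ?_, fun n m l hl => ?_,
    fun n s hs hsn => ?_⟩
  · show (G n).1 ⊆ (G (n + 1)).1
    rw [hG]; exact h1 _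
  · show F m l ∈ (G (n + 1)).1
    rw [hG]; exact h2 _ m l hl
  · show ¬ {ζ | s ++ [ζ] ∈ Good ∧ ζ ∈ (G (n + 1)).1 ∧ ζ ∉ (G n).1}.Countable
    rw [hG]; exact h3 _ s hs hsn

end Pool.Agent.EL
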