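import Pool.Agent.EL.RKey

set_option autoImplicit false

/-!
# EL/RMain: MM implies the strong reflection principle

`rcond_statPreserving`: given `T`, a name `R` and `p`.  Let `e ξ p ≤ p` and `η ξ p` with
`R ξ (e ξ p) (η ξ p)` (choice from `IsName.dense`).  `rkey` gives `q ≤ p` and `i ∈ T`, nonminimal,
such that for `ξ < i` there is `p'` with `q ≤ e ξ p'` and `η ξ p' < i`; then `R ξ q (η ξ p')` by
`mono`, and for `r ≤ q` take `s = r`.

`rcond_dense`: for all `ζ` and `p` there is `q ≤ p` with `ζ ≤ q.ν`.  Strong induction on `ζ`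
(`WellFoundedLT.induction`).  By induction choose for `ξ < ζ` `e ξ p ≤ p` with
`ξ ≤ (e ξ p).ν`; for `ξ ≥ ζ` let `e ξ p = p`.  Apply `rkey` with
`T = {i | ζ ≤ i}` (`stationary_Ici`), `η` arbitrary: `q ≤ p` with `q ≤ e ξ p'` for all `ξ < ζ`
(as `ζ ≤ i`), so `ξ ≤ q.ν` for all `ξ < ζ`.  Take one more step `q' ≤ q` with `q.ν < q'.ν`
(`exists_step`): then `ζ ≤ q'.ν` (otherwise `q'.ν < ζ`, so `q'.ν ≤ q.ν`).

`reflects_of_mm`: `RCond S` is nonempty (`nonempty_rcond`, `cof_of_projStat` with `t = ∅`) and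
preserves stationary sets.  The sets `D ξ = {p | ξ ≤ p.ν ∧ c ξ ∈ p.x p.ν}` are dense
(`rcond_dense`, then `exists_step` with `a = c ξ`).  Let `G` be a filter meeting all of them.
Put `x k = p.x k` for some `p ∈ G` with `k ≤ p.ν`; this does not depend on `p` (for `p, q ∈ G` take
`r ∈ G` below both).  All required properties are inherited from the conditions:
for `Monotone x` and continuity at `k` compute everything in one condition `p ∈ G`, `k ≤ p.ν`;
`c ξ ∈ p.x p.ν = x p.ν` for `p ∈ G ∩ D ξ`.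
-/

namespace Pool.Agent.EL

open Cardinal Set

theorem rcond_statPreserving {X : Type} {c : W1 → X} (hc : Function.Injective c)
    {S : Set (Set X)} (hS : ∀ x ∈ S, x.Countable) (hP : ProjStat c S) :
    StatPreserving (RCond S) := by
  intro T hT R hR p
  choose e he η hη using hR.dense
  obtain ⟨q, hq, i, hi, hne, hk⟩ := rkey hc hS hP hT e he η p
  refine ⟨q, hq, i, hi, hne, fun ξ hξ r hr => ?_⟩
  obtain ⟨p', h1, h2⟩ := hk ξ hξ
  exact ⟨r, le_rfl, η ξ p', h2, hR.mono ξ (e ξ p') r _ (hr.trans h1) (hη ξ p')⟩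

theorem rcond_dense {X : Type} {c : W1 → X} (hc : Function.Injective c)
    {S : Set (Set X)} (hS : ∀ x ∈ S, x.Countable) (hP : ProjStat c S) (ζ : W1) :
    ∀ p : RCond S, ∃ q : RCond S, q ≤ p ∧ ζ ≤ q.ν := by
  induction ζ using WellFoundedLT.induction with
  | ind ζ ih =>
    intro p
    have h1 : ∀ (ξ : W1) (p : RCond S), ∃ q : RCond S, q ≤ p ∧ (ξ < ζ → ξ ≤ q.ν) := by
      intro ξ p
      by_cases h : ξ < ζ
      · obtain ⟨q, hq1, hq2⟩ := ih ξ h p
        exact ⟨q, hq1, fun _ => hq2⟩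
      · exact ⟨p, le_rfl, fun h' => absurd h' h⟩
    choose e he hν using h1
    obtain ⟨q, hq, i, hi, _, hk⟩ :=
      rkey hc hS hP (stationary_Ici ζ) e he (fun _ _ => ζ) p
    have hi' : ζ ≤ i := hi
    have h2 : ∀ ξ < ζ, ξ ≤ q.ν := by
      intro ξ hξ
      obtain ⟨p', h3, _⟩ := hk ξ (lt_of_lt_of_le hξ hi')
      exact (hν ξ p' hξ).trans h3.1
    obtain ⟨q', hq', hlt, _⟩ := exists_step hS (fun t ht => cof_of_projStat hP ht) q (c ζ)
    refine ⟨q', hq'.trans hq, ?_⟩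
    by_contra h
    exact absurd hlt (not_lt.mpr (h2 _ (not_le.mp h)))

theorem reflects_of_mm (hMM : MartinsMaximum) {X : Type} {c : W1 → X}
    (hc : Function.Injective c) {S : Set (Set X)} (hS : ∀ x ∈ S, x.Countable)
    (hP : ProjStat c S) : Reflects c S := by
  have hcof : ∀ t : Set X, t.Countable → ∃ y ∈ S, t ⊆ y := fun t ht => cof_of_projStat hP ht
  have hne : S.Nonempty := by
    obtain ⟨y, hy, _⟩ := hcof ∅ countable_empty
    exact ⟨y, hy⟩
  haveI : Nonempty (RCond S) := nonempty_rcond hne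
  obtain ⟨G, hG⟩ := hMM (RCond S) (rcond_statPreserving hc hS hP)
    (fun ξ => {p | ξ ≤ p.ν ∧ c ξ ∈ p.x p.ν}) (by
      intro ξ p
      obtain ⟨q1, h1, h2⟩ := rcond_dense hc hS hP ξ p
      obtain ⟨q2, h3, h4, h5⟩ := exists_step hS hcof q1 (c ξ)
      exact ⟨q2, ⟨h2.trans h4.le, h5⟩, h3.trans h1⟩)
  choose P hPG hPD using hG
  have key : ∀ (k : W1) (p : RCond S), p ∈ G → k ≤ p.ν → (P k).x k = p.x k := by
    intro k p hp hk
    obtain ⟨r, _, hr1, hr2⟩ := G.directed p hp (P k) (hPG k)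
    rw [← (show r ≤ p from hr1).2 k hk, ← (show r ≤ P k from hr2).2 k (hPD k).1]
  refine ⟨fun k => (P k).x k, ?_, ?_, ?_, ?_⟩
  · intro j k hjk
    show (P j).x j ⊆ (P k).x k
    rw [key j (P k) (hPG k) (hjk.trans (hPD k).1)]
    exact (P k).mono j k hjk (hPD k).1
  · intro i
    exact (P i).mem i (hPD i).1
  · intro i hi y hy
    have h1 := (P i).cont i (hPD i).1 hi hy
    simp only [mem_iUnion] at h1 ⊢
    obtain ⟨j, hj, hy'⟩ := h1
    refine ⟨j, hj, ?_⟩
    rw [key j (P i) (hPG i) ((show j < i from hj).le.trans (hPD i).1)]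
    exact hy'
  · intro ξ
    refine ⟨(P ξ).ν, ?_⟩
    show c ξ ∈ (P (P ξ).ν).x (P ξ).ν
    rw [key (P ξ).ν (P ξ) (hPG ξ) le_rfl]
    exact (hPD ξ).2

end Pool.Agent.EL
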