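import Pool.Agent.EL.ProjSg
import Pool.Agent.EL.RMain
import Pool.Agent.EL.CccStat

set_option autoImplicit false

/-!
# EL/Gap: the gap lemma
-/

namespace Pool.Agent.EL

open Cardinal Set

variable {L : Type} [Lattice L]

theorem gap_of_reflects (h : LadCtx L) {c : W1 → L} (hc : StrictMono c) (g : W1 → W1)
    (hR : Reflects c (Sg c g)) :
    ∃ (z : L) (H : W1 → W1), ∀ i, ClP H i → ∀ e, z ≤ e → (∀ j < i, c j ≤ e) → c (g i) ≤ e := by
  classical
  obtain ⟨x, hmono, hxS, hcont, hcov⟩ := hR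
  choose hxc δ hδ hub using hxS
  choose κ hκ using hcov
  obtain ⟨I, hI, hxI⟩ := small_S3 h c (s := ⋃ i, x i)
    (mk_iUnion_le1 mk_W1.le x fun i => mk_countable_le1 (hxc i))
  obtain ⟨z, hz⟩ := small_S5 h hI
  have hy : ∀ y, ∃ η, y ∈ I → y ≤ z ⊔ c η := by
    intro y
    by_cases hyI : y ∈ I
    · obtain ⟨η, hη⟩ := small_S1 h hc hI.1 hI.2.1 hz hyI
      exact ⟨η, fun _ => hη⟩
    · exact ⟨Classical.arbitrary W1, fun hcon => absurd hcon hyI⟩
  choose hy hhy using hy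
  have hH : ∀ j : W1, ∃ b, (j < b ∧ κ j < b ∧ δ j < b) ∧ ∀ y ∈ x j, hy y < b := by
    intro j
    obtain ⟨b, hb⟩ := bound1 (s := {j, κ j, δ j} ∪ hy '' x j)
      (((countable_singleton _).insert _).insert _ |>.union ((hxc j).image hy))
    exact ⟨b, ⟨hb _ (Or.inl (by simp)), hb _ (Or.inl (by simp)), hb _ (Or.inl (by simp))⟩,
      fun y hyx => hb _ (Or.inr ⟨y, hyx, rfl⟩)⟩
  choose H hH1 hH2 using hH
  refine ⟨z, H, fun i hi e hze hce => ?_⟩
  have hlim : IsLim i := ⟨hi.1, fun j hj => ⟨H j, (hH1 j).1, hi.2 j hj⟩⟩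
  have htr : ∀ ξ, c ξ ∈ x i ↔ ξ < i := by
    intro ξ
    constructor
    · intro hξ
      obtain ⟨j, hj, hξj⟩ := mem_iUnion₂.mp (hcont i hlim hξ)
      exact (((hδ j ξ).mp hξj).trans (hH1 j).2.2).trans (hi.2 j hj)
    · intro hξ
      exact hmono ((hH1 ξ).2.1.trans (hi.2 ξ hξ)).le (hκ ξ)
  have hδi : δ i = i := by
    apply le_antisymm
    · by_contra hcon
      exact lt_irrefl i ((htr i).mp ((hδ i i).mpr (not_le.mp hcon)))
    · by_contra hcon
      exact lt_irrefl (δ i) ((hδ i (δ i)).mp ((htr (δ i)).mpr (not_le.mp hcon)))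
  have := hub i e (fun y hyx => ?_)
  · rwa [hδi] at this
  · obtain ⟨j, hj, hyj⟩ := mem_iUnion₂.mp (hcont i hlim hyx)
    have h1 : hy y < i := (hH2 j y hyj).trans (hi.2 j hj)
    exact (hhy y (hxI (mem_iUnion.mpr ⟨i, hyx⟩))).trans (sup_le hze (hce _ h1))

theorem gap (hMM : MartinsMaximum) (h : LadCtx L) {c : W1 → L} (hc : StrictMono c)
    (g : W1 → W1) :
    ∃ (z : L) (H : W1 → W1), ∀ i, ClP H i → ∀ e, z ≤ e → (∀ j < i, c j ≤ e) → c (g i) ≤ e :=
  gap_of_reflects h hc g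
    (reflects_of_mm hMM hc.injective (fun _ hx => hx.1) (projStat_Sg (ma1_of_mm hMM) h hc g))

end Pool.Agent.EL
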