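import Pool.Agent.EL.Lat

set_option autoImplicit false

/-!
# EL/GoodB: lost positions

`lose_of_bad`: take any constant strategy (a small ideal exists by `small_S3` with `s = ∅`) and
`n = 0`.

`lose_of_step`: choose strategies `b ζ` witnessing `Lose c F i (s ++ [ζ])` for `ζ ∉ I` and combine:
`b l = I` if `l.length ≤ s.length`, and otherwise, with `ζ = l[s.length]`, `b l = b ζ l` if
`ζ ∉ I` and `b l = I` if `ζ ∈ I`.  Let `ζ : ℕ → L` be a sequence avoiding `b`.  `n = 0`:
`ζ 0 ∉ b s = I`.  We have
`s ++ (List.range (n+1)).map ζ = (s ++ [ζ 0]) ++ (List.range n).map (fun k => ζ (k+1))`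
(`List.range_succ_eq_map`), and its entry number `s.length` is `ζ 0`; so `fun k => ζ (k+1)`
avoids `b (ζ 0)` starting from `s ++ [ζ 0]`, hence a bad position occurs.
-/

namespace Pool.Agent.EL

open Cardinal Set

variable {L : Type} [Lattice L]

/-- The closure of `c '' Iio i` and the entries of `s` contains some `c η` with `η ≥ i`. -/
def Bad (c : W1 → L) (F : ℕ → List L → L) (i : W1) (s : List L) : Prop :=
  ∃ η, i ≤ η ∧ Cl F (c '' Iio i ∪ {y | y ∈ s}) (c η)

/-- The player who names small ideals has a strategy which leads from `s` to a bad position. -/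
def Lose (c : W1 → L) (F : ℕ → List L → L) (i : W1) (s : List L) : Prop :=
  ∃ b : List L → Set L, (∀ l, Small c (b l)) ∧
    ∀ ζ : ℕ → L, (∀ n, ζ n ∉ b (s ++ (List.range n).map ζ)) →
      ∃ n, Bad c F i (s ++ (List.range n).map ζ)

theorem lose_of_bad (h : LadCtx L) (c : W1 → L) (F : ℕ → List L → L) {i : W1} {s : List L}
    (hs : Bad c F i s) : Lose c F i s := by
  obtain ⟨I, hI, -⟩ := small_S3 h c (s := ∅) (by simp)
  exact ⟨fun _ => I, fun _ => hI, fun ζ _ => ⟨0, by simpa using hs⟩⟩

theorem lose_of_step {c : W1 → L} {F : ℕ → List L → L} {i : W1} {s : List L}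
    {I : Set L} (hI : Small c I) (hs : ∀ ζ, ζ ∉ I → Lose c F i (s ++ [ζ])) : Lose c F i s := by
  classical
  choose b hb1 hb2 using hs
  let B : List L → Set L := fun l =>
    if hl : s.length < l.length then
      if hz : l[s.length] ∉ I then b (l[s.length]) hz l else I
    else I
  refine ⟨B, ?_, ?_⟩
  · intro l
    by_cases hl : s.length < l.length
    · by_cases hz : l[s.length] ∉ I
      · simp only [B, dif_pos hl, dif_pos hz]
        exact hb1 _ hz l
      · simp only [B, dif_pos hl, dif_neg hz]
        exact hI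
    · simp only [B, dif_neg hl]
      exact hI
  · intro ζ hζ
    have h0 : ζ 0 ∉ I := by
      have h1 := hζ 0
      simpa [B] using h1
    have key : ∀ n, s ++ (List.range (n+1)).map ζ
        = (s ++ [ζ 0]) ++ (List.range n).map (fun k => ζ (k+1)) := by
      intro n
      rw [List.range_succ_eq_map]
      simp [Function.comp_def]
    have hB : ∀ (z : L) (hz : z ∉ I) (t : List L),
        B ((s ++ [z]) ++ t) = b z hz ((s ++ [z]) ++ t) := by
      intro z hz t
      have hl : s.length < ((s ++ [z]) ++ t).length := by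
        simp only [List.length_append, List.length_cons, List.length_nil]
        omega
      have he : ((s ++ [z]) ++ t)[s.length] = z := by
        simp
      have hz' : ((s ++ [z]) ++ t)[s.length] ∉ I := by
        rw [he]; exact hz
      simp only [B, dif_pos hl, dif_pos hz']
      congr 1
    obtain ⟨n, hn⟩ := hb2 (ζ 0) h0 (fun k => ζ (k+1)) (fun n => by
      have h1 := hζ (n+1)
      rwa [key, hB _ h0] at h1)
    exact ⟨n+1, by rw [key]; exact hn⟩

end Pool.Agent.EL
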