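import Pool.Agent.EL.GoodA
import Pool.Agent.EL.GoodB

set_option autoImplicit false

/-!
# EL/Good: good positions

`exists_not_lose`: otherwise choose strategies `b i` (`Lose c F i []`) for all nonminimal `i ∈ T`, and
let `b i` be a constant small ideal for the other `i`.  `β l = ⋃ i, b i l` is a small ideal
(`small_S4`, `mk_W1`), let `G l ∉ β l` (`small_S5`).  Apply `projStat_univ` to `T` and to
`F' 0 l = G l`, `F' (n+1) = F n`: a countable `x` closed under `F` and `G` with trace `i ∈ T`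
nonminimal.  Let `ζ : ℕ → L` satisfy `ζ n = G ((List.range n).map ζ)` (recursion: e.g.
`l 0 = []`, `l (n+1) = l n ++ [G (l n)]`, `ζ n = G (l n)`, then `l n = (List.range n).map ζ`): all
`ζ n ∈ x`, and `ζ` avoids `b i`.  So `Bad c F i ([] ++ (List.range n).map ζ)` for some `n`, i.e.
`c η` is in the closure of `c '' Iio i ∪ ..` with `i ≤ η`; but `c '' Iio i ∪ .. ⊆ x`, so `c η ∈ x`
(`cl_le`), `η < i`, a contradiction.

`exists_good`: `Good = {s | ¬ Lose c F i s}`; use `lose_of_bad`, `lose_of_step`.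
-/

namespace Pool.Agent.EL

open Cardinal Set

variable {L : Type} [Lattice L]

theorem exists_not_lose (h : LadCtx L) {c : W1 → L} (hc : StrictMono c) {T : Set W1}
    (hT : Stationary T) (F : ℕ → List L → L) :
    ∃ i ∈ T, (∃ j, j < i) ∧ ¬ Lose c F i [] := by
  classical
  by_contra hcon
  push Not at hcon
  obtain ⟨I0, hI0, -⟩ := small_S3 h c (s := ∅) (by simp)
  have hex : ∀ i : W1, ∃ b : List L → Set L, (∀ l, Small c (b l)) ∧
      (i ∈ T → (∃ j, j < i) → ∀ ζ : ℕ → L, (∀ n, ζ n ∉ b ([] ++ (List.range n).map ζ)) →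
      ∃ n, Bad c F i ([] ++ (List.range n).map ζ)) := by
    intro i
    by_cases hi : i ∈ T ∧ ∃ j, j < i
    · obtain ⟨b, hb1, hb2⟩ := hcon i hi.1 hi.2
      exact ⟨b, hb1, fun _ _ => hb2⟩
    · exact ⟨fun _ => I0, fun _ => hI0, fun h1 h2 => absurd ⟨h1, h2⟩ hi⟩
  choose b hb1 hb2 using hex
  have hβ : ∀ l, Small c (⋃ i, b i l) := fun l =>
    small_S4 h hc mk_W1.le (fun i => b i l) (fun i => hb1 i l)
  have hG' : ∀ l, ∃ x, x ∉ ⋃ i, b i l := fun l => small_S5 h (hβ l)
  choose G hG using hG'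
  let F' : ℕ → List L → L := fun n => match n with
    | 0 => G
    | n + 1 => F n
  obtain ⟨x, -, hx, i, hiT, hi0, htr⟩ := projStat_univ hc.injective hT F'
  let st : ℕ → List L := fun n => Nat.rec [] (fun _ l => l ++ [G l]) n
  let ζ : ℕ → L := fun n => G (st n)
  have hst : ∀ n, (List.range n).map ζ = st n := by
    intro n
    induction n with
    | zero => rfl
    | succ n ih => rw [List.range_succ, List.map_append, ih]; rfl
  have hmem' : ∀ n, ∀ y ∈ st n, y ∈ x := by
    intro n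
    induction n with
    | zero => intro y hy; simp [st] at hy
    | succ n ih =>
      intro y hy
      have h1 : st (n + 1) = st n ++ [G (st n)] := rfl
      rw [h1, List.mem_append] at hy
      rcases hy with hy | hy
      · exact ih y hy
      · rw [List.mem_singleton] at hy
        rw [hy]
        exact hx 0 (st n) ih
  obtain ⟨n, η, hη, hcl⟩ := hb2 i hiT hi0 ζ (fun n => by
    rw [List.nil_append, hst]
    exact fun hm => hG (st n) (mem_iUnion.mpr ⟨i, hm⟩))
  have hcx : c η ∈ x := by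
    refine cl_le (F := F) (fun n l hl => hx (n + 1) l hl) ?_ hcl
    rintro y (⟨ξ, hξ, rfl⟩ | hy)
    · exact (htr ξ).mpr hξ
    · rw [List.nil_append, hst] at hy
      exact hmem' n y hy
  exact absurd ((htr η).mp hcx) (not_lt.mpr hη)

theorem exists_good (h : LadCtx L) {c : W1 → L} (hc : StrictMono c) {T : Set W1}
    (hT : Stationary T) (F : ℕ → List L → L) :
    ∃ i ∈ T, (∃ j, j < i) ∧ ∃ Good : Set (List L), [] ∈ Good ∧
      (∀ s ∈ Good, ∀ η, Cl F (c '' Iio i ∪ {y | y ∈ s}) (c η) → η < i) ∧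
      (∀ s ∈ Good, ∀ I, Small c I → ∃ ζ, ζ ∉ I ∧ s ++ [ζ] ∈ Good) := by
  obtain ⟨i, hi, hi0, hi'⟩ := exists_not_lose h hc hT F
  refine ⟨i, hi, hi0, {s | ¬ Lose c F i s}, hi', fun s hs η hη => ?_, fun s hs I hI => ?_⟩
  · by_contra hcon
    exact hs (lose_of_bad h c F ⟨η, not_lt.mp hcon, hη⟩)
  · by_contra hcon
    push Not at hcon
    refine hs (lose_of_step hI fun ζ hζ => ?_)
    by_contra hl
    exact hcon ζ hζ hl

end Pool.Agent.EL
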