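import Pool.Agent.EL.Basic

set_option autoImplicit false

/-!
# EL/GoodA: there are closed sets with trace in a given stationary set

For `i : W1` let `x i = {y | Cl F (c '' Iio i) y}` (countable by `countable_cl`,
closed by `clo_cl`).  For each `j` the set `{ξ | Cl F (c '' Iic j) (c ξ)}` is countable
(`c` injective); let `h j` be a strict upper bound (`bound1`).  By `stationary_iff` there is `i ∈ T`
with `ClP h i`.  `c '' Iio i = ⋃ (j : Iio i), c '' Iic j`, and `cl_iUnion` (index type `Iio i`,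
nonempty) gives: if `c ξ ∈ x i` then `Cl F (c '' Iic j) (c ξ)` for some `j < i`, so `ξ < h j < i`.
Conversely `ξ < i` gives `c ξ ∈ x i`.
-/

namespace Pool.Agent.EL

open Cardinal Set

theorem projStat_univ {X : Type} {c : W1 → X} (hc : Function.Injective c) {T : Set W1}
    (hT : Stationary T) (F : ℕ → List X → X) :
    ∃ x : Set X, x.Countable ∧ Clo F x ∧ ∃ i ∈ T, (∃ j, j < i) ∧ Trace c x i := by
  have hb : ∀ j : W1, ∃ b, ∀ ξ, Cl F (c '' Iic j) (c ξ) → ξ < b := by
    intro j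
    have h1 : {y | Cl F (c '' Iic j) y}.Countable :=
      countable_cl ((countable_Iic j).image c)
    have h2 : (c ⁻¹' {y | Cl F (c '' Iic j) y}).Countable := h1.preimage hc
    obtain ⟨b, hb⟩ := bound1 h2
    exact ⟨b, fun ξ hξ => hb ξ hξ⟩
  choose h hh using hb
  obtain ⟨i, hiT, hi0, hi⟩ := stationary_iff.mp hT h
  refine ⟨{y | Cl F (c '' Iio i) y}, countable_cl ((countable_Iio i).image c), clo_cl _, i, hiT,
    hi0, fun ξ => ⟨fun hξ => ?_, fun hξ => Cl.base ⟨ξ, hξ, rfl⟩⟩⟩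
  have hne : Nonempty (Iio i) := by
    obtain ⟨j, hj⟩ := hi0
    exact ⟨⟨j, hj⟩⟩
  have h3 : c '' Iio i = ⋃ j : Iio i, c '' Iic (j : W1) := by
    ext y
    constructor
    · rintro ⟨k, hk, rfl⟩
      exact mem_iUnion.mpr ⟨⟨k, hk⟩, k, le_refl k, rfl⟩
    · intro hy
      obtain ⟨j, k, hk, rfl⟩ := mem_iUnion.mp hy
      exact ⟨k, mem_Iio.mpr (lt_of_le_of_lt (mem_Iic.mp hk) (mem_Iio.mp j.2)), rfl⟩
  have h4 : Monotone fun j : Iio i => c '' Iic (j : W1) := by
    intro j k hjk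
    exact image_mono (Iic_subset_Iic.mpr hjk)
  have h5 : Cl F (⋃ j : Iio i, c '' Iic (j : W1)) (c ξ) := by
    rw [← h3]
    exact hξ
  obtain ⟨j, hj⟩ := cl_iUnion h4 h5
  exact (hh j ξ hj).trans (hi j j.2)

end Pool.Agent.EL
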