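import Pool.Agent.EL.LadR

set_option autoImplicit false

/-!
# EL/LadB: the 3-ladder

`ladderB_of_rec`: `M = KK F` ordered by inclusion (a subtype of `Finset W2`).
* `∩`-closed; cofinal in all finite subsets of `W2` (as above); so for each finite `u` there is a
  least `c ∈ M` with `u ⊆ c` (a `c` of minimal cardinality); this gives a lattice:
  `inf a b = a ∩ b`, `sup a b` = the least `c ∈ M` containing `a ∪ b`.
* principal ideals are finite (subsets of `a`).
* `#M = ℵ₂`: `≤` since `#(Finset W2) = ℵ₂`; `≥` since `W2 = ⋃ a ∈ M, a`, e.g.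
  `M` infinite and `#W2 ≤ #M * ℵ₀`; or an injection `α ↦` a least element of `M` with maximum `α`:
  `insert α c` with `c ∈ F α` (`F α ≠ ∅`).
* lower covers of `a ∈ M` (`b ⋖ a` in `M`): `a ≠ ∅`; let `β = max a`, `a' = a.erase β =
  a.filter (· < β) ∈ F β`; also `a' ∈ M`.  If `β ∉ b` then `b ⊆ a' ⊂ a`, so `b = a'`.  If `β ∈ b` then
  `b' = b.erase β = b.filter (· < β) ∈ F β` and `b'` is a lower cover of `a'` in `F β`
  (if `b' ⊂ u ⊂ a'`, `u ∈ F β`, then `insert β u ∈ M` is strictly between `b` and `a`), and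
  `b = insert β b'`.  By `Two (F β)` there are at most 3 lower covers.
-/

namespace Pool.Agent.EL

open Cardinal Set

private lemma LadB_fil {β : W2} {c : Finset W2} (hc : ∀ γ ∈ c, γ < β) :
    (insert β c).filter (· < β) = c := by
  ext z
  simp only [Finset.mem_filter, Finset.mem_insert]
  constructor
  · rintro ⟨rfl | hz, hlt⟩
    · exact absurd hlt (lt_irrefl _)
    · exact hz
  · intro hz
    exact ⟨Or.inr hz, hc z hz⟩

private lemma LadB_insert {F : W2 → Set (Finset W2)} {β : W2} (hF : F β ⊆ KA F β)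
    {c : Finset W2} (hc : c ∈ F β) : insert β c ∈ KK F := by
  have hcK := hF hc
  intro γ hγ
  rcases Finset.mem_insert.mp hγ with rfl | hγc
  · rw [LadB_fil hcK.2]
    exact hc
  · have hγβ := hcK.2 γ hγc
    have : (insert β c).filter (· < γ) = c.filter (· < γ) := by
      ext z
      simp only [Finset.mem_filter, Finset.mem_insert]
      constructor
      · rintro ⟨rfl | hz, hlt⟩
        · exact absurd (hlt.trans hγβ) (lt_irrefl _)
        · exact ⟨hz, hlt⟩
      · rintro ⟨hz, hlt⟩
        exact ⟨Or.inr hz, hlt⟩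
    rw [this]
    exact hcK.1 γ hγc

private lemma LadB_inter {F : W2 → Set (Finset W2)} (hF : ∀ α, GoodF F α) {a b : Finset W2}
    (ha : a ∈ KK F) (hb : b ∈ KK F) : a ∩ b ∈ KK F := by
  intro β hβ
  rw [Finset.filter_inter_distrib]
  exact (hF β).inter _ (ha β (Finset.mem_inter.mp hβ).1) _ (hb β (Finset.mem_inter.mp hβ).2)

private lemma LadB_cof {F : W2 → Set (Finset W2)} (hF : ∀ α, GoodF F α) (u : Finset W2) :
    ∃ c ∈ KK F, u ⊆ c := by
  rcases u.eq_empty_or_nonempty with hue | hune
  · exact ⟨∅, fun β hβ => absurd hβ (Finset.notMem_empty _), by rw [hue]⟩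
  · obtain ⟨c, hc, huc⟩ := (hF (u.max' hune)).cof (u.erase (u.max' hune)) (fun γ hγ => by
        rw [Finset.mem_erase] at hγ
        exact lt_of_le_of_ne (u.le_max' γ hγ.2) hγ.1)
    refine ⟨insert (u.max' hune) c, LadB_insert (hF _).sub hc, fun z hz => ?_⟩
    by_cases hzm : z = u.max' hune
    · rw [hzm]; exact Finset.mem_insert_self _ _
    · exact Finset.mem_insert_of_mem (huc (Finset.mem_erase.mpr ⟨hzm, hz⟩))

private lemma LadB_least {F : W2 → Set (Finset W2)} (hF : ∀ α, GoodF F α) (u : Finset W2) :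
    ∃ c, c ∈ KK F ∧ u ⊆ c ∧ ∀ d ∈ KK F, u ⊆ d → c ⊆ d := by
  have hne : {c : Finset W2 | c ∈ KK F ∧ u ⊆ c}.Nonempty := by
    obtain ⟨c, hc, huc⟩ := LadB_cof hF u
    exact ⟨c, hc, huc⟩
  obtain ⟨c, ⟨hc, huc⟩, hmin⟩ := (wellFounded_lt (α := Finset W2)).has_min _ hne
  refine ⟨c, hc, huc, fun d hd hud => ?_⟩
  have h1 := hmin (c ∩ d) ⟨LadB_inter hF hc hd, Finset.subset_inter huc hud⟩
  have h2 : c ∩ d ≤ c := Finset.inter_subset_left
  have h3 : c ∩ d = c := by
    by_contra h
    exact h1 (lt_of_le_of_ne h2 h)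
  exact Finset.inter_eq_left.mp h3

private lemma LadB_cov {F : W2 → Set (Finset W2)} (hF : ∀ α, GoodF F α) (a : Finset W2)
    (ha : a ∈ KK F) : ∃ s : Finset (Finset W2), s.card ≤ 3 ∧ ∀ b ∈ KK F, b ⊂ a →
      (∀ c ∈ KK F, b ⊂ c → ¬ c ⊂ a) → b ∈ s := by
  rcases a.eq_empty_or_nonempty with hae | hane
  · refine ⟨∅, by simp, fun b _ hb => ?_⟩
    rw [hae] at hb
    exact absurd hb (Finset.not_ssubset_empty _)
  · obtain ⟨β, hβ⟩ : ∃ β, β = a.max' hane := ⟨_, rfl⟩
    have hβa : β ∈ a := by rw [hβ]; exact a.max'_mem hane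
    have hle : ∀ γ ∈ a, γ ≤ β := fun γ hγ => by rw [hβ]; exact a.le_max' γ hγ
    have ha' : a.filter (· < β) ∈ F β := ha β hβa
    have hfil : ∀ b : Finset W2, b ⊆ a → β ∈ b → insert β (b.filter (· < β)) = b := by
      intro b hb hβb
      ext z
      simp only [Finset.mem_filter, Finset.mem_insert]
      constructor
      · rintro (rfl | ⟨hz, -⟩)
        · exact hβb
        · exact hz
      · intro hz
        rcases (hle z (hb hz)).lt_or_eq with h | h
        · exact Or.inr ⟨hz, h⟩
        · exact Or.inl h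
    have hnot : ∀ b : Finset W2, β ∉ b.filter (· < β) := by
      intro b hb
      exact lt_irrefl _ (Finset.mem_filter.mp hb).2
    obtain ⟨x, y, hxy⟩ := (hF β).two _ ha'
    refine ⟨{a.filter (· < β), insert β x, insert β y}, Finset.card_le_three, ?_⟩
    intro b hb hba hmin
    rw [Finset.mem_insert, Finset.mem_insert, Finset.mem_singleton]
    by_cases hβb : β ∈ b
    · right
      have hb' : b.filter (· < β) ∈ F β := hb β hβb
      have hlow : LowCov (F β) (a.filter (· < β)) (b.filter (· < β)) := by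
        refine ⟨hb', ?_, fun u hu hbu hua => ?_⟩
        · refine ⟨Finset.filter_subset_filter _ hba.1, fun h => ?_⟩
          have h1 : a ⊆ b := by
            rw [← hfil a subset_rfl hβa, ← hfil b hba.1 hβb]
            exact Finset.insert_subset_insert _ h
          exact hba.2 h1
        · have hβu : β ∉ u := fun h => hnot a (hua.1 h)
          refine hmin (insert β u) (LadB_insert (hF β).sub hu) ?_ ?_
          · rw [← hfil b hba.1 hβb]
            refine ⟨Finset.insert_subset_insert _ hbu.1, fun h => hbu.2 ?_⟩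
            exact (Finset.insert_subset_insert_iff hβu).mp h
          · rw [← hfil a subset_rfl hβa]
            refine ⟨Finset.insert_subset_insert _ hua.1, fun h => hua.2 ?_⟩
            exact (Finset.insert_subset_insert_iff (hnot a)).mp h
      rcases hxy _ hlow with h | h
      · left
        rw [← h]
        exact (hfil b hba.1 hβb).symm
      · right
        rw [← h]
        exact (hfil b hba.1 hβb).symm
    · left
      have h1 : b ⊆ a.filter (· < β) := by
        intro z hz
        refine Finset.mem_filter.mpr ⟨hba.1 hz, lt_of_le_of_ne (hle z (hba.1 hz)) ?_⟩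
        rintro rfl
        exact hβb hz
      by_contra hne
      refine hmin (a.filter (· < β)) ((hF β).sub ha').1
        (Finset.ssubset_iff_subset_ne.mpr ⟨h1, hne⟩) ?_
      refine ⟨Finset.filter_subset _ _, fun h => hnot a (h hβa)⟩

theorem ladderB_of_rec {F : W2 → Set (Finset W2)} (hF : ∀ α, GoodF F α) : LadderB := by
  classical
  choose cl hclK hcl hmin using LadB_least hF
  let L : Lattice {a : Finset W2 // a ∈ KK F} :=
    { (inferInstance : PartialOrder {a : Finset W2 // a ∈ KK F}) with
      sup := fun a b => ⟨cl (a.1 ∪ b.1), hclK _⟩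
      le_sup_left := fun a b => Finset.Subset.trans Finset.subset_union_left (hcl _)
      le_sup_right := fun a b => Finset.Subset.trans Finset.subset_union_right (hcl _)
      sup_le := fun a b c hac hbc => hmin _ _ c.2 (Finset.union_subset hac hbc)
      inf := fun a b => ⟨a.1 ∩ b.1, LadB_inter hF a.2 b.2⟩
      inf_le_left := fun a b => Finset.inter_subset_left (s₁ := a.1) (s₂ := b.1)
      inf_le_right := fun a b => Finset.inter_subset_right (s₁ := a.1) (s₂ := b.1)
      le_inf := fun a b c hab hac => by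
        exact Finset.subset_inter hab hac }
  have hle : ∀ a b : {a : Finset W2 // a ∈ KK F}, L.le a b ↔ a.1 ⊆ b.1 := fun a b => Iff.rfl
  have hlt : ∀ a b : {a : Finset W2 // a ∈ KK F}, L.lt a b ↔ a.1 ⊂ b.1 := fun a b => Iff.rfl
  have hW : #W2 = ℵ_ 2 := by rw [mk_ord_toType]
  have hinf : Infinite W2 := by
    rw [Cardinal.infinite_iff, hW]
    exact aleph0_le_aleph _
  refine ⟨_, L, ?_, ?_, ?_⟩
  · apply le_antisymm
    · calc #{a : Finset W2 // a ∈ KK F} ≤ #(Finset W2) := mk_le_of_injective Subtype.val_injective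
        _ = ℵ_ 2 := by rw [mk_finset_of_infinite, hW]
    · have hex : ∀ α : W2, ∃ c, c ∈ F α := fun α => by
        obtain ⟨c, hc, -⟩ := (hF α).cof ∅ (fun β hβ => absurd hβ (Finset.notMem_empty _))
        exact ⟨c, hc⟩
      choose c hc using hex
      have hinj : Function.Injective
          (fun α : W2 => (⟨insert α (c α), LadB_insert (hF α).sub (hc α)⟩ :
            {a : Finset W2 // a ∈ KK F})) := by
        intro α β hαβ
        have h1 : insert α (c α) = insert β (c β) := congrArg Subtype.val hαβ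
        have key : ∀ {γ δ : W2}, insert γ (c γ) = insert δ (c δ) → γ ≤ δ := by
          intro γ δ h
          have h2 : γ ∈ insert δ (c δ) := h ▸ Finset.mem_insert_self _ _
          rcases Finset.mem_insert.mp h2 with h3 | h3
          · exact h3.le
          · exact (((hF δ).sub (hc δ)).2 _ h3).le
        exact le_antisymm (key h1) (key h1.symm)
      rw [← hW]
      exact mk_le_of_injective hinj
  · intro p
    refine Set.Finite.of_injOn (f := Subtype.val) (t := (↑p.1.powerset : Set (Finset W2))) ?_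
      Subtype.val_injective.injOn (Finset.finite_toSet _)
    intro q hq
    exact Finset.mem_coe.mpr (Finset.mem_powerset.mpr hq)
  · intro p
    obtain ⟨s, hs, hcov⟩ := LadB_cov hF p.1 p.2
    have hsub : Subtype.val '' {q : {a : Finset W2 // a ∈ KK F} | q ⋖ p} ⊆ (s : Set (Finset W2)) := by
      rintro _ ⟨q, hq, rfl⟩
      refine Finset.mem_coe.mpr (hcov q.1 q.2 hq.1 fun c hc hqc hcp => ?_)
      exact hq.2 (c := ⟨c, hc⟩) hqc hcp
    calc {q : {a : Finset W2 // a ∈ KK F} | q ⋖ p}.encard
        = (Subtype.val '' {q : {a : Finset W2 // a ∈ KK F} | q ⋖ p}).encard :=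
          (Subtype.val_injective.encard_image _).symm
      _ ≤ (s : Set (Finset W2)).encard := Set.encard_le_encard hsub
      _ = s.card := Set.encard_coe_eq_coe_finsetCard s
      _ ≤ 3 := by exact_mod_cast hs

theorem ladderB_of_ma (hMA : MA1) : LadderB := by
  obtain ⟨F, hF⟩ := exists_rec hMA
  exact ladderB_of_rec hF

end Pool.Agent.EL
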