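import Pool.Agent.EL.Fam

set_option autoImplicit false

/-!
# EL/LadR: the recursion on `ω₂`

For `F : W2 → Set (Finset W2)` let `KK F = {a | ∀ β ∈ a, a.filter (· < β) ∈ F β}` and
`KA F α = {a ∈ KK F | ∀ β ∈ a, β < α}`.  Note that `KA F α` depends only on `F β`, `β < α`.

`exists_rec`: recursion on `α` (`WellFounded.fix`): `F α` is chosen such that
`F α ⊆ KA F α`, `∩`-closed, cofinal in the finite subsets of `Iio α`, `Two (F α)`.  This is possible
by `exists_fam` (`A = Iio α` has size `≤ ℵ₁`: `mk_Iio_lt`, `lt_aleph_two`), if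
`Cofam (Iio α) (KA F α)` holds:
* `∅ ∈ KA F α` trivially;
* `∩`: `(a ∩ b).filter (· < β) = a.filter (· < β) ∩ b.filter (· < β) ∈ F β`;
* cofinal: let `u ⊆ Iio α` be finite, nonempty, `β` its maximum; there is `c ∈ F β` with
  `u.erase β ⊆ c`; then `a = insert β c ∈ KA F α`: `a.filter (· < β) = c ∈ F β`, and for
  `γ ∈ c`, `a.filter (· < γ) = c.filter (· < γ) ∈ F γ`, as `c ∈ F β ⊆ KA F β`.
(Technically: `Good F α := F α ⊆ KA F α ∧ ...`; define `F` by `fix` with the choice of a family if
one exists, and prove `Good F α` by strong induction.)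

-/

namespace Pool.Agent.EL

open Cardinal Set

/-- The family of finite sets `a ⊆ ω₂` with `a ∩ β ∈ F β` for all `β ∈ a`. -/
def KK (F : W2 → Set (Finset W2)) : Set (Finset W2) := {a | ∀ β ∈ a, a.filter (· < β) ∈ F β}

/-- The elements of `KK F` contained in `α`. -/
def KA (F : W2 → Set (Finset W2)) (α : W2) : Set (Finset W2) := {a ∈ KK F | ∀ β ∈ a, β < α}

/-- The properties of the recursively constructed families. -/
structure GoodF (F : W2 → Set (Finset W2)) (α : W2) : Prop where
  sub : F α ⊆ KA F α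
  inter : ∀ a ∈ F α, ∀ b ∈ F α, a ∩ b ∈ F α
  cof : ∀ u : Finset W2, (∀ β ∈ u, β < α) → ∃ c ∈ F α, u ⊆ c
  two : Two (F α)

private def LadR_P (K : Set (Finset W2)) (α : W2) (S : Set (Finset W2)) : Prop :=
  S ⊆ K ∧ (∀ a ∈ S, ∀ b ∈ S, a ∩ b ∈ S) ∧
    (∀ u : Finset W2, (∀ β ∈ u, β < α) → ∃ c ∈ S, u ⊆ c) ∧ Two S

private lemma LadR_congr {F F' : W2 → Set (Finset W2)} {α : W2} (h : ∀ β < α, F β = F' β) :
    KA F α = KA F' α := by
  ext a
  constructor
  · rintro ⟨h1, h2⟩
    refine ⟨fun β hβ => ?_, h2⟩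
    rw [← h β (h2 β hβ)]
    exact h1 β hβ
  · rintro ⟨h1, h2⟩
    refine ⟨fun β hβ => ?_, h2⟩
    rw [h β (h2 β hβ)]
    exact h1 β hβ

/-- `insert β c ∈ KA F α` for `c ∈ F β`, `β < α`. -/
lemma insert_mem_KA {F : W2 → Set (Finset W2)} {α β : W2} (hβ : β < α) (hF : F β ⊆ KA F β)
    {c : Finset W2} (hc : c ∈ F β) : insert β c ∈ KA F α := by
  have hcK := hF hc
  refine ⟨fun γ hγ => ?_, fun γ hγ => ?_⟩
  · rcases Finset.mem_insert.mp hγ with rfl | hγc
    · have : (insert γ c).filter (· < γ) = c := by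
        ext z
        simp only [Finset.mem_filter, Finset.mem_insert]
        constructor
        · rintro ⟨rfl | hz, hlt⟩
          · exact absurd hlt (lt_irrefl _)
          · exact hz
        · intro hz
          exact ⟨Or.inr hz, hcK.2 z hz⟩
      rw [this]
      exact hc
    · have hγβ := hcK.2 γ hγc
      have : (insert β c).filter (· < γ) = c.filter (· < γ) := by
        ext z
        simp only [Finset.mem_filter, Finset.mem_insert]
        constructor
        · rintro ⟨rfl | hz, hlt⟩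
          · exact absurd (hlt.trans hγβ) (lt_irrefl _)
          · exact ⟨hz, hlt⟩
        · rintro ⟨hz, hlt⟩
          exact ⟨Or.inr hz, hlt⟩
      rw [this]
      exact hcK.1 γ hγc
  · rcases Finset.mem_insert.mp hγ with rfl | hγc
    · exact hβ
    · exact (hcK.2 γ hγc).trans hβ

private lemma LadR_cofam {F : W2 → Set (Finset W2)} {α : W2} (ih : ∀ β < α, GoodF F β) :
    Cofam (Iio α) (KA F α) := by
  refine ⟨fun c hc z hz => hc.2 z hz, ⟨fun β hβ => ?_, fun β hβ => ?_⟩, fun a ha b hb => ?_,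
    fun u hu => ?_⟩
  · exact absurd hβ (Finset.notMem_empty _)
  · exact absurd hβ (Finset.notMem_empty _)
  · refine ⟨fun β hβ => ?_, fun β hβ => ha.2 β (Finset.mem_inter.mp hβ).1⟩
    rw [Finset.filter_inter_distrib]
    exact (ih β (ha.2 β (Finset.mem_inter.mp hβ).1)).inter _ (ha.1 β (Finset.mem_inter.mp hβ).1) _
      (hb.1 β (Finset.mem_inter.mp hβ).2)
  · rcases u.eq_empty_or_nonempty with hue | hune
    · refine ⟨∅, ⟨fun β hβ => absurd hβ (Finset.notMem_empty _),
        fun β hβ => absurd hβ (Finset.notMem_empty _)⟩, ?_⟩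
      rw [hue]
    · have hβu := u.max'_mem hune
      have hβα : u.max' hune < α := hu hβu
      obtain ⟨c, hc, huc⟩ := (ih _ hβα).cof (u.erase (u.max' hune)) (fun γ hγ => by
        rw [Finset.mem_erase] at hγ
        exact lt_of_le_of_ne (u.le_max' γ hγ.2) hγ.1)
      refine ⟨insert (u.max' hune) c, insert_mem_KA hβα (ih _ hβα).sub hc, fun z hz => ?_⟩
      by_cases hzm : z = u.max' hune
      · rw [hzm]; exact Finset.mem_insert_self _ _
      · exact Finset.mem_insert_of_mem (huc (Finset.mem_erase.mpr ⟨hzm, hz⟩))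

theorem exists_rec (hMA : MA1) : ∃ F : W2 → Set (Finset W2), ∀ α, GoodF F α := by
  classical
  let ext : (α : W2) → ((β : W2) → β < α → Set (Finset W2)) → W2 → Set (Finset W2) :=
    fun α r β => if h : β < α then r β h else ∅
  let step : (α : W2) → ((β : W2) → β < α → Set (Finset W2)) → Set (Finset W2) := fun α r =>
    if h : ∃ S, LadR_P (KA (ext α r) α) α S then h.choose else ∅
  let F : W2 → Set (Finset W2) := (wellFounded_lt (α := W2)).fix step
  have hF : ∀ α, F α = step α (fun β _ => F β) := fun α =>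
    (wellFounded_lt (α := W2)).fix_eq step α
  refine ⟨F, fun α => ?_⟩
  induction α using WellFoundedLT.induction with
  | ind α ih =>
    have hK : KA (ext α (fun β _ => F β)) α = KA F α := by
      refine LadR_congr fun β hβ => ?_
      show (if h : β < α then F β else ∅) = F β
      rw [dif_pos hβ]
    have hex : ∃ S, LadR_P (KA (ext α (fun β _ => F β)) α) α S := by
      rw [hK]
      have hA : #(Iio α) ≤ ℵ_ 1 := by
        have h1 : #(Iio α) < ℵ_ 2 := by simpa using mk_Iio_lt α
        exact lt_aleph_two.mp h1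
      obtain ⟨S, hS1, hS2, hS3, hS4⟩ := exists_fam hMA hA (LadR_cofam ih)
      exact ⟨S, hS1, hS2, fun u hu => hS3 u (fun z hz => hu z hz), hS4⟩
    have hFα : LadR_P (KA (ext α (fun β _ => F β)) α) α (F α) := by
      have h1 : F α = hex.choose := by
        rw [hF α]
        exact dif_pos hex
      rw [h1]
      exact hex.choose_spec
    rw [hK] at hFα
    exact ⟨hFα.1, hFα.2.1, hFα.2.2.1, hFα.2.2.2⟩

end Pool.Agent.EL
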