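import Pool.Agent.EL.LatA

set_option autoImplicit false

/-!
# EL/LatB: small ideals and the chain of length `ω₁`

* `exists_idl`: take `I = ⋃ n, s n` with `s 0 = s`,
  `s (n+1) = s n ∪ ⋃ (p : s n × s n), Iic (p.1 ⊔ p.2)`, increasing, each of size `≤ ℵ₁`
  (`mk_iUnion_le1`, `mk_countable_le1`; `#(s n × s n) ≤ ℵ₁ * ℵ₁ = ℵ₁`).
* `small_S3`: `exists_idl` for `s ∪ range c` (`mk_union_le1`, `mk_range_le1`).
* `exists_strictMono`: take a set `s` of size `ℵ₁` (`#L = ℵ₂`; `le_mk_iff_exists_set`), an ideal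
  `I ⊇ s` of size `≤ ℵ₁`, so `I` is uncountable, and `x ∉ I` (`#L = ℵ₂ > ℵ₁`).
  `Λ = {x ⊔ a | a ∈ I}` is a chain by `lemma1`.  `I ⊆ ⋃ {Iic u | u ∈ Λ}`, so for each countable
  `t ⊆ Λ` there is `a ∈ I` with `a ∉ ⋃ {Iic u | u ∈ t}`, so `x ⊔ a ∈ Λ` is not `≤` any `u ∈ t`, hence
  `> u` for all `u ∈ t`.  Use `exists_seq` with
  `R S z = (z ∈ Λ ∧ (S ⊆ Λ → ∀ u ∈ S, u < z))`.
-/

namespace Pool.Agent.EL

open Cardinal Set

variable {L : Type} [Lattice L]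

theorem exists_idl (hcnt : ∀ p : L, (Iic p).Countable) {s : Set L} (hs : #s ≤ ℵ_ 1) :
    ∃ I : Set L, IsIdl I ∧ s ⊆ I ∧ #I ≤ ℵ_ 1 := by
  classical
  let st : Set L → Set L := fun t => t ∪ ⋃ p : t × t, Iic (p.1.1 ⊔ p.2.1)
  let x : ℕ → Set L := fun n => st^[n] s
  have hx : ∀ n, x (n + 1) = st (x n) := fun n => Function.iterate_succ_apply' st n s
  have hmono : Monotone x := monotone_nat_of_le_succ fun n => by
    rw [hx]; exact subset_union_left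
  have hcard : ∀ n, #(x n) ≤ ℵ_ 1 := by
    intro n
    induction n with
    | zero => exact hs
    | succ n ih =>
      rw [hx]
      refine mk_union_le1 ih (mk_iUnion_le1 ?_ _ fun p => mk_countable_le1 (hcnt _))
      rw [mk_prod, lift_id]
      calc #(x n) * #(x n) ≤ ℵ_ 1 * ℵ_ 1 := mul_le_mul' ih ih
        _ = ℵ_ 1 := mul_eq_self (aleph0_le_aleph 1)
  have hstep : ∀ n a b c, a ∈ x n → b ∈ x n → c ≤ a ⊔ b → c ∈ x (n + 1) := by
    intro n a b c ha hb hc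
    rw [hx]
    exact Or.inr (mem_iUnion.mpr ⟨(⟨a, ha⟩, ⟨b, hb⟩), hc⟩)
  refine ⟨⋃ n, x n, ⟨fun a b hab hb => ?_, fun a b ha hb => ?_⟩, subset_iUnion x 0,
    mk_iUnion_le1 ((mk_le_aleph0 (α := ℕ)).trans (aleph0_le_aleph 1)) x hcard⟩
  · obtain ⟨n, hn⟩ := mem_iUnion.mp hb
    exact mem_iUnion.mpr ⟨n + 1, hstep n b b a hn hn (hab.trans le_sup_left)⟩
  · obtain ⟨n, hn⟩ := mem_iUnion.mp ha
    obtain ⟨m, hm⟩ := mem_iUnion.mp hb
    exact mem_iUnion.mpr ⟨max n m + 1, hstep (max n m) a b _ (hmono (le_max_left n m) hn)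
      (hmono (le_max_right n m) hm) le_rfl⟩

theorem small_S3 (h : LadCtx L) (c : W1 → L) {s : Set L} (hs : #s ≤ ℵ_ 1) :
    ∃ I, Small c I ∧ s ⊆ I := by
  obtain ⟨I, h1, h2, h3⟩ := exists_idl h.cnt (mk_union_le1 hs (mk_range_le1 c))
  exact ⟨I, ⟨h1, subset_union_right.trans h2, h3⟩, subset_union_left.trans h2⟩

theorem exists_strictMono (h : LadCtx L) : ∃ c : W1 → L, StrictMono c := by
  classical
  have h1 : (ℵ_ 1 : Cardinal.{0}) ≤ #L := by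
    rw [h.card]
    exact (lt_aleph_two.mpr le_rfl).le
  obtain ⟨s, hs⟩ := le_mk_iff_exists_set.mp h1
  obtain ⟨I, hI, hsI, hIc⟩ := exists_idl h.cnt hs.le
  have hInc : ¬ I.Countable := by
    intro hc
    have h2 : #s ≤ ℵ₀ := le_aleph0_iff_set_countable.mpr (hc.mono hsI)
    rw [hs, ← not_lt] at h2
    exact h2 (aleph0_lt_aleph_one)
  have hxe : ∃ x, x ∉ I := by
    by_contra hcon
    push Not at hcon
    have h2 : I = Set.univ := eq_univ_of_forall hcon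
    rw [h2, mk_univ, h.card] at hIc
    exact absurd (lt_aleph_two.mpr hIc) (lt_irrefl _)
  obtain ⟨x, hx⟩ := hxe
  have hIne : I.Nonempty := by
    rw [nonempty_iff_ne_empty]
    rintro rfl
    exact hInc countable_empty
  let Λ : Set L := {z | ∃ a ∈ I, z = x ⊔ a}
  obtain ⟨g, hg⟩ := exists_seq (fun S z => z ∈ Λ ∧ (S ⊆ Λ → ∀ u ∈ S, u < z)) (by
    intro S hS
    by_cases hSΛ : S ⊆ Λ
    · have h2 : (⋃ u ∈ S, Iic u).Countable := hS.biUnion fun u _ => h.cnt u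
      have h3 : ¬ I ⊆ ⋃ u ∈ S, Iic u := fun h4 => hInc (h2.mono h4)
      rw [not_subset] at h3
      obtain ⟨a, ha, ha'⟩ := h3
      refine ⟨x ⊔ a, ⟨a, ha, rfl⟩, fun _ u hu => ?_⟩
      obtain ⟨b, hb, rfl⟩ := hSΛ hu
      have h5 : ¬ x ⊔ a ≤ x ⊔ b := fun h6 => ha' (mem_biUnion hu (le_sup_right.trans h6))
      rcases lemma1 h.j3 hI hx ha hb with h6 | h6
      · exact absurd h6 h5
      · exact lt_of_le_not_ge h6 h5
    · obtain ⟨a, ha⟩ := hIne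
      exact ⟨x ⊔ a, ⟨a, ha, rfl⟩, fun h3 => absurd h3 hSΛ⟩)
  refine ⟨g, fun i j hij => ?_⟩
  have h2 : g '' Iio j ⊆ Λ := by
    rintro _ ⟨k, -, rfl⟩
    exact (hg k).1
  exact (hg j).2 h2 (g i) ⟨i, hij, rfl⟩

end Pool.Agent.EL
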