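import Pool.Agent.EL.Basic

set_option autoImplicit false

/-!
# EL/LatA: ideals of a `(2, ℵ₁)`-ladder

* `lemma1`: let `u = x ⊔ a`, `v = x ⊔ b`, `w = a ⊔ b`, `t = x ⊔ a ⊔ b`.  If `u, v` were
  incomparable then `![u, v, w]`, `t` would violate `J3Free`: all pairwise joins are `t`;
  `u ≠ t`, `v ≠ t` since `u, v` are incomparable, `w ∈ I`, while `u, v, t ∉ I` (they are `≥ x`).
* `small_S1`: if `x ⊔ c ξ ≤ x ⊔ y` for all `ξ` then the uncountable range of `c` is contained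
  in the countable set `Iic (x ⊔ y)`.  So there is `ξ` with `¬ x ⊔ c ξ ≤ x ⊔ y`, and by `lemma1`
  `y ≤ x ⊔ y ≤ x ⊔ c ξ`.
* `small_S2`: if `y ∈ I ∖ I'`, `y' ∈ I' ∖ I`, then by `small_S1` (`x := y ∉ I'`, `y' ∈ I'`)
  `y' ≤ y ⊔ c ξ ∈ I`.
* `small_S4`: the family is linearly ordered by `⊆` (`small_S2`), so the union is an ideal;
  `mk_iUnion_le1`.
* `small_S5`: `#L = ℵ₂ > ℵ₁` (`lt_aleph_two`).
-/

namespace Pool.Agent.EL

open Cardinal Set

/-- The hypotheses on a `(2, ℵ₁)`-ladder of cardinality `ℵ₂`. -/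
structure LadCtx (L : Type) [Lattice L] : Prop where
  card : #L = ℵ_ 2
  j3 : J3Free L
  cnt : ∀ p : L, (Iic p).Countable

/-- Lower sets closed under joins (possibly empty). -/
def IsIdl {L : Type} [Lattice L] (I : Set L) : Prop :=
  (∀ a b, a ≤ b → b ∈ I → a ∈ I) ∧ ∀ a b, a ∈ I → b ∈ I → a ⊔ b ∈ I

/-- Small ideals: ideals of size at most `ℵ₁` containing the chain `c`. -/
def Small {L : Type} [Lattice L] (c : W1 → L) (I : Set L) : Prop :=
  IsIdl I ∧ range c ⊆ I ∧ #I ≤ ℵ_ 1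

/-- Recursion along `ω₁`. -/
theorem exists_seq {Z : Type} (R : Set Z → Z → Prop)
    (h : ∀ S : Set Z, S.Countable → ∃ z, R S z) : ∃ g : W1 → Z, ∀ i, R (g '' Iio i) (g i) := by
  classical
  have hc : ∀ (i : W1) (r : (j : W1) → j < i → Z),
      (range fun j : Iio i => r j.1 j.2).Countable := by
    intro i r
    have : Countable (Iio i) := (countable_Iio i).to_subtype
    exact countable_range _
  let step : (i : W1) → ((j : W1) → j < i → Z) → Z := fun i r =>
    (h (range fun j : Iio i => r j.1 j.2) (hc i r)).choose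
  let g : W1 → Z := (wellFounded_lt (α := W1)).fix step
  have hg : ∀ i, g i = step i (fun j _ => g j) := fun i =>
    (wellFounded_lt (α := W1)).fix_eq step i
  refine ⟨g, fun i => ?_⟩
  have hspec := (h (range fun j : Iio i => g j.1) (hc i (fun j _ => g j))).choose_spec
  have hr : (range fun j : Iio i => g j.1) = g '' Iio i := by
    rw [image_eq_range]
  have hgi : g i = (h (range fun j : Iio i => g j.1) (hc i (fun j _ => g j))).choose := hg i
  rw [← hgi] at hspec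
  rw [hr] at hspec
  exact hspec

variable {L : Type} [Lattice L]

theorem lemma1 (hj : J3Free L) {I : Set L} (hI : IsIdl I) {x : L} (hx : x ∉ I) {a b : L}
    (ha : a ∈ I) (hb : b ∈ I) : x ⊔ a ≤ x ⊔ b ∨ x ⊔ b ≤ x ⊔ a := by
  by_contra hcon
  push Not at hcon
  obtain ⟨h1, h2⟩ := hcon
  apply hj
  have hab : a ⊔ b ∈ I := hI.2 a b ha hb
  have hnot : ∀ y, x ≤ y → y ∉ I := fun y hxy hy => hx (hI.1 x y hxy hy)
  have e1 : (x ⊔ a) ⊔ (x ⊔ b) = x ⊔ a ⊔ b := by
    apply le_antisymm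
    · exact sup_le le_sup_left (sup_le (le_sup_left.trans le_sup_left) le_sup_right)
    · exact sup_le le_sup_left (le_sup_right.trans le_sup_right)
  have e2 : (x ⊔ a) ⊔ (a ⊔ b) = x ⊔ a ⊔ b := by
    apply le_antisymm
    · exact sup_le le_sup_left (sup_le (le_sup_right.trans le_sup_left) le_sup_right)
    · exact sup_le le_sup_left (le_sup_right.trans le_sup_right)
  have e3 : (x ⊔ b) ⊔ (a ⊔ b) = x ⊔ a ⊔ b := by
    apply le_antisymm
    · exact sup_le (sup_le (le_sup_left.trans le_sup_left) le_sup_right)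
        (sup_le (le_sup_right.trans le_sup_left) le_sup_right)
    · exact sup_le (sup_le (le_sup_left.trans le_sup_left) (le_sup_left.trans le_sup_right))
        (le_sup_right.trans le_sup_right)
  have n1 : x ⊔ a ≠ x ⊔ a ⊔ b := fun he => h2 (by
    rw [he]; exact sup_le (le_sup_left.trans le_sup_left) le_sup_right)
  have n2 : x ⊔ b ≠ x ⊔ a ⊔ b := fun he => h1 (by rw [he]; exact le_sup_left)
  have n3 : a ⊔ b ≠ x ⊔ a ⊔ b := fun he =>
    hnot _ (le_sup_left.trans le_sup_left) (he ▸ hab)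
  have m1 : x ⊔ a ≠ x ⊔ b := fun he => h1 he.le
  have m2 : x ⊔ a ≠ a ⊔ b := fun he => hnot _ le_sup_left (he.symm ▸ hab : x ⊔ a ∈ I)
  have m3 : x ⊔ b ≠ a ⊔ b := fun he => hnot _ le_sup_left (he.symm ▸ hab : x ⊔ b ∈ I)
  refine ⟨![x ⊔ a, x ⊔ b, a ⊔ b], x ⊔ a ⊔ b, ?_, ?_, ?_⟩
  · intro i j hij
    fin_cases i <;> fin_cases j
    · rfl
    · exact absurd hij m1
    · exact absurd hij m2
    · exact absurd hij m1.symm
    · rfl
    · exact absurd hij m3
    · exact absurd hij m2.symm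
    · exact absurd hij m3.symm
    · rfl
  · intro i
    fin_cases i
    · exact n1
    · exact n2
    · exact n3
  · intro i j hij
    fin_cases i <;> fin_cases j
    · exact absurd rfl hij
    · exact e1
    · exact e2
    · exact (sup_comm _ _).trans e1
    · exact absurd rfl hij
    · exact e3
    · exact (sup_comm _ _).trans e2
    · exact (sup_comm _ _).trans e3
    · exact absurd rfl hij

theorem small_S1 (h : LadCtx L) {c : W1 → L} (hc : StrictMono c) {I : Set L} (hI : IsIdl I)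
    (hcI : range c ⊆ I) {x y : L} (hx : x ∉ I) (hy : y ∈ I) : ∃ ξ, y ≤ x ⊔ c ξ := by
  by_contra hcon
  push Not at hcon
  have h1 : ∀ ξ, c ξ ≤ x ⊔ y := by
    intro ξ
    rcases lemma1 h.j3 hI hx hy (hcI ⟨ξ, rfl⟩) with h2 | h2
    · exact absurd (le_sup_right.trans h2) (hcon ξ)
    · exact le_sup_right.trans h2
  apply not_countable_W1
  have h2 : (univ : Set W1) ⊆ c ⁻¹' (Iic (x ⊔ y)) := fun ξ _ => h1 ξ
  exact ((h.cnt (x ⊔ y)).preimage_of_injOn hc.injective.injOn).mono h2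

theorem small_S2 (h : LadCtx L) {c : W1 → L} (hc : StrictMono c) {I I' : Set L}
    (hI : Small c I) (hI' : Small c I') : I ⊆ I' ∨ I' ⊆ I := by
  by_contra hcon
  push Not at hcon
  obtain ⟨h1, h2⟩ := hcon
  rw [not_subset] at h1 h2
  obtain ⟨y, hy, hy1⟩ := h1
  obtain ⟨v, hv, hv1⟩ := h2
  obtain ⟨ξ, hξ⟩ := small_S1 h hc hI'.1 hI'.2.1 hy1 hv
  exact hv1 (hI.1.1 _ _ hξ (hI.1.2 _ _ hy (hI.2.1 ⟨ξ, rfl⟩)))

theorem small_S4 (h : LadCtx L) {c : W1 → L} (hc : StrictMono c) {ι : Type} [Nonempty ι]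
    (hι : #ι ≤ ℵ_ 1) (I : ι → Set L) (hI : ∀ k, Small c (I k)) : Small c (⋃ k, I k) := by
  refine ⟨⟨fun a b hab hb => ?_, fun a b ha hb => ?_⟩, ?_, mk_iUnion_le1 hι I fun k => (hI k).2.2⟩
  · obtain ⟨k, hk⟩ := mem_iUnion.mp hb
    exact mem_iUnion.mpr ⟨k, (hI k).1.1 a b hab hk⟩
  · obtain ⟨k, hk⟩ := mem_iUnion.mp ha
    obtain ⟨k', hk'⟩ := mem_iUnion.mp hb
    rcases small_S2 h hc (hI k) (hI k') with h1 | h1
    · exact mem_iUnion.mpr ⟨k', (hI k').1.2 a b (h1 hk) hk'⟩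
    · exact mem_iUnion.mpr ⟨k, (hI k).1.2 a b hk (h1 hk')⟩
  · exact (hI (Classical.arbitrary ι)).2.1.trans (subset_iUnion I _)

theorem small_S5 (h : LadCtx L) {c : W1 → L} {I : Set L} (hI : Small c I) : ∃ x, x ∉ I := by
  by_contra hcon
  push Not at hcon
  have h1 : I = Set.univ := eq_univ_of_forall hcon
  have h2 := hI.2.2
  rw [h1, mk_univ, h.card] at h2
  exact absurd (lt_aleph_two.mpr le_rfl) (not_lt.mpr h2)

end Pool.Agent.EL
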