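import Pool.Agent.EL.Lat

set_option autoImplicit false

/-!
# EL/NoGap: the final contradiction
-/

namespace Pool.Agent.EL

open Cardinal Set

variable {L : Type} [Lattice L]

theorem no_gap (h : LadCtx L) {c : W1 → L} (hc : StrictMono c)
    (hG : ∀ g : W1 → W1, ∃ (z : L) (H : W1 → W1),
      ∀ i, ClP H i → ∀ e, z ≤ e → (∀ j < i, c j ≤ e) → c (g i) ≤ e) : False := by
  classical
  -- the next closure point
  have hnx : ∀ (H : W1 → W1) (i : W1), ∃ j, i < j ∧ ClP H j ∧ ∀ k, i < k → ClP H k → j ≤ k := by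
    intro H i
    have hne : {j : W1 | i < j ∧ ClP H j}.Nonempty := exists_clP H i
    refine ⟨wellFounded_lt.min _ hne, (wellFounded_lt.min_mem _ hne).1,
      (wellFounded_lt.min_mem _ hne).2, fun k hk1 hk2 => ?_⟩
    by_contra hcon
    exact wellFounded_lt.not_lt_min {j : W1 | i < j ∧ ClP H j} ⟨hk1, hk2⟩ (not_le.mp hcon)
  choose nx hnx1 hnx2 hnx3 using hnx
  choose zz HH hHH using hG
  let st : (W1 → W1) → W1 → W1 := fun H j => max (H j) (HH (nx H) j)
  let Hs : ℕ → W1 → W1 := fun n => st^[n] id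
  have hHs : ∀ n, Hs (n + 1) = st (Hs n) := fun n => Function.iterate_succ_apply' st n id
  let z : ℕ → L := fun n => zz (nx (Hs n))
  -- (a)
  have ha1 : ∀ n i, ClP (Hs (n + 1)) i → ClP (Hs n) i := fun n i hi =>
    ClP.mono (h := Hs (n + 1)) (g := Hs n) (fun j => by rw [hHs]; exact le_max_left _ _) hi
  have ha : ∀ n m, n ≤ m → ∀ i, ClP (Hs m) i → ClP (Hs n) i := by
    intro n m hnm
    induction hnm with
    | refl => exact fun i hi => hi
    | step _ ih => exact fun i hi => ih i (ha1 _ i hi)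
  -- (b)
  have hb : ∀ n i, ClP (Hs (n + 1)) i → ∀ e, z n ≤ e → (∀ j < i, c j ≤ e) →
      c (nx (Hs n) i) ≤ e := by
    intro n i hi e he1 he2
    refine hHH (nx (Hs n)) i ?_ e he1 he2
    exact ClP.mono (h := Hs (n + 1)) (g := HH (nx (Hs n)))
      (fun j => by rw [hHs]; exact le_max_right _ _) hi
  -- the point w
  obtain ⟨I, hI, hzI⟩ := small_S3 h c (s := range z) (mk_countable_le1 (countable_range z))
  obtain ⟨x, hx⟩ := small_S5 h hI
  have hξ : ∀ n, ∃ ξ, z n ≤ x ⊔ c ξ := fun n =>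
    small_S1 h hc hI.1 hI.2.1 hx (hzI ⟨n, rfl⟩)
  choose ξ hξ using hξ
  obtain ⟨G, hG'⟩ := exists_sup_fun Hs
  obtain ⟨o, -⟩ := exists_bot1
  obtain ⟨d0, -, hd0⟩ := exists_clP G o
  let D : Set W1 := {i | ∀ n, ClP (Hs n) i}
  have hd0D : d0 ∈ D := fun n => hd0.mono fun i => (hG' n i).le
  obtain ⟨ν, hν⟩ := bound1 (s := insert d0 (range ξ)) ((countable_range ξ).insert d0)
  have hνd : d0 < ν := hν d0 (mem_insert _ _)
  have hνξ : ∀ n, ξ n < ν := fun n => hν _ (mem_insert_of_mem _ ⟨n, rfl⟩)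
  set w : L := x ⊔ c ν with hw
  have hzw : ∀ n, z n ≤ w := fun n =>
    (hξ n).trans (sup_le_sup_left (hc.monotone (hνξ n).le) x)
  have hcount : {η : W1 | c η ≤ w}.Countable := by
    have : {η : W1 | c η ≤ w} = c ⁻¹' (Iic w) := rfl
    rw [this]
    exact (h.cnt w).preimage_of_injOn hc.injective.injOn
  obtain ⟨τ, hτ⟩ := seg1 hcount (fun α hα β hβ => le_trans (hc.monotone hβ.le) hα)
  have hντ : ν < τ := (hτ ν).mp le_sup_right
  -- the largest element of D below τ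
  obtain ⟨i, hi1, hi2⟩ := lub1 (s := {d | d ∈ D ∧ d ≤ τ})
    ((countable_Iic τ).mono fun d hd => hd.2)
  have hiτ : i ≤ τ := by
    by_contra hcon
    obtain ⟨a, ha', ha''⟩ := hi2 τ (not_le.mp hcon)
    exact absurd ha'.2 (not_le.mpr ha'')
  have hiD : i ∈ D := by
    by_contra hcon
    have hlt : ∀ d, d ∈ D → d ≤ τ → d < i := fun d hd hdτ =>
      lt_of_le_of_ne (hi1 d ⟨hd, hdτ⟩) (fun he => hcon (he ▸ hd))
    refine hcon fun n => ⟨⟨d0, hlt d0 hd0D (hνd.trans hντ).le⟩, fun j hj => ?_⟩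
    obtain ⟨a, ⟨haD, haτ⟩, hja⟩ := hi2 j hj
    exact ((haD n).2 j hja).trans (hlt a haD haτ)
  have hcj : ∀ j < i, c j ≤ w := fun j hj => (hτ j).mpr (hj.trans_le hiτ)
  let s : ℕ → W1 := fun n => nx (Hs n) i
  have hsτ : ∀ n, s n < τ := fun n => (hτ _).mp (hb n i (hiD (n + 1)) w (hzw n) hcj)
  have hsmono : ∀ n m, n ≤ m → s n ≤ s m := fun n m hnm =>
    hnx3 (Hs n) i (s m) (hnx1 (Hs m) i) (ha n m hnm _ (hnx2 (Hs m) i))
  obtain ⟨t, ht1, ht2⟩ := lub1 (countable_range s)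
  have hit : i < t := (hnx1 (Hs 0) i).trans_le (ht1 _ ⟨0, rfl⟩)
  have htτ : t ≤ τ := by
    by_contra hcon
    obtain ⟨_, ⟨n, rfl⟩, hn⟩ := ht2 τ (not_le.mp hcon)
    exact absurd (hsτ n) (not_lt.mpr hn.le)
  have htD : t ∈ D := by
    by_cases hex : ∃ n, s n = t
    · obtain ⟨n, hn⟩ := hex
      intro m
      have h1 : s (max n m) = t :=
        le_antisymm (ht1 _ ⟨_, rfl⟩) (hn ▸ hsmono n _ (le_max_left n m))
      have h2 : ClP (Hs (max n m)) t := h1 ▸ hnx2 (Hs (max n m)) i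
      exact ha m _ (le_max_right n m) t h2
    · push Not at hex
      have hlt : ∀ n, s n < t := fun n => lt_of_le_of_ne (ht1 _ ⟨n, rfl⟩) (hex n)
      refine fun m => ⟨⟨s 0, hlt 0⟩, fun j hj => ?_⟩
      obtain ⟨_, ⟨n, rfl⟩, hn⟩ := ht2 j hj
      have h1 : j < s (max n m) := hn.trans_le (hsmono n _ (le_max_left n m))
      have h2 : ClP (Hs m) (s (max n m)) := ha m _ (le_max_right n m) _ (hnx2 (Hs (max n m)) i)
      exact (h2.2 j h1).trans (hlt _)
  exact absurd (hi1 t ⟨htD, htτ⟩) (not_le.mpr hit)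

end Pool.Agent.EL
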