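import Pool.Agent.EL.Gap
import Pool.Agent.EL.NoGap

set_option autoImplicit false

namespace Pool.Agent.EL

open Cardinal Set

theorem not_ladderA (hMM : MartinsMaximum) : ¬ LadderA := by
  rintro ⟨L, _, h1, h2, h3⟩
  have h : LadCtx L := ⟨h1, h2, fun p => by
    rw [← le_aleph0_iff_set_countable, ← lt_aleph_one_iff]
    exact h3 p⟩
  obtain ⟨c, hc⟩ := exists_strictMono h
  exact no_gap h hc fun g => gap hMM h hc g

end Pool.Agent.EL
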