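import Pool.Agent.EL.Lat

set_option autoImplicit false

/-!
# EL/Tee: the two combinatorial lemmas on the ideals `Γ n`
-/

namespace Pool.Agent.EL

open Cardinal Set

variable {L : Type} [Lattice L]

private lemma tee_mono {Γ : ℕ → Set L} (hmono : ∀ n, Γ n ⊆ Γ (n + 1)) : Monotone Γ :=
  monotone_nat_of_le_succ hmono

theorem tee1 (hj : J3Free L) {c : W1 → L} {Γ : ℕ → Set L} (hΓ : ∀ n, Small c (Γ n))
    (hmono : ∀ n, Γ n ⊆ Γ (n + 1)) {k : W1} {e e' : L} (he' : ¬ c k ≤ e')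
    (h : ∀ n, ∃ y, y ≤ e ∧ y ≤ e' ∧ y ∉ Γ n) :
    ∀ y m, y ∈ Γ m → y ≤ e' → y ≤ e ⊔ c k := by
  have hm := tee_mono hmono
  intro y m hy hye
  have hU : IsIdl (⋃ n, Γ n) := by
    refine ⟨fun a b hab hb => ?_, fun a b ha hb => ?_⟩
    · obtain ⟨n, hn⟩ := mem_iUnion.mp hb
      exact mem_iUnion.mpr ⟨n, (hΓ n).1.1 a b hab hn⟩
    · obtain ⟨n, hn⟩ := mem_iUnion.mp ha
      obtain ⟨n', hn'⟩ := mem_iUnion.mp hb
      exact mem_iUnion.mpr ⟨max n n', (hΓ _).1.2 a b (hm (le_max_left n n') hn)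
        (hm (le_max_right n n') hn')⟩
  have hf : e ⊓ e' ∉ ⋃ n, Γ n := by
    intro hmem
    obtain ⟨n, hn⟩ := mem_iUnion.mp hmem
    obtain ⟨v, hv1, hv2, hv3⟩ := h n
    exact hv3 ((hΓ n).1.1 v _ (le_inf hv1 hv2) hn)
  have hyU : y ∈ ⋃ n, Γ n := mem_iUnion.mpr ⟨m, hy⟩
  have hkU : c k ∈ ⋃ n, Γ n := mem_iUnion.mpr ⟨0, (hΓ 0).2.1 ⟨k, rfl⟩⟩
  rcases lemma1 hj hU hf hyU hkU with h1 | h1
  · exact (le_sup_right.trans h1).trans (sup_le_sup_right inf_le_left _)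
  · exact absurd ((le_sup_right.trans h1).trans (sup_le inf_le_right hye)) he'

theorem tee2 (h : LadCtx L) {c : W1 → L} {Γ : ℕ → Set L} (hΓ : ∀ n, Small c (Γ n))
    (hmono : ∀ n, Γ n ⊆ Γ (n + 1)) {Good : Set (List L)}
    (hunc : ∀ n, ∀ s ∈ Good, (∀ y ∈ s, y ∈ Γ n) →
        ¬ {ζ | s ++ [ζ] ∈ Good ∧ ζ ∈ Γ (n + 1) ∧ ζ ∉ Γ n}.Countable)
    (k : W1) {s : List L} (hs : s ∈ Good) {m : ℕ} (hsm : ∀ y ∈ s, y ∈ Γ m) (n : ℕ) :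
    ∃ W : Set L, W.Countable ∧ W.Nonempty ∧
      (∀ w ∈ W, s ++ [w] ∈ Good ∧ (∃ m, w ∈ Γ m) ∧ w ∉ Γ n) ∧
      ∀ e, ¬ c k ≤ e → ∃ w ∈ W, ¬ w ≤ e := by
  have hm := tee_mono hmono
  set N := max m n with hN
  have hsN : ∀ j, ∀ y ∈ s, y ∈ Γ (N + j) := fun j y hy =>
    hm ((le_max_left m n).trans (Nat.le_add_right _ _)) (hsm y hy)
  have hw : ∀ j, ∃ w, s ++ [w] ∈ Good ∧ w ∈ Γ (N + j + 1) ∧ w ∉ Γ (N + j) := by
    intro j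
    by_contra hcon
    push Not at hcon
    apply hunc (N + j) s hs (hsN j)
    have : {ζ | s ++ [ζ] ∈ Good ∧ ζ ∈ Γ (N + j + 1) ∧ ζ ∉ Γ (N + j)} = ∅ := by
      ext ζ
      simp only [mem_setOf_eq, mem_empty_iff_false, iff_false]
      rintro ⟨h1, h2, h3⟩
      exact h3 (hcon ζ h1 h2)
    rw [this]
    exact countable_empty
  choose w hw1 hw2 hw3 using hw
  have hwn : ∀ j n', n' ≤ N + j → w j ∉ Γ n' := fun j n' hn' hmem => hw3 j (hm hn' hmem)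
  by_cases hcase : ∀ e, ¬ c k ≤ e → ∃ w' ∈ range w, ¬ w' ≤ e
  · refine ⟨range w, countable_range w, ⟨_, ⟨0, rfl⟩⟩, ?_, hcase⟩
    rintro _ ⟨j, rfl⟩
    exact ⟨hw1 j, ⟨_, hw2 j⟩, hwn j n ((le_max_right m n).trans (Nat.le_add_right _ _))⟩
  · push Not at hcase
    obtain ⟨e, he, hall⟩ := hcase
    have hv : ∃ v, (s ++ [v] ∈ Good ∧ v ∈ Γ (N + 1) ∧ v ∉ Γ N) ∧ ¬ v ≤ e ⊔ c k := by
      by_contra hcon
      push Not at hcon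
      exact hunc N s hs (hsN 0) ((h.cnt (e ⊔ c k)).mono fun ζ hζ => hcon ζ hζ)
    obtain ⟨v, ⟨hv1, hv2, hv3⟩, hv4⟩ := hv
    refine ⟨insert v (range w), (countable_range w).insert v, ⟨v, mem_insert _ _⟩, ?_, ?_⟩
    · rintro u (rfl | ⟨j, rfl⟩)
      · exact ⟨hv1, ⟨_, hv2⟩, fun hmem => hv3 (hm (le_max_right m n) hmem)⟩
      · exact ⟨hw1 j, ⟨_, hw2 j⟩, hwn j n ((le_max_right m n).trans (Nat.le_add_right _ _))⟩
    · intro e' he'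
      by_contra hcon
      push Not at hcon
      refine hv4 (tee1 h.j3 hΓ hmono he' (fun n' => ?_) v (N + 1) hv2 (hcon v (mem_insert _ _)))
      exact ⟨w n', hall _ ⟨n', rfl⟩, hcon _ (mem_insert_of_mem _ ⟨n', rfl⟩),
        hwn n' n' (Nat.le_add_left _ _)⟩

end Pool.Agent.EL
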