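import Pool.Agent.EL.Lat

set_option autoImplicit false

/-!
# EL/Tree: the countable tree of good positions
-/

namespace Pool.Agent.EL

open Cardinal Set

/-- The tree generated by the sets `W s`. -/
private inductive InTree {L : Type} (W : List L → Set L) : List L → Prop
  | nil : InTree W []
  | snoc (s : List L) (w : L) : InTree W s → w ∈ W s → InTree W (s ++ [w])

private lemma inTree_snoc {L : Type} {W : List L → Set L} {s : List L} {w : L}
    (h : InTree W (s ++ [w])) : InTree W s ∧ w ∈ W s := by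
  generalize ht : s ++ [w] = t at h
  cases h with
  | nil => simp at ht
  | snoc s' w' h1 h2 =>
    have := List.append_inj' ht rfl
    obtain ⟨rfl, h3⟩ := this
    have h4 : w = w' := by simpa using h3
    subst h4
    exact ⟨h1, h2⟩

private lemma countable_inTree {L : Type} {W : List L → Set L} (hW : ∀ s, (W s).Countable) :
    {s | InTree W s}.Countable := by
  have h1 : ∀ n : ℕ, {s | InTree W s ∧ s.length = n}.Countable := by
    intro n
    induction n with
    | zero =>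
      refine (countable_singleton ([] : List L)).mono fun s hs => ?_
      exact List.length_eq_zero_iff.mp hs.2
    | succ n ih =>
      have : {s | InTree W s ∧ s.length = n + 1} ⊆
          ⋃ s ∈ {s | InTree W s ∧ s.length = n}, (fun w => s ++ [w]) '' W s := by
        rintro t ⟨ht, hlen⟩
        cases ht with
        | nil => simp at hlen
        | snoc s w h1 h2 =>
          refine mem_iUnion₂.mpr ⟨s, ⟨h1, ?_⟩, w, h2, rfl⟩
          simpa using hlen
      exact (ih.biUnion fun s _ => (hW s).image _).mono this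
  refine (countable_iUnion h1).mono fun s hs => ?_
  exact mem_iUnion.mpr ⟨s.length, hs, rfl⟩

/-- The abstract form: `E` is a type of targets and `Rl e w` is a relation. -/
theorem exists_tree {L E : Type} {Γ : ℕ → Set L} {Good : Set (List L)} (h0 : [] ∈ Good)
    (hmono : ∀ n, Γ n ⊆ Γ (n + 1)) (Rl : E → L → Prop)
    (hW : ∀ s ∈ Good, ∀ m, (∀ y ∈ s, y ∈ Γ m) → ∀ n, ∃ W : Set L, W.Countable ∧ W.Nonempty ∧
      (∀ w ∈ W, s ++ [w] ∈ Good ∧ (∃ m, w ∈ Γ m) ∧ w ∉ Γ n) ∧ ∀ e, ∃ w ∈ W, Rl e w) :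
    ∃ Y : Set (List L), Y.Countable ∧ [] ∈ Y ∧ (∀ s w, s ++ [w] ∈ Y → s ∈ Y) ∧
      (∀ s ∈ Y, s ∈ Good ∧ ∀ y ∈ s, ∃ m, y ∈ Γ m) ∧
      (∀ s w, s ++ [w] ∈ Y → w ∉ Γ s.length) ∧
      (∀ s ∈ Y, ∃ w, s ++ [w] ∈ Y) ∧
      ∀ s ∈ Y, ∀ e, ∃ w, s ++ [w] ∈ Y ∧ Rl e w := by
  classical
  have hm : Monotone Γ := monotone_nat_of_le_succ hmono
  have hbd : ∀ s : List L, (∀ y ∈ s, ∃ m, y ∈ Γ m) → ∃ m, ∀ y ∈ s, y ∈ Γ m := by
    intro s
    induction s with
    | nil => exact fun _ => ⟨0, by simp⟩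
    | cons a s ih =>
      intro hs
      obtain ⟨i, hi⟩ := hs a (List.mem_cons_self)
      obtain ⟨j, hj⟩ := ih fun y hy => hs y (List.mem_cons_of_mem _ hy)
      refine ⟨max i j, fun y hy => ?_⟩
      rcases List.mem_cons.mp hy with rfl | hy
      · exact hm (le_max_left i j) hi
      · exact hm (le_max_right i j) (hj y hy)
  have hex : ∀ s : List L, ∃ W : Set L, W.Countable ∧ (s ∈ Good → (∀ y ∈ s, ∃ m, y ∈ Γ m) →
      W.Nonempty ∧ (∀ w ∈ W, s ++ [w] ∈ Good ∧ (∃ m, w ∈ Γ m) ∧ w ∉ Γ s.length) ∧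
        ∀ e, ∃ w ∈ W, Rl e w) := by
    intro s
    by_cases hs : s ∈ Good ∧ ∀ y ∈ s, ∃ m, y ∈ Γ m
    · obtain ⟨m, hm'⟩ := hbd s hs.2
      obtain ⟨W, h1, h2, h3, h4⟩ := hW s hs.1 m hm' s.length
      exact ⟨W, h1, fun _ _ => ⟨h2, h3, h4⟩⟩
    · exact ⟨∅, countable_empty, fun h1 h2 => absurd ⟨h1, h2⟩ hs⟩
  choose W hWc hWs using hex
  have hgood : ∀ s, InTree W s → s ∈ Good ∧ ∀ y ∈ s, ∃ m, y ∈ Γ m := by
    intro s hs
    induction hs with
    | nil => exact ⟨h0, by simp⟩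
    | snoc s w _ hw ih =>
      obtain ⟨h1, h2, h3⟩ := (hWs s ih.1 ih.2).2.1 w hw
      refine ⟨h1, fun y hy => ?_⟩
      rcases List.mem_append.mp hy with hy | hy
      · exact ih.2 y hy
      · rw [List.mem_singleton.mp hy]; exact h2
  refine ⟨{s | InTree W s}, countable_inTree hWc, InTree.nil, fun s w h => (inTree_snoc h).1,
    hgood, fun s w h => ?_, fun s hs => ?_, fun s hs e => ?_⟩
  · obtain ⟨h1, h2⟩ := inTree_snoc h
    exact ((hWs s (hgood s h1).1 (hgood s h1).2).2.1 w h2).2.2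
  · obtain ⟨w, hw⟩ := (hWs s (hgood s hs).1 (hgood s hs).2).1
    exact ⟨w, InTree.snoc s w hs hw⟩
  · obtain ⟨w, hw, hr⟩ := (hWs s (hgood s hs).1 (hgood s hs).2).2.2 e
    exact ⟨w, InTree.snoc s w hs hw, hr⟩

end Pool.Agent.EL
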