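import Pool.Agent.EL.Good
import Pool.Agent.EL.Gam
import Pool.Agent.EL.Tee
import Pool.Agent.EL.Branch
import Pool.Agent.EL.Tree

set_option autoImplicit false

/-!
# EL/ProjSg: the set `Sg` is projectively stationary

Let `T` be stationary and `F : ℕ → List L → L`.  Take `i ∈ T`, nonminimal, and `Good` from
`exists_good`, `Γ` from `exists_Gamma`, `k = g i`.  `U = ⋃ n, Γ n` is a small ideal
(`small_S4`, index `ℕ`) closed under `F` (a list has entries in one `Γ n`).  Fix `z ∉ U`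
(`small_S5`).  Let `𝓔 = {e | (∃ ξ, e ≤ z ⊔ c ξ) ∧ ¬ c k ≤ e}`, `#𝓔 ≤ ℵ₁` (a union over
`ξ : W1` of the countable sets `Iic (z ⊔ c ξ)`, `mk_iUnion_le1`).
`exists_tree` with `E = 𝓔`, `Rl e w = ¬ w ≤ e`, `hW` from `tee2`, gives the tree `Y`.
Enumerate `𝓔 = {e j | j : W1}` (`exists_enum1`) if `𝓔 ≠ ∅` and let `Q j w = ¬ w ≤ e j`
(`Q j w = True` if `𝓔 = ∅`); `exists_branch` gives `f` with `(List.range n).map f ∈ Y` for all `n`
and: for every `e ∈ 𝓔` there is `n` with `¬ f n ≤ e`.  Moreover `f n ∈ U`,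
`f n ∉ Γ n` (as `(List.range (n+1)).map f = (List.range n).map f ++ [f n] ∈ Y`).
Let `x = {y | Cl F (c '' Iio i ∪ range f) y}`: countable, closed under `F`, `x ⊆ U`.
Trace: `ξ < i → c ξ ∈ x`; if `c ξ ∈ x`, then since `c '' Iio i ∪ range f` is the increasing union
over `n` of `c '' Iio i ∪ {y | y ∈ (List.range n).map f}`, `cl_iUnion` and the property of
`Good` give `ξ < i`.
Upper bounds: let `∀ y ∈ x, y ≤ e` and suppose `¬ c k ≤ e`.  For each `n` there is `ξ n` with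
`f n ≤ z ⊔ c (ξ n)` (`small_S1` with the ideal `U`, `x := z ∉ U`, `y := f n ∈ U`); let `ξ` be an
upper bound of all `ξ n` (`bound1`): `f n ≤ z ⊔ c ξ` for all `n`.  Let `e' = e ⊓ (z ⊔ c ξ)`.  Then
`¬ c k ≤ e'`, so `e' ∈ 𝓔`, but `f n ≤ e'` for all `n`, a contradiction.
(`Γ` is used only through `tee2`.)
-/

namespace Pool.Agent.EL

open Cardinal Set

variable {L : Type} [Lattice L]

/-- Countable sets with trace `i` on `c` all of whose upper bounds are above `c (g i)`. -/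
def Sg (c : W1 → L) (g : W1 → W1) : Set (Set L) :=
  {x | x.Countable ∧ ∃ i, Trace c x i ∧ ∀ e, (∀ y ∈ x, y ≤ e) → c (g i) ≤ e}

private lemma ProjSg_list {Γ : ℕ → Set L} (hmono : Monotone Γ) :
    ∀ l : List L, (∀ y ∈ l, y ∈ ⋃ n, Γ n) → ∃ n, ∀ y ∈ l, y ∈ Γ n := by
  intro l
  induction l with
  | nil => intro _; exact ⟨0, by simp⟩
  | cons a l ih =>
    intro hl
    obtain ⟨p, hp⟩ := mem_iUnion.mp (hl a List.mem_cons_self)
    obtain ⟨q, hq⟩ := ih (fun y hy => hl y (List.mem_cons_of_mem _ hy))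
    refine ⟨max p q, fun y hy => ?_⟩
    rcases List.mem_cons.mp hy with rfl | hy
    · exact hmono (le_max_left p q) hp
    · exact hmono (le_max_right p q) (hq y hy)

private lemma ProjSg_branch (hMA : MA1) {𝓔 : Set L} (h𝓔 : #𝓔 ≤ ℵ_ 1) {Y : Set (List L)}
    (hYc : Y.Countable) (hY0 : [] ∈ Y) (hYpre : ∀ s w, s ++ [w] ∈ Y → s ∈ Y)
    (hYext : ∀ s ∈ Y, ∃ w, s ++ [w] ∈ Y)
    (hYR : ∀ s ∈ Y, ∀ e : 𝓔, ∃ w, s ++ [w] ∈ Y ∧ ¬ w ≤ e.1) :
    ∃ f : ℕ → L, (∀ n, (List.range n).map f ∈ Y) ∧ ∀ e ∈ 𝓔, ∃ n, ¬ f n ≤ e := by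
  rcases 𝓔.eq_empty_or_nonempty with hE | hE
  · obtain ⟨f, hf, _⟩ := exists_branch hMA Y hYc hY0 hYpre (fun _ _ => True)
      (fun s hs _ => by
        obtain ⟨w, hw⟩ := hYext s hs
        exact ⟨w, hw, trivial⟩)
    exact ⟨f, hf, fun e he => by rw [hE] at he; exact absurd he (notMem_empty e)⟩
  · obtain ⟨φ, hφ⟩ := exists_enum1 h𝓔 hE
    obtain ⟨f, hf, hf2⟩ := exists_branch hMA Y hYc hY0 hYpre (fun j w => ¬ w ≤ φ j)
      (fun s hs j => hYR s hs ⟨φ j, hφ ▸ mem_range_self j⟩)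
    refine ⟨f, hf, fun e he => ?_⟩
    rw [← hφ] at he
    obtain ⟨j, rfl⟩ := he
    exact hf2 j

theorem projStat_Sg (hMA : MA1) (h : LadCtx L) {c : W1 → L} (hc : StrictMono c)
    (g : W1 → W1) : ProjStat c (Sg c g) := by
  intro T hT F
  obtain ⟨i, hiT, _, Good, hnil, htr, hg⟩ := exists_good h hc hT F
  obtain ⟨Γ, hΓ, hmono, hF, hunc⟩ := exists_Gamma h hc F Good hg
  have hmono' : Monotone Γ := monotone_nat_of_le_succ hmono
  have hN : #ℕ ≤ ℵ_ 1 := by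
    rw [Cardinal.mk_nat]
    exact aleph0_le_aleph 1
  have hU : Small c (⋃ n, Γ n) := small_S4 h hc hN Γ hΓ
  have hFU : Clo F (⋃ n, Γ n) := by
    intro m l hl
    obtain ⟨n, hn⟩ := ProjSg_list hmono' l hl
    exact mem_iUnion.mpr ⟨n + 1, hF n m l hn⟩
  obtain ⟨z, hz⟩ := small_S5 h hU
  set k := g i with hk
  let 𝓔 : Set L := {e | (∃ ξ, e ≤ z ⊔ c ξ) ∧ ¬ c k ≤ e}
  have h𝓔 : #𝓔 ≤ ℵ_ 1 := by
    have h1 : 𝓔 ⊆ ⋃ ξ : W1, Iic (z ⊔ c ξ) := by
      rintro e ⟨⟨ξ, hξ⟩, _⟩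
      exact mem_iUnion.mpr ⟨ξ, hξ⟩
    refine (mk_le_mk_of_subset h1).trans (mk_iUnion_le1 mk_W1.le _ fun ξ => ?_)
    exact mk_countable_le1 (h.cnt _)
  obtain ⟨Y, hYc, hY0, hYpre, hYG, _, hYext, hYR⟩ := exists_tree (E := 𝓔) (Γ := Γ) hnil hmono
    (fun e w => ¬ w ≤ e.1) (fun s hs m hsm n => by
      obtain ⟨W, hW1, hW2, hW3, hW4⟩ := tee2 h hΓ hmono hunc k hs hsm n
      exact ⟨W, hW1, hW2, hW3, fun e => hW4 e.1 e.2.2⟩)
  obtain ⟨f, hfY, hfE⟩ := ProjSg_branch hMA h𝓔 hYc hY0 hYpre hYext hYR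
  have hfU : ∀ n, f n ∈ ⋃ n, Γ n := by
    intro n
    have h1 := (hYG _ (hfY (n + 1))).2 (f n) (by
      rw [List.mem_map]
      exact ⟨n, List.mem_range.mpr (Nat.lt_succ_self n), rfl⟩)
    exact mem_iUnion.mpr h1
  have hcnt : (c '' Iio i ∪ range f).Countable :=
    ((countable_Iio i).image c).union (countable_range f)
  have htrace : Trace c {y | Cl F (c '' Iio i ∪ range f) y} i := by
    intro ξ
    constructor
    · intro hξ
      have h1 : c '' Iio i ∪ range f =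
          ⋃ n : ℕ, (c '' Iio i ∪ {y | y ∈ (List.range n).map f}) := by
        ext y
        simp only [mem_union, mem_iUnion, mem_range]
        constructor
        · rintro (hy | ⟨n, rfl⟩)
          · exact ⟨0, Or.inl hy⟩
          · exact ⟨n + 1, Or.inr (List.mem_map.mpr
              ⟨n, List.mem_range.mpr (Nat.lt_succ_self n), rfl⟩)⟩
        · rintro ⟨n, hy | hy⟩
          · exact Or.inl hy
          · obtain ⟨a, _, ha⟩ := List.mem_map.mp hy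
            exact Or.inr ⟨a, ha⟩
      have h2 : Monotone fun n : ℕ => (c '' Iio i ∪ {y | y ∈ (List.range n).map f}) := by
        intro a b hab
        refine union_subset_union_right _ ?_
        intro y hy
        obtain ⟨q, hq, hqy⟩ := List.mem_map.mp hy
        exact List.mem_map.mpr ⟨q, List.mem_range.mpr ((List.mem_range.mp hq).trans_le hab), hqy⟩
      have h3 : Cl F (⋃ n : ℕ, (c '' Iio i ∪ {y | y ∈ (List.range n).map f})) (c ξ) := by
        rw [← h1]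
        exact hξ
      obtain ⟨n, hn⟩ := cl_iUnion h2 h3
      exact htr _ (hYG _ (hfY n)).1 ξ hn
    · intro hξ
      exact Cl.base (Or.inl ⟨ξ, hξ, rfl⟩)
  refine ⟨{y | Cl F (c '' Iio i ∪ range f) y}, ⟨countable_cl hcnt, i, htrace, ?_⟩,
    countable_cl hcnt, clo_cl _, i, hiT, htrace⟩
  intro e he
  by_contra hcon
  have h1 : ∀ n, ∃ ξ, f n ≤ z ⊔ c ξ := fun n => small_S1 h hc hU.1 hU.2.1 hz (hfU n)
  choose ξ hξ using h1
  obtain ⟨b, hb⟩ := bound1 (countable_range ξ)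
  have h2 : ∀ n, f n ≤ z ⊔ c b := fun n =>
    (hξ n).trans (sup_le_sup_left (hc.monotone (hb _ ⟨n, rfl⟩).le) z)
  have h3 : e ⊓ (z ⊔ c b) ∈ 𝓔 := ⟨⟨b, inf_le_right⟩, fun hh => hcon (hh.trans inf_le_left)⟩
  obtain ⟨n, hn⟩ := hfE _ h3
  exact hn (le_inf (he _ (Cl.base (Or.inr ⟨n, rfl⟩))) (h2 n))

end Pool.Agent.EL
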