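import Pool.Agent.EL.RPos

set_option autoImplicit false

/-!
# EL/RKey: the key lemma on the poset `RCond S`

Proof of `rkey`.  Let `stp p a` be the condition given by `exists_step` (with `hcof` from
`cof_of_projStat`).  Define `π : List X → RCond S` by recursion: `π [] = p0` and
`π (a :: l) = e ξ (stp (π l) a)` if `a = c ξ` for some (then unique) `ξ`, and
`π (a :: l) = stp (π l) a` otherwise.  Let
* `F 0 l = c (π l).ν`;
* `F 1 (a :: l) = c (η ξ (stp (π l) a))` if `a = c ξ`, and `F 1 l = c (π l).ν` otherwise;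
* `F (n + 2) l` = the `n`-th element of the countable set `(π l).x (π l).ν`
  (`= c (π l).ν` if this set is empty).
`ProjStat` gives `x ∈ S` countable, closed under `F`, with trace `i ∈ T`.
`x` is nonempty (`F 0 [] ∈ x`), so `x = {a 0, a 1, ...}`.  Let `l 0 = []`, `l (n+1) = a n :: l n`
(all entries in `x`), `p n = π (l n)`.  Then `p (n+1) ≤ p n`, `(p n).ν < (p (n+1)).ν`,
`c (p n).ν ∈ x`, i.e. `(p n).ν < i` (this also shows `∃ j, j < i`), the top
`(p n).x (p n).ν ⊆ x`, and `a n ∈` top of `p (n+1)`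
(use `rcond_top_mono` for `e ξ p ≤ p`).  Let `ν` be the least upper bound of the
`(p n).ν` (`lub1`); then `(p n).ν < ν` for all `n`, and every `k < ν` is `< (p n).ν` for some `n`.
Define `q.ν = ν`, `q.x k = (p n).x k` for the least `n` with `k ≤ (p n).ν` if `k < ν` (all such
`n` give the same set), and `q.x k = x` otherwise.
Check: `q.x k ∈ S`; monotone (`j ≤ k < ν`: both are computed in one `p n`; `k = ν`:
`(p n).x j ⊆ (p n).x (p n).ν ⊆ x`); continuous at limits `k < ν` since `p n` is; at `k = ν`: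
`a n ∈ (p (n+1)).x (p (n+1)).ν = q.x (p (n+1)).ν` with `(p (n+1)).ν < ν`.
`q ≤ p n` for all `n`, in particular `q ≤ p0`.
Finally let `ξ < i`: `c ξ ∈ x`, so `c ξ = a n` for some `n`; `p (n+1) = e ξ p'` with
`p' = stp (p n) (a n)` (`c` is injective), `q ≤ e ξ p'`, and
`c (η ξ p') = F 1 (l (n+1)) ∈ x`, so `η ξ p' < i`.
-/

namespace Pool.Agent.EL

open Cardinal Set

open Classical in
private noncomputable def rkeyPi {X : Type} (c : W1 → X) {S : Set (Set X)}
    (e : W1 → RCond S → RCond S) (stp : RCond S → X → RCond S) (p0 : RCond S) :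
    List X → RCond S
  | [] => p0
  | a :: l =>
    if h : ∃ ξ, c ξ = a then e h.choose (stp (rkeyPi c e stp p0 l) a)
    else stp (rkeyPi c e stp p0 l) a

open Classical in
private noncomputable def rkeyF {X : Type} (c : W1 → X) {S : Set (Set X)}
    (e : W1 → RCond S → RCond S) (stp : RCond S → X → RCond S) (p0 : RCond S)
    (η : W1 → RCond S → W1) (en : RCond S → ℕ → X) : ℕ → List X → X
  | 0, l => c (rkeyPi c e stp p0 l).ν
  | 1, [] => c (rkeyPi c e stp p0 []).ν
  | 1, a :: l =>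
    if h : ∃ ξ, c ξ = a then c (η h.choose (stp (rkeyPi c e stp p0 l) a))
    else c (rkeyPi c e stp p0 []).ν
  | n + 2, l => en (rkeyPi c e stp p0 l) n

private lemma rkeyPi_le {X : Type} (c : W1 → X) {S : Set (Set X)}
    (e : W1 → RCond S → RCond S) (he : ∀ ξ p, e ξ p ≤ p) (stp : RCond S → X → RCond S)
    (p0 : RCond S) (a : X) (l : List X) :
    rkeyPi c e stp p0 (a :: l) ≤ stp (rkeyPi c e stp p0 l) a := by
  rw [rkeyPi]
  split_ifs with h
  · exact he _ _
  · exact le_rfl

private lemma rkeyPi_eq {X : Type} {c : W1 → X} (hc : Function.Injective c) {S : Set (Set X)}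
    (e : W1 → RCond S → RCond S) (stp : RCond S → X → RCond S)
    (p0 : RCond S) (ξ : W1) (l : List X) :
    rkeyPi c e stp p0 (c ξ :: l) = e ξ (stp (rkeyPi c e stp p0 l) (c ξ)) := by
  rw [rkeyPi]
  have h : ∃ ξ', c ξ' = c ξ := ⟨ξ, rfl⟩
  rw [dif_pos h, hc h.choose_spec]

private lemma rkeyF_one {X : Type} {c : W1 → X} (hc : Function.Injective c) {S : Set (Set X)}
    (e : W1 → RCond S → RCond S) (stp : RCond S → X → RCond S)
    (p0 : RCond S) (η : W1 → RCond S → W1) (en : RCond S → ℕ → X) (ξ : W1) (l : List X) :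
    rkeyF c e stp p0 η en 1 (c ξ :: l) = c (η ξ (stp (rkeyPi c e stp p0 l) (c ξ))) := by
  rw [rkeyF]
  have h : ∃ ξ', c ξ' = c ξ := ⟨ξ, rfl⟩
  rw [dif_pos h, hc h.choose_spec]

theorem rkey {X : Type} {c : W1 → X} (hc : Function.Injective c) {S : Set (Set X)}
    (hS : ∀ x ∈ S, x.Countable) (hP : ProjStat c S) {T : Set W1} (hT : Stationary T)
    (e : W1 → RCond S → RCond S) (he : ∀ ξ p, e ξ p ≤ p) (η : W1 → RCond S → W1)
    (p0 : RCond S) :
    ∃ q : RCond S, q ≤ p0 ∧ ∃ i ∈ T, (∃ j, j < i) ∧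
      ∀ ξ < i, ∃ p' : RCond S, q ≤ e ξ p' ∧ η ξ p' < i := by
  classical
  have hcof : ∀ t : Set X, t.Countable → ∃ y ∈ S, t ⊆ y := fun t ht => cof_of_projStat hP ht
  choose stp hstp1 hstp2 hstp3 using fun (p : RCond S) (a : X) => exists_step hS hcof p a
  have hen : ∀ p : RCond S, ∃ f : ℕ → X, p.x p.ν ⊆ range f := by
    intro p
    have h1 : (insert (c p.ν) (p.x p.ν)).Countable := (hS _ (p.mem _ le_rfl)).insert _
    obtain ⟨f, hf⟩ := h1.exists_eq_range ⟨_, mem_insert _ _⟩
    exact ⟨f, by rw [← hf]; exact subset_insert _ _⟩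
  choose en hen using hen
  obtain ⟨x, hxS, hxc, hxF, i, hiT, htr⟩ := hP T hT (rkeyF c e stp p0 η en)
  have hxne : x.Nonempty := ⟨_, hxF 0 [] (by simp)⟩
  obtain ⟨a, ha⟩ := hxc.exists_eq_range hxne
  have hax : ∀ n, a n ∈ x := fun n => by rw [ha]; exact mem_range_self n
  let l : ℕ → List X := fun n => Nat.rec [] (fun n l => a n :: l) n
  have hl0 : l 0 = [] := rfl
  have hls : ∀ n, l (n + 1) = a n :: l n := fun n => rfl
  have hlx : ∀ n, ∀ y ∈ l n, y ∈ x := by
    intro n
    induction n with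
    | zero => intro y hy; rw [hl0] at hy; simp at hy
    | succ n ih =>
      intro y hy
      rw [hls] at hy
      rcases List.mem_cons.mp hy with rfl | hy
      · exact hax n
      · exact ih y hy
  let p : ℕ → RCond S := fun n => rkeyPi c e stp p0 (l n)
  have hp0 : p 0 = p0 := by
    show rkeyPi c e stp p0 (l 0) = p0
    rw [hl0, rkeyPi]
  have hps : ∀ n, p (n + 1) ≤ stp (p n) (a n) := by
    intro n
    show rkeyPi c e stp p0 (l (n + 1)) ≤ stp (rkeyPi c e stp p0 (l n)) (a n)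
    rw [hls]
    exact rkeyPi_le c e he stp p0 (a n) (l n)
  have hpa : Antitone p := antitone_nat_of_succ_le fun n => (hps n).trans (hstp1 _ _)
  have hν : ∀ n, (p n).ν < (p (n + 1)).ν := fun n =>
    (hstp2 (p n) (a n)).trans_le (rcond_le.1 (hps n)).1
  have hνi : ∀ n, (p n).ν < i := by
    intro n
    rw [← htr]
    have h1 := hxF 0 (l n) (hlx n)
    rw [rkeyF] at h1
    exact h1
  have htop : ∀ n, (p n).x (p n).ν ⊆ x := by
    intro n y hy
    obtain ⟨m, rfl⟩ := hen (p n) hy
    have h1 := hxF (m + 2) (l n) (hlx n)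
    rw [rkeyF] at h1
    exact h1
  have han : ∀ n, a n ∈ (p (n + 1)).x (p (n + 1)).ν := fun n =>
    rcond_top_mono (hps n) (hstp3 (p n) (a n))
  obtain ⟨ν, hν1, hν2⟩ := lub1 (countable_range fun n => (p n).ν)
  have hν1' : ∀ n, (p n).ν ≤ ν := fun n => hν1 _ ⟨n, rfl⟩
  have hlt : ∀ n, (p n).ν < ν := fun n => (hν n).trans_le (hν1' (n + 1))
  let qx : W1 → Set X := fun k =>
    if h : ∃ n, k ≤ (p n).ν then (p (Nat.find h)).x k else x
  have hqx1 : ∀ k n, k ≤ (p n).ν → qx k = (p n).x k := by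
    intro k n hk
    have h : ∃ n, k ≤ (p n).ν := ⟨n, hk⟩
    have h1 : qx k = (p (Nat.find h)).x k := dif_pos h
    rw [h1]
    have h2 : Nat.find h ≤ n := Nat.find_min' h hk
    exact ((rcond_le.1 (hpa h2)).2 k (Nat.find_spec h)).symm
  have hqx2 : ∀ k, (¬ ∃ n, k ≤ (p n).ν) → qx k = x := fun k h => dif_neg h
  let q : RCond S :=
    { ν := ν
      x := qx
      mem := by
        intro k hk
        by_cases h : ∃ n, k ≤ (p n).ν
        · obtain ⟨n, hn⟩ := h
          rw [hqx1 k n hn]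
          exact (p n).mem k hn
        · rw [hqx2 k h]
          exact hxS
      mono := by
        intro j k hjk hk
        by_cases h : ∃ n, k ≤ (p n).ν
        · obtain ⟨n, hn⟩ := h
          rw [hqx1 k n hn, hqx1 j n (hjk.trans hn)]
          exact (p n).mono j k hjk hn
        · rw [hqx2 k h]
          by_cases h' : ∃ n, j ≤ (p n).ν
          · obtain ⟨n, hn⟩ := h'
            rw [hqx1 j n hn]
            exact ((p n).mono j _ hn le_rfl).trans (htop n)
          · rw [hqx2 j h']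
      cont := by
        intro k hk hlim
        by_cases h : ∃ n, k ≤ (p n).ν
        · obtain ⟨n, hn⟩ := h
          rw [hqx1 k n hn]
          intro y hy
          obtain ⟨j, hj, hyj⟩ := mem_iUnion₂.mp ((p n).cont k hn hlim hy)
          refine mem_iUnion₂.mpr ⟨j, hj, ?_⟩
          rw [hqx1 j n ((le_of_lt hj).trans hn)]
          exact hyj
        · rw [hqx2 k h]
          intro y hy
          rw [ha] at hy
          obtain ⟨n, rfl⟩ := hy
          refine mem_iUnion₂.mpr ⟨(p (n + 1)).ν, ?_, ?_⟩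
          · exact not_le.mp fun h1 => h ⟨n + 1, h1⟩
          · rw [hqx1 _ (n + 1) le_rfl]
            exact han n }
  have hqp : ∀ n, q ≤ p n := fun n => rcond_le.2 ⟨hν1' n, fun k hk => hqx1 k n hk⟩
  refine ⟨q, ?_, i, hiT, ⟨_, hνi 0⟩, ?_⟩
  · have h1 := hqp 0
    rwa [hp0] at h1
  · intro ξ hξ
    have h1 : c ξ ∈ x := (htr ξ).2 hξ
    have h1' := h1
    rw [ha] at h1'
    obtain ⟨n, hn⟩ := h1'
    refine ⟨stp (p n) (a n), ?_, ?_⟩
    · have h2 : p (n + 1) = e ξ (stp (p n) (a n)) := by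
        show rkeyPi c e stp p0 (l (n + 1)) = e ξ (stp (rkeyPi c e stp p0 (l n)) (a n))
        rw [hls, hn]
        exact rkeyPi_eq hc e stp p0 ξ (l n)
      rw [← h2]
      exact hqp (n + 1)
    · rw [← htr]
      have h2 := hxF 1 (l (n + 1)) (hlx (n + 1))
      rw [hls, hn, rkeyF_one hc] at h2
      rw [hn]
      exact h2

end Pool.Agent.EL
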