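import Pool.Agent.EL.Basic

set_option autoImplicit false

/-!
# EL/RPos: the forcing poset of continuous countable chains of elements of `S`

A condition is `(ν, x)`; only the values `x k`, `k ≤ ν` matter.
`exists_step`: one more step.  Let `ν'` be the successor of `p.ν` (`succ1`); by `hcof` choose
`y ∈ S` with `insert a (p.x p.ν) ⊆ y` (the set `p.x p.ν` is countable by `hS`); let
`q = (ν', fun k => if k ≤ p.ν then p.x k else y)`.  Continuity at `ν'` is void, since a successor is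
not a limit; `k ≤ ν'` means `k ≤ p.ν` or `k = ν'`.
`nonempty_rcond`: take `ν` the least element and `x` constant.
`hcof` follows from `ProjStat` (`cof_of_projStat`): for countable `t` (if `t = ∅` any `y` will do)
let `F n l = enum n` with `enum : ℕ → X` of range `t`, and use `ProjStat` with `T = univ`
(stationary by `stationary_Ici`/`stationary_iff`).
-/

namespace Pool.Agent.EL

open Cardinal Set

/-- Continuous chains of length `ν + 1` of elements of `S`. -/
structure RCond {X : Type} (S : Set (Set X)) where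
  ν : W1
  x : W1 → Set X
  mem : ∀ k ≤ ν, x k ∈ S
  mono : ∀ j k, j ≤ k → k ≤ ν → x j ⊆ x k
  cont : ∀ k ≤ ν, IsLim k → x k ⊆ ⋃ j ∈ Iio k, x j

instance {X : Type} (S : Set (Set X)) : Preorder (RCond S) where
  le q p := p.ν ≤ q.ν ∧ ∀ k ≤ p.ν, q.x k = p.x k
  le_refl p := ⟨le_rfl, fun _ _ => rfl⟩
  le_trans r q p hrq hqp :=
    ⟨hqp.1.trans hrq.1, fun k hk => (hrq.2 k (hk.trans hqp.1)).trans (hqp.2 k hk)⟩

lemma rcond_le {X : Type} {S : Set (Set X)} {q p : RCond S} :
    q ≤ p ↔ p.ν ≤ q.ν ∧ ∀ k ≤ p.ν, q.x k = p.x k := Iff.rfl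

/-- The top of a stronger condition contains the top. -/
lemma rcond_top_mono {X : Type} {S : Set (Set X)} {q p : RCond S} (h : q ≤ p) :
    p.x p.ν ⊆ q.x q.ν := by
  rw [← h.2 p.ν le_rfl]
  exact q.mono _ _ h.1 le_rfl

theorem cof_of_projStat {X : Type} {c : W1 → X} {S : Set (Set X)} (hP : ProjStat c S)
    {t : Set X} (ht : t.Countable) : ∃ y ∈ S, t ⊆ y := by
  have hst : Stationary (univ : Set W1) := by
    intro C hC
    obtain ⟨j, hj, _⟩ := hC.1 (Classical.arbitrary W1)
    exact ⟨j, mem_univ j, hj⟩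
  rcases t.eq_empty_or_nonempty with h | hne
  · obtain ⟨x, hxS, _⟩ := hP univ hst (fun _ _ => c (Classical.arbitrary W1))
    exact ⟨x, hxS, by rw [h]; exact empty_subset _⟩
  · obtain ⟨f, hf⟩ := ht.exists_eq_range hne
    obtain ⟨x, hxS, _, hclo, _⟩ := hP univ hst (fun n _ => f n)
    refine ⟨x, hxS, ?_⟩
    rw [hf]
    rintro _ ⟨n, rfl⟩
    exact hclo n [] (by simp)

theorem exists_step {X : Type} {S : Set (Set X)} (hS : ∀ x ∈ S, x.Countable)
    (hcof : ∀ t : Set X, t.Countable → ∃ y ∈ S, t ⊆ y) (p : RCond S) (a : X) :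
    ∃ q : RCond S, q ≤ p ∧ p.ν < q.ν ∧ a ∈ q.x q.ν := by
  classical
  obtain ⟨ν', hν', hmin⟩ := succ1 p.ν
  obtain ⟨y, hyS, hy⟩ := hcof (insert a (p.x p.ν)) ((hS _ (p.mem _ le_rfl)).insert a)
  have hay : a ∈ y := hy (mem_insert _ _)
  have hpy : p.x p.ν ⊆ y := fun z hz => hy (mem_insert_of_mem _ hz)
  refine ⟨⟨ν', fun k => if k ≤ p.ν then p.x k else y, ?_, ?_, ?_⟩, ⟨hν'.le, fun k hk => ?_⟩, hν', ?_⟩
  · intro k _
    by_cases h : k ≤ p.ν
    · simp only [if_pos h]
      exact p.mem k h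
    · simp only [if_neg h]
      exact hyS
  · intro j k hjk _
    by_cases h : k ≤ p.ν
    · simp only [if_pos h, if_pos (hjk.trans h)]
      exact p.mono j k hjk h
    · simp only [if_neg h]
      by_cases h' : j ≤ p.ν
      · simp only [if_pos h']
        exact (p.mono j _ h' le_rfl).trans hpy
      · simp only [if_neg h']
        exact Subset.rfl
  · intro k hk hlim
    by_cases h : k ≤ p.ν
    · simp only [if_pos h]
      intro z hz
      obtain ⟨j, hj, hzj⟩ := mem_iUnion₂.1 (p.cont k h hlim hz)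
      refine mem_iUnion₂.2 ⟨j, hj, ?_⟩
      have hj' : j ≤ p.ν := (le_of_lt hj).trans h
      simp only [if_pos hj']
      exact hzj
    · exfalso
      obtain ⟨k', hk1, hk2⟩ := hlim.2 p.ν (not_le.1 h)
      exact absurd (hmin k' hk1) (not_le.2 (hk2.trans_le hk))
  · simp only [if_pos hk]
  · simp only [if_neg (not_le.2 hν')]
    exact hay

theorem nonempty_rcond {X : Type} {S : Set (Set X)} (hne : S.Nonempty) : Nonempty (RCond S) := by
  obtain ⟨o, ho⟩ := exists_bot1
  obtain ⟨y, hy⟩ := hne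
  refine ⟨⟨o, fun _ => y, fun _ _ => hy, fun _ _ _ _ => Subset.rfl, ?_⟩⟩
  rintro k hk ⟨⟨j, hj⟩, _⟩
  exact absurd (ho j) (not_le.2 (hj.trans_le hk))

end Pool.Agent.EL
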